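import Mathlib
import Pool.Agent.Lib.P61e83e.Group

/-!
Definitions for the theorem on locally testable codes with a doubly transitive group from one of the
known families.
-/

set_option autoImplicit false
open Classical

namespace Pltc

open P61e83e

section general

variable {F X Y : Type*} [Field F]

/-- number of nonzero entries -/
noncomputable def wt [Fintype X] (u : X → F) : ℕ := (Finset.univ.filter fun x => u x ≠ 0).card

/-- `u` is orthogonal to all words of `C` -/
def Dual [Fintype X] (C : Submodule F (X → F)) (u : X → F) : Prop := ∀ f ∈ C, ∑ x, u x * f x = 0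

/-- restriction of the words of `C` along a map `j : Y → X` -/
def pull (j : Y → X) (C : Submodule F (X → F)) : Submodule F (Y → F) :=
  C.map (LinearMap.funLeft F F j)

lemma mem_pull (j : Y → X) (C : Submodule F (X → F)) (g : Y → F) :
    g ∈ pull j C ↔ ∃ f ∈ C, (fun y => f (j y)) = g := Iff.rfl

/-- the permutations of the coordinates that preserve `C` are doubly transitive -/
def DoublyTrans (C : Submodule F (X → F)) : Prop :=
  ∀ i j i' j' : X, i ≠ j → i' ≠ j' → ∃ π : Equiv.Perm X, Pres C π ∧ π i = i' ∧ π j = j'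

end general

/-- the symmetries used in the affine cases: a code on `K × L` (`L` an extension of `K`) invariant
under translations, shears in both directions and maps `(x, y) ↦ (c x, a y)` -/
structure SInv {F K L : Type*} [Field F] [Field K] [Field L] [Algebra K L]
    (C : Submodule F (K × L → F)) : Prop where
  trans : ∀ f ∈ C, ∀ (a : K) (b : L), (fun z : K × L => f (z.1 + a, z.2 + b)) ∈ C
  shear : ∀ f ∈ C, ∀ l : L →ₗ[K] K, (fun z : K × L => f (z.1 + l z.2, z.2)) ∈ C
  shear' : ∀ f ∈ C, ∀ b : L, (fun z : K × L => f (z.1, z.2 + z.1 • b)) ∈ C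
  dil : ∀ a : L, a ≠ 0 → ∃ c : K, c ≠ 0 ∧ ∀ f ∈ C, (fun z : K × L => f (c * z.1, a * z.2)) ∈ C

/-- the standard symplectic form on `K^d × K^d` -/
def symp {K : Type*} [Field K] {d : ℕ} (x y : (Fin d → K) × (Fin d → K)) : K :=
  ∑ i, (x.1 i * y.2 i - x.2 i * y.1 i)

/-- the functions `θ` on `𝔽₂^{2d}` with `θ (x + y) = θ x + θ y + symp x y` (quadratic forms
polarising to the symplectic form) of Arf invariant `t` -/
def IsQuad {d : ℕ} (t : ZMod 2) (θ : (Fin d → ZMod 2) × (Fin d → ZMod 2) → ZMod 2) : Prop :=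
  (∀ x y, θ (x + y) = θ x + θ y + symp x y) ∧
    ∑ i, θ (Pi.single i 1, 0) * θ (0, Pi.single i 1) = t

section families

variable {F : Type} [Field F] {n : ℕ}

/-- doubly transitive groups of semi-affine permutations of a field (all soluble doubly transitive
groups, up to finitely many) -/
def SemiAffine (C : Submodule F (Fin n → F)) : Prop :=
  ∃ (K : Type) (_ : Field K) (e : Fin n ≃ K),
    ∀ i j i' j' : Fin n, i ≠ j → i' ≠ j' → ∃ π : Equiv.Perm (Fin n),
      (∃ (σ : K ≃+* K) (a b : K), ∀ k, e (π k) = a * σ (e k) + b) ∧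
      Pres C π ∧ π i = i' ∧ π j = j'

/-- any doubly transitive affine group, in characteristic prime to the degree -/
def AffineCross (C : Submodule F (Fin n → F)) : Prop :=
  ∃ (V : Type) (_ : AddCommGroup V) (e : Fin n ≃ V), (n : F) ≠ 0 ∧
    (∀ b : V, ∃ π : Equiv.Perm (Fin n), Pres C π ∧ ∀ k, e (π k) = e k + b) ∧
    ∀ i j i' j' : Fin n, i ≠ j → i' ≠ j' → ∃ π : Equiv.Perm (Fin n),
      (∃ (φ : V ≃+ V) (b : V), ∀ k, e (π k) = φ (e k) + b) ∧
      Pres C π ∧ π i = i' ∧ π j = j'

/-- affine groups containing `V ⋊ SL(V)`, `dim V ≥ 2` -/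
def AffineSL (C : Submodule F (Fin n → F)) : Prop :=
  ∃ (K V : Type) (_ : Field K) (_ : AddCommGroup V) (_ : Module K V) (e : Fin n ≃ V),
    2 ≤ Module.finrank K V ∧
    ∀ (g : V →ₗ[K] V) (b : V), LinearMap.det g = 1 →
      ∃ π : Equiv.Perm (Fin n), Pres C π ∧ ∀ k, e (π k) = g (e k) + b

/-- affine groups containing `V ⋊ Sp(V)` -/
def AffineSp (C : Submodule F (Fin n → F)) : Prop :=
  ∃ (K : Type) (_ : Field K) (d : ℕ) (e : Fin n ≃ (Fin d → K) × (Fin d → K)), 0 < d ∧
    ∀ (g : ((Fin d → K) × (Fin d → K)) →ₗ[K] ((Fin d → K) × (Fin d → K)))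
      (b : (Fin d → K) × (Fin d → K)), (∀ x y, symp (g x) (g y) = symp x y) →
      ∃ π : Equiv.Perm (Fin n), Pres C π ∧ ∀ k, e (π k) = g (e k) + b

/-- groups containing `PSL(V)` acting on the points of the projective space of `V`, `dim V ≥ 2` -/
def ProjSL (C : Submodule F (Fin n → F)) : Prop :=
  ∃ (K V : Type) (_ : Field K) (_ : Finite K) (_ : AddCommGroup V) (_ : Module K V)
    (pt : V → Fin n), 2 ≤ Module.finrank K V ∧
    (∀ i, ∃ v : V, v ≠ 0 ∧ pt v = i) ∧
    (∀ v w : V, v ≠ 0 → w ≠ 0 → (pt v = pt w ↔ ∃ c : K, w = c • v)) ∧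
    ∀ g : V →ₗ[K] V, LinearMap.det g = 1 →
      ∃ π : Equiv.Perm (Fin n), Pres C π ∧ ∀ v : V, v ≠ 0 → π (pt v) = pt (g v)

/-- groups containing `Sp(2d, 2)` acting on the quadratic forms of one type -/
def QuadSp (C : Submodule F (Fin n → F)) : Prop :=
  ∃ (d : ℕ) (t : ZMod 2)
    (e : Fin n ≃ {θ : (Fin d → ZMod 2) × (Fin d → ZMod 2) → ZMod 2 // IsQuad t θ}),
    ∀ g : ((Fin d → ZMod 2) × (Fin d → ZMod 2)) →ₗ[ZMod 2] ((Fin d → ZMod 2) × (Fin d → ZMod 2)),
      (∀ x y, symp (g x) (g y) = symp x y) →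
      ∃ π : Equiv.Perm (Fin n), Pres C π ∧ ∀ k x, (e (π k)).1 x = (e k).1 (g x)

/-- groups in which the stabiliser of a point contains a `p`-group, `p = char F`, transitive on the
other points (`PSL₂(Q)`, `PSU₃(Q)`, `Sz(Q)`, `Ree(Q)` with `Q` a power of `char F`) -/
def NaturalRankOne (C : Submodule F (Fin n → F)) : Prop :=
  ∃ (i₀ : Fin n) (P : Subgroup (Equiv.Perm (Fin n))), IsPGroup (ringChar F) P ∧
    (∀ π ∈ P, Pres C π ∧ π i₀ = i₀) ∧ ∀ i j, i ≠ i₀ → j ≠ i₀ → ∃ π ∈ P, π i = j

/-- groups containing the alternating group -/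
def Alternating (C : Submodule F (Fin n → F)) : Prop :=
  ∀ π ∈ alternatingGroup (Fin n), Pres C π

/-- the automorphism group of `C` contains one of the known doubly transitive groups above -/
def Covered (C : Submodule F (Fin n → F)) : Prop :=
  SemiAffine C ∨ AffineCross C ∨ AffineSL C ∨ AffineSp C ∨ ProjSL C ∨ QuadSp C ∨
    NaturalRankOne C ∨ Alternating C

end families

end Pltc
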