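import Mathlib
import Pool.Agent.Lib.Pltc.Defs

/-!
Module Pltc.ChartDual: dual words inside a chart.
-/

set_option autoImplicit false
open Classical

namespace Pltc

open P61e83e

lemma dual_comp {F : Type*} [Field F] {n : ℕ} (C : Submodule F (Fin n → F))
    (π : Equiv.Perm (Fin n)) (hπ : Pres C π) (u : Fin n → F) (hu : Dual C u) :
    Dual C (fun i => u (π i)) ∧ wt (fun i => u (π i)) = wt u := by
  constructor
  · intro f hf
    have h1 := hu _ (hπ.symm f hf)
    rw [← h1, ← Equiv.sum_comp π (fun x => u x * f (π.symm x))]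
    refine Finset.sum_congr rfl fun x _ => ?_
    rw [Equiv.symm_apply_apply]
  · unfold wt
    refine Finset.card_bij (fun x _ => π x) ?_ ?_ ?_
    · intro x hx
      simpa using hx
    · intro x _ y _ hxy
      exact π.injective hxy
    · intro y hy
      refine ⟨π.symm y, ?_, ?_⟩
      · simpa using hy
      · simp

lemma wt_comp_le {F X Y : Type*} [Field F] [Fintype X] [Fintype Y] (j : Y → X)
    (hj : Function.Injective j) (u : X → F) : wt (fun y => u (j y)) ≤ wt u := by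
  unfold wt
  refine Finset.card_le_card_of_injOn j ?_ hj.injOn
  intro y hy
  simpa using hy

theorem dual_in_chart {F : Type*} [Field F] {n : ℕ} (C : Submodule F (Fin n → F))
    (htr : ∀ x y : Fin n, ∃ π : Equiv.Perm (Fin n), Pres C π ∧ π x = y)
    {Y : Type*} [AddCommGroup Y] [Fintype Y] (j : Y → Fin n) (hj : Function.Injective j)
    (hb : ∀ b : Y, ∃ π : Equiv.Perm (Fin n), Pres C π ∧ (∀ x, π (j x) = j (x + b)) ∧
      ∀ i, (∀ x, j x ≠ i) → π i = i)
    (u : Fin n → F) (hu0 : u ≠ 0) (hu : Dual C u) (q : ℕ) (hq : wt u ≤ q)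
    (hY : q < Fintype.card Y) :
    ∃ u' : Y → F, u' ≠ 0 ∧ wt u' ≤ 2 * q ∧ Dual (pull j C) u' := by
  obtain ⟨x₀, hx₀⟩ : ∃ x₀, u x₀ ≠ 0 := by
    by_contra hcon
    push Not at hcon
    exact hu0 (funext hcon)
  obtain ⟨π, hπ, hπ0⟩ := htr (j 0) x₀
  obtain ⟨hd1, hw1⟩ := dual_comp C π hπ u hu
  set u₁ : Fin n → F := fun i => u (π i) with hu₁
  have hu₁0 : u₁ (j 0) ≠ 0 := by
    rw [hu₁]
    simp only
    rw [hπ0]
    exact hx₀
  have hwv : wt (fun y => u₁ (j y)) ≤ q := ((wt_comp_le j hj u₁).trans hw1.le).trans hq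
  obtain ⟨b, hb0⟩ : ∃ b : Y, u₁ (j b) = 0 := by
    by_contra hcon
    push Not at hcon
    have : wt (fun y => u₁ (j y)) = Fintype.card Y := by
      unfold wt
      rw [Finset.filter_true_of_mem (fun y _ => hcon y), Finset.card_univ]
    omega
  obtain ⟨τ, hτ, hτj, hτo⟩ := hb b
  obtain ⟨hd2, -⟩ := dual_comp C τ hτ u₁ hd1
  refine ⟨fun y => u₁ (j y) - u₁ (j (y + b)), ?_, ?_, ?_⟩
  · intro h0
    have := congrFun h0 0
    simp only [zero_add, Pi.zero_apply] at this
    rw [hb0, sub_zero] at this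
    exact hu₁0 this
  · have hsub : (Finset.univ.filter fun y => u₁ (j y) - u₁ (j (y + b)) ≠ 0) ⊆
        (Finset.univ.filter fun y => u₁ (j y) ≠ 0) ∪
        (Finset.univ.filter fun y => u₁ (j (y + b)) ≠ 0) := by
      intro y hy
      simp only [Finset.mem_filter, Finset.mem_univ, true_and, Finset.mem_union] at hy ⊢
      by_contra hcon
      push Not at hcon
      rw [hcon.1, hcon.2, sub_zero] at hy
      exact hy rfl
    have hw2 : wt (fun y => u₁ (j (y + b))) ≤ wt (fun y => u₁ (j y)) :=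
      wt_comp_le (fun y => y + b) (add_left_injective b) (fun y => u₁ (j y))
    have h3 := (Finset.card_le_card hsub).trans (Finset.card_union_le _ _)
    have h4 : wt (fun y => u₁ (j y) - u₁ (j (y + b))) ≤
        wt (fun y => u₁ (j y)) + wt (fun y => u₁ (j (y + b))) := h3
    omega
  · intro g hg
    obtain ⟨f, hf, rfl⟩ := hg
    have h1 := hd1 f hf
    have h2 := hd2 f hf
    have h3 : ∑ i, (u₁ i - u₁ (τ i)) * f i = 0 := by
      have : ∀ i, (u₁ i - u₁ (τ i)) * f i = u₁ i * f i - u₁ (τ i) * f i := fun i => sub_mul _ _ _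
      rw [Finset.sum_congr rfl fun i _ => this i, Finset.sum_sub_distrib, h1, h2, sub_zero]
    have h4 : ∑ i, (u₁ i - u₁ (τ i)) * f i = ∑ y : Y, (u₁ (j y) - u₁ (τ (j y))) * f (j y) := by
      symm
      refine Finset.sum_of_injOn j hj.injOn (fun _ _ => Finset.mem_coe.mpr (Finset.mem_univ _)) ?_ ?_
      · intro i _ hi
        rw [hτo i, sub_self, zero_mul]
        intro x hx
        exact hi ⟨x, Finset.mem_coe.mpr (Finset.mem_univ _), hx⟩
      · intro i _
        rfl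
    rw [h4] at h3
    rw [← h3]
    refine Finset.sum_congr rfl fun y _ => ?_
    rw [hτj]
    rfl

theorem natural_of_chart {F : Type} [Field F] [Fintype F] {n : ℕ} (C : Submodule F (Fin n → F))
    {Y : Type*} [AddCommGroup Y] (hY : ∀ y : Y, ringChar F • y = 0) (j : Y → Fin n)
    (hj : Function.Injective j) (i₀ : Fin n) (h0 : ∀ x, j x ≠ i₀)
    (h1 : ∀ i, i ≠ i₀ → ∃ x, j x = i)
    (hb : ∀ b : Y, ∃ π : Equiv.Perm (Fin n), Pres C π ∧ (∀ x, π (j x) = j (x + b)) ∧ π i₀ = i₀) :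
    NaturalRankOne C := by
  let P : Subgroup (Equiv.Perm (Fin n)) :=
    { carrier := {π | Pres C π ∧ π i₀ = i₀ ∧ ∃ b : Y, ∀ x, π (j x) = j (x + b)}
      mul_mem' := by
        rintro π π' ⟨h1, h2, b, h3⟩ ⟨h1', h2', b', h3'⟩
        refine ⟨h1.mul h1', ?_, b' + b, fun x => ?_⟩
        · rw [Equiv.Perm.mul_apply, h2', h2]
        · rw [Equiv.Perm.mul_apply, h3', h3, add_assoc]
      one_mem' := ⟨fun f hf => hf, rfl, 0, fun x => by simp⟩
      inv_mem' := by
        rintro π ⟨h1, h2, b, h3⟩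
        refine ⟨h1.symm, ?_, -b, fun x => ?_⟩
        · rw [Equiv.Perm.inv_eq_iff_eq, h2]
        · rw [Equiv.Perm.inv_eq_iff_eq, h3]
          simp }
  refine ⟨i₀, P, ?_, fun π hπ => ⟨hπ.1, hπ.2.1⟩, ?_⟩
  · rintro ⟨π, hπ1, hπ2, b, hπ3⟩
    refine ⟨1, ?_⟩
    rw [pow_one]
    apply Subtype.ext
    change π ^ ringChar F = 1
    have key : ∀ m : ℕ, (π ^ m) i₀ = i₀ ∧ ∀ x, (π ^ m) (j x) = j (x + m • b) := by
      intro m
      induction m with
      | zero => simp
      | succ m ih =>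
        refine ⟨?_, fun x => ?_⟩
        · rw [pow_succ', Equiv.Perm.mul_apply, ih.1, hπ2]
        · rw [pow_succ', Equiv.Perm.mul_apply, ih.2, hπ3, add_assoc, succ_nsmul]
    ext i
    by_cases hi : i = i₀
    · rw [hi, (key _).1]; simp
    · obtain ⟨x, rfl⟩ := h1 i hi
      rw [(key _).2, hY, add_zero]; simp
  · intro i i' hi hi'
    obtain ⟨x, rfl⟩ := h1 i hi
    obtain ⟨y, rfl⟩ := h1 i' hi'
    obtain ⟨π, hπ1, hπ2, hπ3⟩ := hb (y - x)
    exact ⟨π, ⟨hπ1, hπ3, y - x, hπ2⟩, by rw [hπ2]; simp⟩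

end Pltc
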