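import Mathlib

/-!
Module Pltc.Ext: extensions of a finite field of given degree.
-/

set_option autoImplicit false
open Classical

namespace Pltc

lemma exists_extension (K : Type) [Field K] [Fintype K] (d : ℕ) (hd : 0 < d) :
    ∃ (L : Type) (_ : Field L) (_ : Fintype L) (_ : Algebra K L), Module.finrank K L = d := by
  obtain ⟨p, hp⟩ := CharP.exists K
  haveI : Fact p.Prime := ⟨CharP.char_is_prime K p⟩
  letI : Algebra (ZMod p) K := ZMod.algebra K p
  have hm : 0 < Module.finrank (ZMod p) K := Module.finrank_pos
  set m := Module.finrank (ZMod p) K with hmdef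
  have hmd : m * d ≠ 0 := by positivity
  have hL : Module.finrank (ZMod p) (GaloisField p (m * d)) = m * d := GaloisField.finrank p hmd
  haveI : Finite (GaloisField p (m * d)) := inferInstance
  have hdvd : Module.finrank (ZMod p) K ∣ Module.finrank (ZMod p) (GaloisField p (m * d)) := by
    rw [hL]; exact Dvd.intro d rfl
  obtain ⟨f⟩ := FiniteField.nonempty_algHom_of_finrank_dvd hdvd
  letI := f.toRingHom.toAlgebra
  haveI : IsScalarTower (ZMod p) K (GaloisField p (m * d)) := IsScalarTower.of_algHom f
  refine ⟨GaloisField p (m * d), inferInstance, Fintype.ofFinite _, inferInstance, ?_⟩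
  have h1 := Module.finrank_mul_finrank (ZMod p) K (GaloisField p (m * d))
  rw [hL] at h1
  exact Nat.eq_of_mul_eq_mul_left hm h1

/-- a linear endomorphism `g` with `g ^ p = 1` has determinant `1` in characteristic `p` -/
lemma det_eq_one_of_pow {K V : Type*} [Field K] [AddCommGroup V] [Module K V] (p : ℕ)
    [Fact p.Prime] [CharP K p] (g : V →ₗ[K] V) (hg : g ^ p = 1) : LinearMap.det g = 1 := by
  have h : (LinearMap.det g) ^ p = 1 := by
    rw [← map_pow, hg, map_one]
  have h2 : (LinearMap.det g - 1) ^ p = 0 := by
    rw [sub_pow_char, h, one_pow, sub_self]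
  have h3 := pow_eq_zero_iff (Fact.out (p := p.Prime)).ne_zero |>.1 h2
  exact sub_eq_zero.1 h3

end Pltc
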