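import Mathlib
import Pool.Agent.Lib.Pltc.Defs
import Pool.Agent.Lib.Pltc.Ext

/-!
Module Pltc.DetOne: a code on a vector space `V` of dimension at least `2`, invariant under
translations and all linear maps of determinant `1`, becomes a code with the symmetries `SInv`.

Proof.  `L` = extension of `K` of degree `dim V - 1` (`exists_extension`), `φ : K × L ≃ₗ[K] V` by
equality of dimensions.  The maps of `K × L`: `(x, y) ↦ (x + l y, y)` and `(x, y) ↦ (x, y + x • b)` have
`p`-th power `1` (`det_eq_one_of_pow`, `g ^ j = (x + j • l y, y)` by induction), and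
`(x, y) ↦ (N(a)⁻¹ x, a y)` has determinant `N(a)⁻¹ N(a) = 1` (`LinearMap.det_prodMap`,
`Algebra.norm_apply`; `N(a) = Algebra.norm K a ≠ 0`).  Conjugation by `φ` does not change the
determinant (`LinearMap.det_conj`).
-/

set_option autoImplicit false
open Classical

namespace Pltc

/-- the three kinds of linear symmetries have determinant `1` -/
lemma det_shear {K L : Type} [Field K] [Field L] [Fintype K] [Fintype L] [Algebra K L]
    (l : L →ₗ[K] K) (g : (K × L) →ₗ[K] (K × L)) (hg : ∀ z, g z = (z.1 + l z.2, z.2)) :
    LinearMap.det g = 1 := by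
  have hch : CharP K (ringChar K) := ringChar.charP K
  have : Fact (ringChar K).Prime := ⟨CharP.char_is_prime K (ringChar K)⟩
  have hpow : ∀ (j : ℕ) (z : K × L), (g ^ j) z = (z.1 + (j : K) * l z.2, z.2) := by
    intro j
    induction j with
    | zero => intro z; simp
    | succ j ih =>
      intro z
      rw [pow_succ', Module.End.mul_apply, ih, hg]
      refine Prod.ext ?_ rfl
      simp only [Nat.cast_succ]
      ring
  refine det_eq_one_of_pow (ringChar K) g (LinearMap.ext fun z => ?_)
  rw [hpow]
  simp

lemma det_shear' {K L : Type} [Field K] [Field L] [Fintype K] [Fintype L] [Algebra K L]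
    (b : L) (g : (K × L) →ₗ[K] (K × L)) (hg : ∀ z, g z = (z.1, z.2 + z.1 • b)) :
    LinearMap.det g = 1 := by
  have hch : CharP K (ringChar K) := ringChar.charP K
  have : Fact (ringChar K).Prime := ⟨CharP.char_is_prime K (ringChar K)⟩
  have hpow : ∀ (j : ℕ) (z : K × L), (g ^ j) z = (z.1, z.2 + (j : K) • (z.1 • b)) := by
    intro j
    induction j with
    | zero => intro z; simp
    | succ j ih =>
      intro z
      rw [pow_succ', Module.End.mul_apply, ih, hg]
      refine Prod.ext rfl ?_
      simp only [Nat.cast_succ, add_smul, one_smul]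
      ring
  refine det_eq_one_of_pow (ringChar K) g (LinearMap.ext fun z => ?_)
  rw [hpow]
  simp

lemma det_dil {K L : Type} [Field K] [Field L] [Fintype K] [Fintype L] [Algebra K L]
    (a : L) (ha : a ≠ 0) (g : (K × L) →ₗ[K] (K × L))
    (hg : ∀ z, g z = ((Algebra.norm K a)⁻¹ * z.1, a * z.2)) :
    LinearMap.det g = 1 := by
  have hfin : Module.Finite K L := Module.Finite.of_finite
  have hn : Algebra.norm K a ≠ 0 := Algebra.norm_ne_zero_iff.mpr ha
  have h1 : g = LinearMap.prodMap ((Algebra.norm K a)⁻¹ • (LinearMap.id : K →ₗ[K] K))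
      (Algebra.lmul K L a) := by
    refine LinearMap.ext fun z => ?_
    rw [hg]
    simp
  rw [h1, LinearMap.det_prodMap, LinearMap.det_smul, ← Algebra.norm_apply]
  simp [hn]

theorem sinv_of_det {F K V : Type} [Field F] [Field K] [Fintype K] [AddCommGroup V] [Module K V]
    [Finite V] (hd : 2 ≤ Module.finrank K V) (C : Submodule F (V → F))
    (htr : ∀ f ∈ C, ∀ b : V, (fun x => f (x + b)) ∈ C)
    (hlin : ∀ g : V →ₗ[K] V, LinearMap.det g = 1 → ∀ f ∈ C, (fun x => f (g x)) ∈ C) :
    ∃ (L : Type) (_ : Field L) (_ : Fintype L) (_ : Algebra K L) (φ : (K × L) ≃ V),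
      SInv (pull φ C) := by
  obtain ⟨L, _, _, _, hL⟩ := exists_extension K (Module.finrank K V - 1) (by omega)
  have hV : Module.Finite K V := Module.Finite.of_finite
  have hfin : Module.Finite K L := Module.Finite.of_finite
  have hdim : Module.finrank K (K × L) = Module.finrank K V := by
    rw [Module.finrank_prod, Module.finrank_self, hL]
    omega
  let φ : (K × L) ≃ₗ[K] V := LinearEquiv.ofFinrankEq (K × L) V hdim
  have key : ∀ g : (K × L) →ₗ[K] (K × L), LinearMap.det g = 1 → ∀ f ∈ pull φ.toEquiv C,
      (fun z => f (g z)) ∈ pull φ.toEquiv C := by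
    intro g hg f hf
    obtain ⟨f', hf', rfl⟩ := (mem_pull _ _ _).mp hf
    rw [mem_pull]
    refine ⟨fun x => f' ((φ.toLinearMap ∘ₗ g ∘ₗ φ.symm.toLinearMap) x),
      hlin _ (by rw [LinearMap.det_conj, hg]) f' hf', ?_⟩
    funext z
    simp
  refine ⟨L, inferInstance, inferInstance, inferInstance, φ.toEquiv, ?_⟩
  constructor
  · intro f hf a b
    obtain ⟨f', hf', rfl⟩ := (mem_pull _ _ _).mp hf
    rw [mem_pull]
    refine ⟨fun x => f' (x + φ (a, b)), htr f' hf' _, ?_⟩
    funext z
    change f' (φ z + φ (a, b)) = f' (φ (z.1 + a, z.2 + b))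
    rw [← map_add]
    rfl
  · intro f hf l
    let g : (K × L) →ₗ[K] (K × L) :=
      { toFun := fun z => (z.1 + l z.2, z.2)
        map_add' := fun z w => by
          refine Prod.ext ?_ rfl
          simp only [Prod.fst_add, Prod.snd_add, map_add]
          ring
        map_smul' := fun c z => by
          refine Prod.ext ?_ rfl
          simp only [Prod.smul_fst, Prod.smul_snd, map_smul, RingHom.id_apply, smul_add] }
    exact key g (det_shear l g fun z => rfl) f hf
  · intro f hf b
    let g : (K × L) →ₗ[K] (K × L) :=
      { toFun := fun z => (z.1, z.2 + z.1 • b)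
        map_add' := fun z w => by
          refine Prod.ext rfl ?_
          simp only [Prod.fst_add, Prod.snd_add, add_smul]
          ring
        map_smul' := fun c z => by
          refine Prod.ext rfl ?_
          simp only [Prod.smul_fst, Prod.smul_snd, RingHom.id_apply, smul_add, smul_assoc] }
    exact key g (det_shear' b g fun z => rfl) f hf
  · intro a ha
    have hn : Algebra.norm K a ≠ 0 := Algebra.norm_ne_zero_iff.mpr ha
    refine ⟨(Algebra.norm K a)⁻¹, inv_ne_zero hn, fun f hf => ?_⟩
    let g : (K × L) →ₗ[K] (K × L) :=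
      { toFun := fun z => ((Algebra.norm K a)⁻¹ * z.1, a * z.2)
        map_add' := fun z w => by
          refine Prod.ext ?_ ?_
          · simp only [Prod.fst_add]
            ring
          · simp only [Prod.snd_add]
            ring
        map_smul' := fun c z => by
          refine Prod.ext ?_ ?_
          · simp only [Prod.smul_fst, RingHom.id_apply, smul_eq_mul]
            ring
          · simp only [Prod.smul_snd, RingHom.id_apply, mul_smul_comm] }
    exact key g (det_dil a ha g fun z => rfl) f hf

end Pltc
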