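import Mathlib
import Pool.Agent.Lib.Pltc.Defs
import Pool.Agent.Lib.P61e83e.Cross

/-!
Module Pltc.Kernel.  Cross characteristic: translation invariant codes on a finite abelian group `V`
of order prime to the characteristic, invariant under additive automorphisms transitive on `V - 0`.

Proof of `kernel_general`: copy `P61e83e.exists_kernel` (file Lib/P61e83e/Cross.lean) verbatim with
the field `K` replaced by the finite additive commutative group `V` (only addition of `K` is used).

Proof of `cross_general`: as `P61e83e.cross_dichotomy`.  The kernel `e` is unique in `C`, hence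
invariant under every additive automorphism `φ` of `V` preserving `C` (also `φ⁻¹` preserves `C` by
`Pres.symm`), hence `e` is constant (`= β`) off `0`, `e 0 = α`.  If `α = β` then every `f ∈ C` is
constant, `finrank ≤ 1`.  If `α ≠ β` then `e - e(· + b) = (α - β)(δ_0 - δ_{-b})`, and translations
give all differences of point masses.
-/

set_option autoImplicit false
open Classical

namespace Pltc

open P61e83e

lemma kernel_general {F V : Type*} [Field F] [AddCommGroup V] [Fintype V]
    (hcard : ((Fintype.card V : ℕ) : F) ≠ 0) (C : Submodule F (V → F))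
    (htr : ∀ f ∈ C, ∀ b : V, (fun x => f (x + b)) ∈ C) :
    ∃ e ∈ C, (∀ f ∈ C, ∀ x, f x = ∑ y, f y * e (x - y)) ∧
      ∀ e' ∈ C, (∀ f ∈ C, ∀ x, f x = ∑ y, f y * e' (x - y)) → e' = e := by
  have hex : ∃ e ∈ C, ∀ f ∈ C, ∀ x, f x = ∑ y, f y * e (x - y) := by
    obtain ⟨π0, hπ0⟩ := LinearMap.exists_leftInverse_of_injective C.subtype
      (LinearMap.ker_eq_bot.mpr C.injective_subtype)
    have hπ1 : ∀ f (hf : f ∈ C), ((π0 f : C) : V → F) = f := by
      intro f hf
      have := LinearMap.congr_fun hπ0 ⟨f, hf⟩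
      simpa using congrArg Subtype.val this
    -- the averaged projection
    let π : (V → F) → V → F := fun f x =>
      ((Fintype.card V : ℕ) : F)⁻¹ * ∑ b, ((π0 (fun z => f (z + b)) : C) : V → F) (x - b)
    have hπmem : ∀ f, π f ∈ C := by
      intro f
      have h1 : π f = ((Fintype.card V : ℕ) : F)⁻¹ •
          ∑ b, (fun x => ((π0 (fun z => f (z + b)) : C) : V → F) (x - b)) := by
        ext x
        simp [π, Finset.sum_apply]
      rw [h1]
      refine C.smul_mem _ (C.sum_mem fun b _ => ?_)
      have := htr _ (π0 (fun z => f (z + b))).2 (-b)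
      simpa [sub_eq_add_neg] using this
    have hπC : ∀ f ∈ C, π f = f := by
      intro f hf
      ext x
      have h1 : ∀ b, ((π0 (fun z => f (z + b)) : C) : V → F) (x - b) = f x := by
        intro b
        have h0 := hπ1 (fun z => f (z + b)) (htr f hf b)
        rw [h0]
        simp
      simp only [π, h1]
      rw [Finset.sum_const, Finset.card_univ, nsmul_eq_mul]
      field_simp
    refine ⟨π (Pi.single 0 1), hπmem _, fun f hf x => ?_⟩
    conv_lhs => rw [← hπC f hf]
    -- expand `f` in the point masses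
    have h2 : ∀ b, π0 (fun z => f (z + b)) =
        ∑ y, f y • π0 (fun z => (Pi.single y 1 : V → F) (z + b)) := by
      intro b
      have e0 : (fun z => f (z + b)) = ∑ y, f y • (fun z => (Pi.single y 1 : V → F) (z + b)) := by
        funext z
        simp [Finset.sum_apply, Pi.single_apply]
      rw [e0, map_sum]
      simp_rw [map_smul]
    simp only [π, h2]
    simp only [Submodule.coe_sum, Submodule.coe_smul, Finset.sum_apply, Pi.smul_apply, smul_eq_mul]
    rw [Finset.sum_comm]
    rw [Finset.mul_sum]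
    refine Finset.sum_congr rfl fun y _ => ?_
    rw [← Finset.mul_sum]
    have h3 : ∑ b, ((π0 (fun z => (Pi.single y 1 : V → F) (z + b)) : C) : V → F) (x - b) =
        ∑ b, ((π0 (fun z => (Pi.single 0 1 : V → F) (z + b)) : C) : V → F) (x - y - b) := by
      rw [← Equiv.sum_comp (Equiv.addRight y)]
      refine Finset.sum_congr rfl fun b _ => ?_
      have e1 : (fun z => (Pi.single y 1 : V → F) (z + (Equiv.addRight y) b)) =
          fun z => (Pi.single 0 1 : V → F) (z + b) := by
        funext z
        simp only [Equiv.coe_addRight, Pi.single_apply]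
        congr 1
        rw [← add_assoc]
        simp
      rw [e1]
      simp only [Equiv.coe_addRight]
      have e2 : x - (b + y) = x - y - b := by abel
      rw [e2]
    rw [h3]
    ring
  obtain ⟨e, heC, he⟩ := hex
  refine ⟨e, heC, he, fun e' he'C he' => ?_⟩
  funext x
  rw [he e' he'C x, he' e heC x, ← Equiv.sum_comp (Equiv.subLeft x)]
  refine Finset.sum_congr rfl fun y _ => ?_
  simp only [Equiv.subLeft_apply, sub_sub_cancel]
  ring

/-- the kernel is invariant under additive automorphisms preserving the code -/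
lemma kernel_inv {F V : Type*} [Field F] [AddCommGroup V] [Fintype V]
    (C : Submodule F (V → F)) (e : V → F) (he : e ∈ C)
    (h1 : ∀ f ∈ C, ∀ x, f x = ∑ y, f y * e (x - y))
    (h2 : ∀ e' ∈ C, (∀ f ∈ C, ∀ x, f x = ∑ y, f y * e' (x - y)) → e' = e)
    (φ : V ≃+ V) (hφ : ∀ f ∈ C, (fun z => f (φ z)) ∈ C) : ∀ x, e (φ x) = e x := by
  intro x
  have hP : Pres C (φ.toEquiv : Equiv.Perm V) := hφ
  have h3 : (fun z => e (φ z)) = e := by
    refine h2 _ (hφ e he) fun f hf x => ?_
    have h4 := h1 _ (hP.symm f hf) (φ x)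
    have h5 : ∀ z, (φ.toEquiv : Equiv.Perm V).symm (φ z) = z := fun z => φ.symm_apply_apply z
    simp only [h5] at h4
    rw [h4, ← Equiv.sum_comp φ.toEquiv]
    refine Finset.sum_congr rfl fun y _ => ?_
    have h6 : (φ.toEquiv : Equiv.Perm V).symm ((φ.toEquiv : V ≃ V) y) = y := φ.symm_apply_apply y
    rw [h6]
    have h7 : φ x - (φ.toEquiv : V ≃ V) y = φ (x - y) := (map_sub φ x y).symm
    rw [h7]
  exact congrFun h3 x

lemma finrank_le_one_of_const {F V : Type*} [Field F] [Fintype V] (C : Submodule F (V → F))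
    (h : ∀ f ∈ C, ∃ c : F, ∀ x, f x = c) : Module.finrank F C ≤ 1 := by
  have hsub : C ≤ Submodule.span F {fun _ => (1 : F)} := by
    intro f hf
    rw [Submodule.mem_span_singleton]
    obtain ⟨c, hc⟩ := h f hf
    refine ⟨c, ?_⟩
    funext x
    simp [hc x]
  calc Module.finrank F C ≤ Module.finrank F (Submodule.span F {fun _ : V => (1 : F)}) :=
        Submodule.finrank_mono hsub
    _ ≤ 1 := by
      have := finrank_span_le_card (R := F) ({fun _ : V => (1 : F)} : Set (V → F))
      simpa using this

lemma cross_general {F V : Type*} [Field F] [AddCommGroup V] [Fintype V]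
    (hcard : ((Fintype.card V : ℕ) : F) ≠ 0) (C : Submodule F (V → F))
    (htr : ∀ f ∈ C, ∀ b : V, (fun x => f (x + b)) ∈ C)
    (hG : ∀ x y : V, x ≠ 0 → y ≠ 0 → ∃ φ : V ≃+ V, φ x = y ∧ ∀ f ∈ C, (fun z => f (φ z)) ∈ C) :
    (∀ x y : V, (Pi.single x 1 - Pi.single y 1 : V → F) ∈ C) ∨ Module.finrank F C ≤ 1 := by
  obtain ⟨e, heC, he, huniq⟩ := kernel_general hcard C htr
  have hconst : ∀ x y : V, x ≠ 0 → y ≠ 0 → e x = e y := by
    intro x y hx hy
    obtain ⟨φ, hφ, hφC⟩ := hG x y hx hy
    have h1 := kernel_inv C e heC he huniq φ hφC x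
    rw [hφ] at h1
    exact h1.symm
  by_cases hα : ∃ b : V, b ≠ 0 ∧ e b ≠ e 0
  · left
    obtain ⟨b, hb, hbe⟩ := hα
    have hval : ∀ x : V, x ≠ 0 → e x = e b := fun x hx => hconst x b hx hb
    have hd : e 0 - e b ≠ 0 := sub_ne_zero.2 (Ne.symm hbe)
    intro x y
    by_cases hxy : x = y
    · subst hxy
      rw [sub_self]
      exact C.zero_mem
    · have h1 : (fun z => e (z - x)) ∈ C := by
        have := htr e heC (-x)
        simpa [sub_eq_add_neg] using this
      have h2 : (fun z => e (z - y)) ∈ C := by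
        have := htr e heC (-y)
        simpa [sub_eq_add_neg] using this
      have h3 := C.smul_mem (e 0 - e b)⁻¹ (C.sub_mem h1 h2)
      have h4 : (e 0 - e b)⁻¹ • ((fun z => e (z - x)) - fun z => e (z - y)) =
          (Pi.single x 1 - Pi.single y 1 : V → F) := by
        funext z
        simp only [Pi.smul_apply, Pi.sub_apply, smul_eq_mul, Pi.single_apply]
        by_cases hzx : z = x
        · subst hzx
          have h5 : z - y ≠ 0 := sub_ne_zero.2 hxy
          rw [sub_self, hval _ h5, if_pos rfl, if_neg hxy, sub_zero, inv_mul_cancel₀ hd]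
        · by_cases hzy : z = y
          · subst hzy
            have h5 : z - x ≠ 0 := sub_ne_zero.2 hzx
            rw [sub_self, hval _ h5, if_pos rfl, if_neg hzx, zero_sub]
            have : e b - e 0 = -(e 0 - e b) := by ring
            rw [this, mul_neg, inv_mul_cancel₀ hd]
          · have h5 : z - x ≠ 0 := sub_ne_zero.2 hzx
            have h6 : z - y ≠ 0 := sub_ne_zero.2 hzy
            rw [hval _ h5, hval _ h6, if_neg hzx, if_neg hzy, sub_self, mul_zero, sub_zero]
      rw [h4] at h3
      exact h3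
  · right
    push Not at hα
    refine finrank_le_one_of_const C fun f hf => ⟨(∑ y, f y) * e 0, fun x => ?_⟩
    rw [he f hf x, Finset.sum_mul]
    refine Finset.sum_congr rfl fun y _ => ?_
    by_cases h : x - y = 0
    · rw [h]
    · rw [hα _ h]

/-- shears in the first coordinate -/
def shearE {K L : Type*} [Field K] [Field L] [Algebra K L] (l : L →ₗ[K] K) : K × L ≃+ K × L where
  toFun z := (z.1 + l z.2, z.2)
  invFun z := (z.1 - l z.2, z.2)
  left_inv z := by simp
  right_inv z := by simp
  map_add' z w := by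
    ext
    · simp only [Prod.fst_add, Prod.snd_add, map_add]; ring
    · simp

/-- shears in the second coordinate -/
def shearE' {K L : Type*} [Field K] [Field L] [Algebra K L] (b : L) : K × L ≃+ K × L where
  toFun z := (z.1, z.2 + z.1 • b)
  invFun z := (z.1, z.2 - z.1 • b)
  left_inv z := by simp
  right_inv z := by simp
  map_add' z w := by
    ext
    · simp
    · simp only [Prod.fst_add, Prod.snd_add, add_smul]; abel

/-- dilations -/
def dilE {K L : Type*} [Field K] [Field L] {c : K} {a : L} (hc : c ≠ 0) (ha : a ≠ 0) :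
    K × L ≃+ K × L where
  toFun z := (c * z.1, a * z.2)
  invFun z := (c⁻¹ * z.1, a⁻¹ * z.2)
  left_inv z := by ext <;> simp [hc, ha]
  right_inv z := by ext <;> simp [hc, ha]
  map_add' z w := by ext <;> simp [mul_add]

/-- Cross characteristic case of the bound for codes with the symmetries `SInv`: the group is
transitive on `K × L - 0`.  (`(x, y)` with `y ≠ 0` goes to `(0, y)` by a shear, to `(0, 1)` by `dil`;
`(x, 0)` with `x ≠ 0` goes to `(x, x • 1)` by `shear'`.  If all differences of point masses are in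
`C`, a dual word is constant, so has weight `0` or `|K × L| > q`.) -/
lemma sinv_cross {F K L : Type*} [Field F] [Field K] [Field L] [Fintype K] [Fintype L]
    [Algebra K L] (hcard : ((Fintype.card (K × L) : ℕ) : F) ≠ 0) (C : Submodule F (K × L → F))
    (h : SInv C) (u : K × L → F) (hu0 : u ≠ 0) (hu : Dual C u)
    (hq : wt u < Fintype.card (K × L)) : Module.finrank F C ≤ 1 := by
  have htr : ∀ f ∈ C, ∀ b : K × L, (fun x => f (x + b)) ∈ C := fun f hf b => h.trans f hf b.1 b.2
  -- everything can be moved to `(0, 1)`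
  have hmove1 : ∀ z : K × L, z.2 ≠ 0 → ∃ φ : K × L ≃+ K × L, φ z = (0, 1) ∧
      ∀ f ∈ C, (fun w => f (φ w)) ∈ C := by
    intro z hz
    obtain ⟨l0, hl0⟩ : ∃ l : Module.Dual K L, l z.2 ≠ 0 := by
      by_contra hcon
      push Not at hcon
      exact hz ((Module.forall_dual_apply_eq_zero_iff K z.2).1 hcon)
    set l : L →ₗ[K] K := (-z.1 / l0 z.2) • l0 with hl
    have hlz : l z.2 = -z.1 := by
      rw [hl, LinearMap.smul_apply, smul_eq_mul, div_mul_cancel₀ _ hl0]
    obtain ⟨c, hc, hcC⟩ := h.dil (z.2)⁻¹ (inv_ne_zero hz)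
    refine ⟨(shearE l).trans (dilE hc (inv_ne_zero hz)), ?_, fun f hf => ?_⟩
    · change (c * (z.1 + l z.2), (z.2)⁻¹ * z.2) = ((0 : K), (1 : L))
      rw [hlz, add_neg_cancel, mul_zero, inv_mul_cancel₀ hz]
    · exact h.shear _ (hcC f hf) l
  have hmove : ∀ z : K × L, z ≠ 0 → ∃ φ : K × L ≃+ K × L, φ z = (0, 1) ∧
      ∀ f ∈ C, (fun w => f (φ w)) ∈ C := by
    intro z hz
    by_cases hz2 : z.2 = 0
    · have hz1 : z.1 ≠ 0 := fun h1 => hz (Prod.ext h1 hz2)
      obtain ⟨φ, hφ, hφC⟩ := hmove1 ((shearE' (1 : L)) z) (by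
        change z.2 + z.1 • (1 : L) ≠ 0
        rw [hz2, zero_add]
        exact smul_ne_zero hz1 one_ne_zero)
      exact ⟨(shearE' (1 : L)).trans φ, hφ, fun f hf => h.shear' _ (hφC f hf) 1⟩
    · exact hmove1 z hz2
  have hG : ∀ x y : K × L, x ≠ 0 → y ≠ 0 → ∃ φ : K × L ≃+ K × L, φ x = y ∧
      ∀ f ∈ C, (fun z => f (φ z)) ∈ C := by
    intro x y hx hy
    obtain ⟨φ, hφ, hφC⟩ := hmove x hx
    obtain ⟨ψ, hψ, hψC⟩ := hmove y hy
    have hP : Pres C (ψ.toEquiv : Equiv.Perm (K × L)) := hψC
    refine ⟨φ.trans ψ.symm, ?_, fun f hf => ?_⟩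
    · change ψ.symm (φ x) = y
      rw [hφ, ← hψ]
      exact ψ.symm_apply_apply y
    · exact hφC _ (hP.symm f hf)
  rcases cross_general hcard C htr hG with h1 | h1
  · exfalso
    have hconst : ∀ x y, u x = u y := by
      intro x y
      have h2 := hu _ (h1 x y)
      simp only [Pi.sub_apply, mul_sub, Finset.sum_sub_distrib, Pi.single_apply, mul_ite, mul_one,
        mul_zero, Finset.sum_ite_eq', Finset.mem_univ, if_true] at h2
      exact sub_eq_zero.1 h2
    obtain ⟨x0, hx0⟩ : ∃ x, u x ≠ 0 := by
      by_contra hcon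
      push Not at hcon
      exact hu0 (funext hcon)
    have h3 : wt u = Fintype.card (K × L) := by
      unfold wt
      rw [Finset.filter_true_of_mem fun x _ => by rw [hconst x x0]; exact hx0, Finset.card_univ]
    omega
  · exact h1

end Pltc
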