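import Mathlib

/-!
Module Pltc.ConstMem.

Proof: for `b : V` let `Δ_b g = g (· + b) - g`; these operators map `M` to `M`, commute, and
`Δ_b ^ p = 0` (as `T_b ^ p = 1` and `(T_b - 1) ^ p = T_b ^ p - 1` in characteristic `p`; the ring is
`Module.End Ω (V → Ω)`, of characteristic `p`; use `Commute.sub_pow_char` or `sub_pow_char` style
lemmas).  Claim, by induction on a finset `S` of `V`: there is `g ∈ M`, `g ≠ 0`, with `Δ_b g = 0` for
all `b ∈ S`: apply `Δ_b` as long as the result is nonzero (`Nat.find`).  For `S = univ` the function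
`g` is a nonzero constant; rescale.
-/

set_option autoImplicit false
open Classical

namespace Pltc

/-- Translation operator. -/
noncomputable def cmT (Ω : Type*) {V : Type*} [Field Ω] [AddCommGroup V] (b : V) :
    Module.End Ω (V → Ω) := LinearMap.funLeft Ω Ω (fun x => x + b)

lemma cmT_apply {Ω V : Type*} [Field Ω] [AddCommGroup V] (b : V) (g : V → Ω) (x : V) :
    cmT Ω b g x = g (x + b) := rfl

lemma cmT_pow {Ω V : Type*} [Field Ω] [AddCommGroup V] (b : V) (n : ℕ) (g : V → Ω) (x : V) :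
    ((cmT Ω b) ^ n) g x = g (x + n • b) := by
  induction n generalizing g x with
  | zero => simp
  | succ n ih =>
    rw [pow_succ, Module.End.mul_apply, ih, cmT_apply, add_assoc, succ_nsmul]

lemma cmT_comm {Ω V : Type*} [Field Ω] [AddCommGroup V] (b c : V) :
    Commute (cmT Ω b) (cmT Ω c) := by
  ext g x
  simp only [Module.End.mul_apply, cmT_apply]
  congr 1
  exact add_right_comm _ _ _

lemma cmT_sub_pow {Ω V : Type*} [Field Ω] [AddCommGroup V] (p : ℕ) [Fact p.Prime]
    [CharP Ω p] (hV : ∀ x : V, p • x = 0) (b : V) : (cmT Ω b - 1) ^ p = 0 := by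
  have hch : CharP (Module.End Ω (V → Ω)) p :=
    charP_of_injective_algebraMap (algebraMap Ω (Module.End Ω (V → Ω))).injective p
  rw [sub_pow_char_of_commute _ (Commute.one_right _), one_pow, sub_eq_zero]
  ext g x
  have := cmT_pow (Ω := Ω) b p
  simp only [Module.End.one_apply]
  rw [this, hV, add_zero]

lemma const_mem {Ω V : Type*} [Field Ω] [AddCommGroup V] [Finite V] (p : ℕ) [Fact p.Prime]
    [CharP Ω p] (hV : ∀ x : V, p • x = 0) (M : Submodule Ω (V → Ω))
    (htr : ∀ g ∈ M, ∀ b : V, (fun x => g (x + b)) ∈ M) (hM : M ≠ ⊥) :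
    (fun _ => (1 : Ω)) ∈ M := by
  have hT : ∀ b : V, ∀ g ∈ M, cmT Ω b g ∈ M := fun b g hg => htr g hg b
  have hD : ∀ b : V, ∀ k : ℕ, ∀ g ∈ M, ((cmT Ω b - 1) ^ k) g ∈ M := by
    intro b k
    induction k with
    | zero => intro g hg; simpa using hg
    | succ k ih =>
      intro g hg
      rw [pow_succ, Module.End.mul_apply]
      apply ih
      rw [LinearMap.sub_apply, Module.End.one_apply]
      exact M.sub_mem (hT b g hg) hg
  have key : ∀ S : Finset V, ∃ g ∈ M, g ≠ 0 ∧ ∀ b ∈ S, cmT Ω b g = g := by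
    intro S
    induction S using Finset.induction_on with
    | empty =>
      obtain ⟨g, hg, hg0⟩ := M.exists_mem_ne_zero_of_ne_bot hM
      exact ⟨g, hg, hg0, fun b hb => absurd hb (Finset.notMem_empty b)⟩
    | insert b S _ ih =>
      obtain ⟨g, hg, hg0, hS⟩ := ih
      have hex : ∃ k : ℕ, ((cmT Ω b - 1) ^ k) g = 0 := by
        refine ⟨p, ?_⟩
        rw [cmT_sub_pow p hV b, LinearMap.zero_apply]
      have h1 := Nat.find_spec hex
      have h0 : Nat.find hex ≠ 0 := by
        intro h
        rw [h, pow_zero, Module.End.one_apply] at h1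
        exact hg0 h1
      obtain ⟨k, hk⟩ := Nat.exists_eq_succ_of_ne_zero h0
      have h2 : ((cmT Ω b - 1) ^ k) g ≠ 0 := Nat.find_min hex (by omega)
      refine ⟨((cmT Ω b - 1) ^ k) g, hD b k g hg, h2, fun c hc => ?_⟩
      rcases Finset.mem_insert.mp hc with rfl | hcS
      · rw [hk, Nat.succ_eq_add_one, pow_succ', Module.End.mul_apply, LinearMap.sub_apply,
          Module.End.one_apply, sub_eq_zero] at h1
        exact h1
      · have h3 : Commute (cmT Ω c) ((cmT Ω b - 1) ^ k) :=
          ((cmT_comm c b).sub_right (Commute.one_right _)).pow_right k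
        calc cmT Ω c (((cmT Ω b - 1) ^ k) g) = (cmT Ω c * (cmT Ω b - 1) ^ k) g := rfl
          _ = ((cmT Ω b - 1) ^ k * cmT Ω c) g := by rw [h3.eq]
          _ = ((cmT Ω b - 1) ^ k) (cmT Ω c g) := rfl
          _ = ((cmT Ω b - 1) ^ k) g := by rw [hS c hcS]
  have := Fintype.ofFinite V
  obtain ⟨g, hg, hg0, hS⟩ := key Finset.univ
  have hc : ∀ x, g x = g 0 := by
    intro x
    have h1 := congrFun (hS x (Finset.mem_univ x)) 0
    rw [cmT_apply, zero_add] at h1
    exact h1
  have h00 : g 0 ≠ 0 := by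
    intro h
    apply hg0
    funext x
    rw [hc x, h]
    rfl
  have h2 := M.smul_mem ((g 0)⁻¹) hg
  have h3 : (g 0)⁻¹ • g = fun _ => (1 : Ω) := by
    funext x
    rw [Pi.smul_apply, hc x, smul_eq_mul, inv_mul_cancel₀ h00]
  rwa [h3] at h2

end Pltc
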