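import Mathlib

/-!
Module Pltc.LeadCount.

Proof: induction on `N` for the subspaces `P_n = {f ∈ P | natDegree f < n}` (write it as
`P ⊓ {f | ∀ i ≥ n, f.coeff i = 0}`): the linear map `f ↦ f.coeff n` from `P_{n+1}` to `R` has kernel
`P_n` and range inside `W` (and is zero unless `n ∈ E`), so
`finrank P_{n+1} ≤ finrank P_n + (if n ∈ E then finrank W else 0)`.  Finite dimensionality of all
these spaces comes out of the same induction (prove it together).
-/

set_option autoImplicit false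
open Polynomial Classical

namespace Pltc

/-- The part of `P` of degree less than `n`. -/
noncomputable def cutDeg {Ω R : Type*} [Field Ω] [CommRing R] [Algebra Ω R]
    (P : Submodule Ω R[X]) (n : ℕ) : Submodule Ω R[X] :=
  P ⊓ (degreeLT R n).restrictScalars Ω

lemma mem_cutDeg {Ω R : Type*} [Field Ω] [CommRing R] [Algebra Ω R]
    (P : Submodule Ω R[X]) (n : ℕ) (f : R[X]) :
    f ∈ cutDeg P n ↔ f ∈ P ∧ ∀ m, n ≤ m → f.coeff m = 0 := by
  rw [cutDeg, Submodule.mem_inf, Submodule.restrictScalars_mem, mem_degreeLT,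
    degree_lt_iff_coeff_zero]

/-- The coefficient map. -/
noncomputable def cfm (Ω : Type*) {R : Type*} [Field Ω] [CommRing R] [Algebra Ω R] (n : ℕ) :
    R[X] →ₗ[Ω] R := (lcoeff R n).restrictScalars Ω

lemma cfm_apply {Ω R : Type*} [Field Ω] [CommRing R] [Algebra Ω R] (n : ℕ) (f : R[X]) :
    cfm Ω n f = f.coeff n := by
  rw [cfm, LinearMap.restrictScalars_apply, lcoeff_apply]

lemma cutDeg_zero {Ω R : Type*} [Field Ω] [CommRing R] [Algebra Ω R]
    (P : Submodule Ω R[X]) : cutDeg P 0 = ⊥ := by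
  rw [eq_bot_iff]
  intro f hf
  rw [mem_cutDeg] at hf
  rw [Submodule.mem_bot]
  ext m
  rw [hf.2 m (Nat.zero_le m), coeff_zero]

lemma cutDeg_inf_ker {Ω R : Type*} [Field Ω] [CommRing R] [Algebra Ω R]
    (P : Submodule Ω R[X]) (n : ℕ) :
    cutDeg P (n + 1) ⊓ LinearMap.ker (cfm Ω n) = cutDeg P n := by
  ext f
  rw [Submodule.mem_inf, LinearMap.mem_ker, cfm_apply, mem_cutDeg, mem_cutDeg]
  constructor
  · rintro ⟨⟨h1, h2⟩, h3⟩
    refine ⟨h1, ?_⟩
    intro m hm
    rcases Nat.lt_or_ge n m with h4 | h4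
    · exact h2 m h4
    · have : m = n := le_antisymm h4 hm
      rw [this]; exact h3
  · rintro ⟨h1, h2⟩
    exact ⟨⟨h1, fun m hm => h2 m (by omega)⟩, h2 n le_rfl⟩

lemma cutDeg_key {Ω R : Type*} [Field Ω] [CommRing R] [Algebra Ω R] (P : Submodule Ω R[X])
    (E : Finset ℕ) (W : Submodule Ω R)
    (h : ∀ f ∈ P, f ≠ 0 → f.natDegree ∈ E ∧ f.leadingCoeff ∈ W) (n : ℕ) (f : R[X])
    (hf : f ∈ cutDeg P (n + 1)) (hc : f.coeff n ≠ 0) : n ∈ E ∧ f.coeff n ∈ W := by
  rw [mem_cutDeg] at hf
  have hne : f ≠ 0 := by rintro rfl; simp at hc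
  have hd : f.natDegree = n := by
    apply le_antisymm
    · rw [natDegree_le_iff_coeff_eq_zero]
      intro m hm
      exact hf.2 m hm
    · exact le_natDegree_of_ne_zero hc
  have h3 := h f hf.1 hne
  rw [leadingCoeff, hd] at h3
  exact h3

lemma finrank_le_of_map {Ω V R : Type*} [Field Ω] [AddCommGroup V] [Module Ω V] [AddCommGroup R]
    [Module Ω R] (Q Q' : Submodule Ω V) (φ : V →ₗ[Ω] R) (hker : Q ⊓ LinearMap.ker φ = Q')
    (W : Submodule Ω R) [FiniteDimensional Ω W] (hmap : Q.map φ ≤ W)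
    (hQ' : FiniteDimensional Ω Q') :
    FiniteDimensional Ω Q ∧ Module.finrank Ω Q ≤ Module.finrank Ω Q' + Module.finrank Ω W := by
  have hmf : FiniteDimensional Ω (Q.map φ) := Submodule.finiteDimensional_of_le hmap
  have hQfg : Q.FG := by
    apply Submodule.fg_of_fg_map_of_fg_inf_ker φ
    · exact (Submodule.fg_iff_finiteDimensional _).mpr hmf
    · rw [hker]; exact (Submodule.fg_iff_finiteDimensional _).mpr hQ'
  have hQf : FiniteDimensional Ω Q := (Submodule.fg_iff_finiteDimensional _).mp hQfg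
  refine ⟨hQf, ?_⟩
  have hrk := LinearMap.finrank_range_add_finrank_ker (φ.domRestrict Q)
  have hk : Module.finrank Ω (LinearMap.ker (φ.domRestrict Q)) ≤ Module.finrank Ω Q' := by
    have hmem : ∀ a : LinearMap.ker (φ.domRestrict Q),
        (Q.subtype ∘ₗ (LinearMap.ker (φ.domRestrict Q)).subtype) a ∈ Q' := by
      rintro ⟨⟨f, hf⟩, hf2⟩
      rw [← hker, Submodule.mem_inf]
      refine ⟨hf, ?_⟩
      rw [LinearMap.mem_ker, LinearMap.domRestrict_apply] at hf2
      exact LinearMap.mem_ker.mpr hf2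
    apply LinearMap.finrank_le_finrank_of_injective
      (f := LinearMap.codRestrict Q' (Q.subtype ∘ₗ (LinearMap.ker (φ.domRestrict Q)).subtype) hmem)
    intro a b hab
    have := congrArg Subtype.val hab
    apply Subtype.ext
    apply Subtype.ext
    exact this
  have hr : Module.finrank Ω (LinearMap.range (φ.domRestrict Q)) ≤ Module.finrank Ω W := by
    apply Submodule.finrank_mono
    rintro _ ⟨f, rfl⟩
    exact hmap ⟨f.1, f.2, rfl⟩
  omega

lemma card_filter_succ_of_mem (E : Finset ℕ) (n : ℕ) (hn : n ∈ E) :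
    (E.filter (· < n + 1)).card = (E.filter (· < n)).card + 1 := by
  have : E.filter (· < n + 1) = insert n (E.filter (· < n)) := by
    ext m
    simp only [Finset.mem_filter, Finset.mem_insert]
    constructor
    · rintro ⟨h1, h2⟩
      rcases Nat.lt_or_ge m n with h3 | h3
      · exact Or.inr ⟨h1, h3⟩
      · left; omega
    · rintro (h1 | ⟨h1, h2⟩)
      · subst h1; exact ⟨hn, Nat.lt_succ_self _⟩
      · exact ⟨h1, by omega⟩
  rw [this, Finset.card_insert_of_notMem (by simp)]

lemma cut_step {Ω R : Type*} [Field Ω] [CommRing R] [Algebra Ω R] (P : Submodule Ω R[X])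
    (E : Finset ℕ) (W : Submodule Ω R) [FiniteDimensional Ω W]
    (h : ∀ f ∈ P, f ≠ 0 → f.natDegree ∈ E ∧ f.leadingCoeff ∈ W) (n : ℕ) :
    FiniteDimensional Ω (cutDeg P n) ∧
      Module.finrank Ω (cutDeg P n) ≤ (E.filter (· < n)).card * Module.finrank Ω W := by
  induction n with
  | zero =>
    rw [cutDeg_zero]
    exact ⟨inferInstance, by simp⟩
  | succ n ih =>
    obtain ⟨ihf, ihr⟩ := ih
    by_cases hn : n ∈ E
    · have hmap : (cutDeg P (n + 1)).map (cfm Ω n) ≤ W := by
        rintro _ ⟨f, hf, rfl⟩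
        rw [cfm_apply]
        by_cases hc : f.coeff n = 0
        · rw [hc]; exact W.zero_mem
        · exact (cutDeg_key P E W h n f hf hc).2
      obtain ⟨h1, h2⟩ := finrank_le_of_map (cutDeg P (n + 1)) (cutDeg P n) (cfm Ω n)
        (cutDeg_inf_ker P n) W hmap ihf
      refine ⟨h1, ?_⟩
      rw [card_filter_succ_of_mem E n hn, add_mul, one_mul]
      omega
    · have hmap : (cutDeg P (n + 1)).map (cfm Ω n) ≤ (⊥ : Submodule Ω R) := by
        rintro _ ⟨f, hf, rfl⟩
        rw [cfm_apply, Submodule.mem_bot]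
        by_contra hc
        exact hn (cutDeg_key P E W h n f hf hc).1
      obtain ⟨h1, h2⟩ := finrank_le_of_map (cutDeg P (n + 1)) (cutDeg P n) (cfm Ω n)
        (cutDeg_inf_ker P n) (⊥ : Submodule Ω R) hmap ihf
      refine ⟨h1, ?_⟩
      rw [finrank_bot, add_zero] at h2
      have hcard : (E.filter (· < n)).card ≤ (E.filter (· < n + 1)).card := by
        apply Finset.card_le_card
        intro m hm
        rw [Finset.mem_filter] at hm ⊢
        exact ⟨hm.1, by omega⟩
      have h4 := Nat.mul_le_mul_right (Module.finrank Ω W) hcard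
      have h5 := le_trans h2 ihr
      exact le_trans h5 h4

lemma finrank_le_lead {Ω R : Type*} [Field Ω] [CommRing R] [Algebra Ω R] (P : Submodule Ω R[X])
    (N : ℕ) (hdeg : ∀ f ∈ P, f.natDegree < N) (E : Finset ℕ) (W : Submodule Ω R)
    [FiniteDimensional Ω W]
    (h : ∀ f ∈ P, f ≠ 0 → f.natDegree ∈ E ∧ f.leadingCoeff ∈ W) :
    Module.finrank Ω P ≤ E.card * Module.finrank Ω W := by
  have hP : cutDeg P N = P := by
    ext f
    rw [mem_cutDeg]
    refine ⟨fun h => h.1, fun hf => ⟨hf, ?_⟩⟩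
    intro m hm
    exact coeff_eq_zero_of_natDegree_lt (lt_of_lt_of_le (hdeg f hf) hm)
  have h1 := (cut_step P E W h N).2
  rw [hP] at h1
  exact h1.trans (Nat.mul_le_mul_right _ (Finset.card_le_card (Finset.filter_subset _ _)))

end Pltc
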