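import Mathlib
import Pool.Agent.Lib.P61e83e.Poly

/-!
Module Pltc.PowHasse.

Proof: as `P61e83e.hasse_mem` (file Lib/P61e83e/Poly.lean).  For `t : K`, with `r = τ t • ρ`,
`f.comp (X + C r) = ∑_{e < card K} r ^ e • hasseDeriv e f` (`P61e83e.comp_eq_sum` is stated for a
field; the same proof works over a commutative ring), and `r ^ e • g = (τ t) ^ e • (ρ ^ e • g)`.  If
`ρ ^ k • hasseDeriv k f ∉ P`, take an `Ω`-linear functional `ψ` vanishing on `P` and not at this
element; `g = ∑_{i < card K} C (ψ (ρ ^ i • hasseDeriv i f)) * X ^ i : Ω[X]` vanishes at all `τ t`, has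
degree `< card K`, so is `0`: contradiction at coefficient `k` (for `k ≥ card K` the Hasse derivative
is zero).
-/

set_option autoImplicit false
open Polynomial Classical

namespace Pltc

lemma powHasse_comp_eq_sum {R : Type*} [CommRing R] (f : R[X]) (b : R) (n : ℕ)
    (hn : f.natDegree < n) :
    f.comp (X + C b) = ∑ e ∈ Finset.range n, b ^ e • hasseDeriv e f := by
  ext k
  rw [← taylor_apply, taylor_coeff, finsetSum_coeff]
  rw [eval_eq_sum_range' (n := n)]
  · refine Finset.sum_congr rfl fun e _ => ?_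
    rw [coeff_smul, hasseDeriv_coeff, hasseDeriv_coeff, smul_eq_mul, add_comm k e,
      Nat.choose_symm_add]
    ring
  · have := natDegree_hasseDeriv_le f k
    omega

lemma pow_hasse_mem {K Ω R : Type*} [Field K] [Fintype K] [Field Ω] [CommRing R] [Algebra Ω R]
    (τ : K →+* Ω) (P : Submodule Ω R[X]) (hdeg : ∀ f ∈ P, f.natDegree < Fintype.card K) (ρ : R)
    (htr : ∀ f ∈ P, ∀ t : K, f.comp (X + C (τ t • ρ)) ∈ P) (f : R[X]) (hf : f ∈ P) (k : ℕ) :
    ρ ^ k • hasseDeriv k f ∈ P := by
  by_cases he : Fintype.card K ≤ k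
  · rw [hasseDeriv_eq_zero_of_lt_natDegree _ _ (lt_of_lt_of_le (hdeg f hf) he), smul_zero]
    exact P.zero_mem
  push Not at he
  by_contra hcon
  obtain ⟨ψ, hψ, hψP⟩ := Submodule.exists_dual_map_eq_bot_of_notMem hcon inferInstance
  have hz : ∀ g ∈ P, ψ g = 0 := by
    intro g hg
    have : ψ g ∈ P.map ψ := Submodule.mem_map_of_mem hg
    rw [hψP] at this
    exact this
  let g : Polynomial Ω := ∑ i ∈ Finset.range (Fintype.card K), C (ψ (ρ ^ i • hasseDeriv i f)) * X ^ i
  have hgdeg : g.degree < (Finset.univ : Finset K).card := by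
    rw [Finset.card_univ]
    refine (degree_sum_le _ _).trans_lt ?_
    rw [Finset.sup_lt_iff (WithBot.bot_lt_coe _)]
    intro i hi
    exact (degree_C_mul_X_pow_le _ _).trans_lt (by exact_mod_cast Finset.mem_range.mp hi)
  have hg0 : g = 0 := by
    refine Polynomial.eq_zero_of_degree_lt_of_eval_index_eq_zero (s := Finset.univ) (v := τ)
      (τ.injective.injOn) hgdeg fun b _ => ?_
    have h1 := hz _ (htr f hf b)
    rw [powHasse_comp_eq_sum f (τ b • ρ) _ (hdeg f hf), map_sum] at h1
    rw [eval_finsetSum]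
    rw [← h1]
    refine Finset.sum_congr rfl fun i _ => ?_
    rw [_root_.smul_pow, smul_assoc]
    have h2 : ψ (τ b ^ i • ρ ^ i • hasseDeriv i f) = τ b ^ i * ψ (ρ ^ i • hasseDeriv i f) := by
      rw [LinearMap.map_smul, smul_eq_mul]
    rw [h2, eval_mul, eval_C, eval_pow, eval_X, mul_comm]
  have hc : g.coeff k = ψ (ρ ^ k • hasseDeriv k f) := by
    rw [finsetSum_coeff, Finset.sum_eq_single k]
    · rw [coeff_C_mul_X_pow, if_pos rfl]
    · intro i _ hi
      rw [coeff_C_mul_X_pow, if_neg (Ne.symm hi)]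
    · intro h
      exact absurd (Finset.mem_range.mpr he) h
  rw [hg0, coeff_zero] at hc
  exact hψ hc.symm

end Pltc
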