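import Mathlib
import Pool.Agent.Lib.Pltc.Defs
import Pool.Agent.Lib.Pltc.PowHasse
import Pool.Agent.Lib.Pltc.ConstMem
import Pool.Agent.Lib.Pltc.LeadCount
import Pool.Agent.Lib.P61e83e.Same

/-!
Module Pltc.SameCore: equal characteristic bound for codes with the symmetries `SInv`.
-/

set_option autoImplicit false
open Polynomial Classical

set_option linter.unusedSectionVars false

namespace Pltc

open P61e83e

section generic

variable {F K L : Type*} [Field F] [Field K] [Field L] [Fintype K] [Fintype L] [Algebra K L]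

/-- composing a dual word with a shear -/
lemma dual_shear' {C : Submodule F (K × L → F)} (h : SInv C) {u : K × L → F} (hu : Dual C u)
    (b : L) : Dual C (fun z => u (z.1, z.2 + z.1 • b)) ∧
      wt (fun z : K × L => u (z.1, z.2 + z.1 • b)) = wt u := by
  let σ : (K × L) ≃ (K × L) :=
    { toFun := fun z => (z.1, z.2 + z.1 • b)
      invFun := fun z => (z.1, z.2 - z.1 • b)
      left_inv := fun z => by simp
      right_inv := fun z => by simp }
  constructor
  · intro f hf
    have h1 := hu _ (h.shear' f hf (-b))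
    rw [← Equiv.sum_comp σ] at h1
    rw [← h1]
    refine Finset.sum_congr rfl fun z _ => ?_
    simp [σ]
  · unfold wt
    refine Finset.card_bij (fun z _ => σ z) ?_ ?_ ?_
    · intro z hz
      simpa [σ] using hz
    · intro a _ b' _ hab
      exact σ.injective hab
    · intro z hz
      refine ⟨σ.symm z, ?_, by simp⟩
      simpa [σ] using hz

/-- after a shear a point of the support of a dual word is separated from the others by the second
coordinate -/
lemma exists_sep {C : Submodule F (K × L → F)} (h : SInv C) {u : K × L → F} (hu0 : u ≠ 0)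
    (hu : Dual C u) {q : ℕ} (hq : wt u ≤ q) (hqL : q ≤ Fintype.card L) :
    ∃ v : K × L → F, Dual C v ∧ wt v ≤ q ∧ ∃ z₁, v z₁ ≠ 0 ∧ ∀ z, z ≠ z₁ → v z ≠ 0 → z.2 ≠ z₁.2 := by
  obtain ⟨w, hw⟩ : ∃ w, u w ≠ 0 := by
    by_contra hcon
    push Not at hcon
    exact hu0 (funext hcon)
  let S : Finset (K × L) := (Finset.univ.filter fun x => u x ≠ 0).erase w
  let bad : Finset L := S.image fun z => (z.1 - w.1)⁻¹ • (z.2 - w.2)
  have hwS : w ∈ Finset.univ.filter fun x => u x ≠ 0 := by simp [hw]
  have hScard : S.card < Fintype.card L := by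
    have h1 : S.card = wt u - 1 := Finset.card_erase_of_mem hwS
    have h2 : 0 < wt u := Finset.card_pos.mpr ⟨w, hwS⟩
    omega
  have hbad : bad.card < Fintype.card L := Finset.card_image_le.trans_lt hScard
  obtain ⟨b, hb⟩ : ∃ b, b ∉ bad := by
    by_contra hcon
    push Not at hcon
    have : bad = Finset.univ := Finset.eq_univ_iff_forall.mpr hcon
    rw [this, Finset.card_univ] at hbad
    exact lt_irrefl _ hbad
  refine ⟨fun z => u (z.1, z.2 + z.1 • b), (dual_shear' h hu b).1, ?_, (w.1, w.2 - w.1 • b), ?_, ?_⟩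
  · rw [(dual_shear' h hu b).2]; exact hq
  · simpa using hw
  · intro z hz hzu hz2
    apply hb
    simp only at hz2 hzu
    have hne : (z.1, z.2 + z.1 • b) ≠ w := by
      intro hcon
      apply hz
      rw [← hcon]
      simp
    have hmem : (z.1, z.2 + z.1 • b) ∈ S := by
      simp only [S, Finset.mem_erase, Finset.mem_filter, Finset.mem_univ, true_and]
      exact ⟨hne, hzu⟩
    rw [Finset.mem_image]
    refine ⟨_, hmem, ?_⟩
    simp only
    have h1 : z.2 + z.1 • b - w.2 = (z.1 - w.1) • b := by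
      rw [hz2, sub_smul]
      abel
    rw [h1]
    have h2 : z.1 - w.1 ≠ 0 := by
      intro h3
      apply hne
      have h4 : z.1 = w.1 := sub_eq_zero.mp h3
      rw [h3, zero_smul, sub_eq_zero] at h1
      exact Prod.ext h4 h1
    rw [smul_smul, inv_mul_cancel₀ h2, one_smul]

/-- a linear functional nonzero at few given nonzero vectors -/
lemma exists_functional' (S : Finset L) (hS : ∀ v ∈ S, v ≠ 0) (hcard : S.card < Fintype.card K) :
    ∃ l : L →ₗ[K] K, ∀ v ∈ S, l v ≠ 0 := by
  have h1 : ∀ i : {v // v ∈ S}, LinearMap.ker (Module.Dual.eval K L i.1) ≠ ⊤ := by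
    intro i htop
    apply hS i.1 i.2
    rw [← Module.forall_dual_apply_eq_zero_iff K]
    intro f
    have : f ∈ LinearMap.ker (Module.Dual.eval K L i.1) := by rw [htop]; trivial
    exact this
  have h2 : (S.attach.card : ℕ∞) < ENat.card K := by
    rw [ENat.card_eq_coe_fintype_card, Finset.card_attach]
    exact_mod_cast hcard
  have h3 := Submodule.iUnion_ssubset_of_forall_ne_top_of_card_lt S.attach
    (fun i => LinearMap.ker (Module.Dual.eval K L i.1)) h1 h2
  obtain ⟨l, -, hl⟩ := Set.exists_of_ssubset h3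
  refine ⟨l, fun v hv h0 => hl ?_⟩
  rw [Set.mem_iUnion₂]
  exact ⟨⟨v, hv⟩, Finset.mem_attach _ _, h0⟩

lemma exists_functional (S : Finset L) (hS : ∀ v ∈ S, v ≠ 0) (hcard : S.card < Fintype.card K) :
    ∃ l : L →ₗ[K] K, (∀ v ∈ S, l v ≠ 0) ∧ Function.Surjective l := by
  obtain ⟨l, hl, hl0⟩ : ∃ l : L →ₗ[K] K, (∀ v ∈ S, l v ≠ 0) ∧ ∃ w, l w ≠ 0 := by
    rcases S.eq_empty_or_nonempty with rfl | ⟨v, hv⟩
    · obtain ⟨l, hl⟩ := exists_functional' (K := K) ({1} : Finset L) (by simp)
        (by rw [Finset.card_singleton]; exact Fintype.one_lt_card)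
      exact ⟨l, by simp, 1, hl 1 (by simp)⟩
    · obtain ⟨l, hl⟩ := exists_functional' S hS hcard
      exact ⟨l, hl, v, hl v hv⟩
  obtain ⟨w, hw⟩ := hl0
  refine ⟨l, hl, fun c => ⟨(c * (l w)⁻¹) • w, ?_⟩⟩
  rw [map_smul, smul_eq_mul, mul_assoc, inv_mul_cancel₀ hw, mul_one]

end generic

section poly

variable {K L Ω : Type*} [Field K] [Field L] [Fintype K] [Fintype L] [Algebra K L] [Field Ω]
  (τ : L →+* Ω)

/-- evaluation of a polynomial in the first variable with coefficients functions of the second -/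
noncomputable def ev (z : K × L) : (L → Ω)[X] →+* Ω :=
  eval₂RingHom (Pi.evalRingHom (fun _ => Ω) z.2) (τ (algebraMap K L z.1))

lemma ev_C (z : K × L) (g : L → Ω) : ev τ z (C g) = g z.2 := by
  simp [ev]

lemma ev_smul (z : K × L) (c : Ω) (f : (L → Ω)[X]) : ev τ z (c • f) = c * ev τ z f := by
  have h : c • f = C (fun _ => c) * f := by
    ext n y
    rw [coeff_smul, coeff_C_mul]
    rfl
  rw [h, map_mul, ev_C]

/-- all evaluations together, linearly -/
noncomputable def evl : (L → Ω)[X] →ₗ[Ω] (K × L → Ω) where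
  toFun f z := ev τ z f
  map_add' f g := by funext z; exact map_add _ _ _
  map_smul' c f := by funext z; exact ev_smul τ z c f

/-- the polynomials of degree less than `|K|` representing the functions of `D` -/
noncomputable def bp (D : Submodule Ω (K × L → Ω)) : Submodule Ω (L → Ω)[X] :=
  (degreeLT (L → Ω) (Fintype.card K)).restrictScalars Ω ⊓ D.comap (evl τ)

lemma mem_bp {D : Submodule Ω (K × L → Ω)} {f : (L → Ω)[X]} :
    f ∈ bp τ D ↔ f.natDegree < Fintype.card K ∧ (fun z => ev τ z f) ∈ D := by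
  unfold bp
  rw [Submodule.mem_inf, Submodule.restrictScalars_mem, mem_degreeLT, Submodule.mem_comap]
  have h : f.degree < (Fintype.card K : WithBot ℕ) ↔ f.natDegree < Fintype.card K := by
    by_cases h0 : f = 0
    · subst h0
      simp only [natDegree_zero, Fintype.card_pos, iff_true]
      rw [degree_zero]
      exact WithBot.bot_lt_coe _
    · rw [natDegree_lt_iff_degree_lt h0]
  rw [h]
  rfl

lemma eq_zero_of_ev {f : (L → Ω)[X]} (hf : f.natDegree < Fintype.card K)
    (h : ∀ z : K × L, ev τ z f = 0) : f = 0 := by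
  have h1 : ∀ y : L, f.map (Pi.evalRingHom (fun _ => Ω) y) = 0 := by
    intro y
    refine Polynomial.eq_zero_of_natDegree_lt_card_of_eval_eq_zero _
      (f := fun x : K => τ (algebraMap K L x)) (τ.injective.comp (algebraMap K L).injective) ?_ ?_
    · intro x
      have h2 := h (x, y)
      unfold ev at h2
      rw [coe_eval₂RingHom, eval₂_eq_eval_map] at h2
      exact h2
    · exact natDegree_map_le.trans_lt hf
  ext n y
  have h2 := congrArg (fun g => coeff g n) (h1 y)
  simpa [coeff_map] using h2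

lemma exists_rep (φ : K × L → Ω) :
    ∃ f : (L → Ω)[X], f.natDegree < Fintype.card K ∧ ∀ z, ev τ z f = φ z := by
  have hinj : Function.Injective (fun x : K => τ (algebraMap K L x)) :=
    τ.injective.comp (algebraMap K L).injective
  let g : L → Polynomial Ω := fun y =>
    Lagrange.interpolate Finset.univ (fun x : K => τ (algebraMap K L x)) (fun x => φ (x, y))
  have hg : ∀ y x, (g y).eval (τ (algebraMap K L x)) = φ (x, y) := fun y x =>
    Lagrange.eval_interpolate_at_node _ hinj.injOn (Finset.mem_univ x)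
  have hgd : ∀ y, (g y).natDegree < Fintype.card K := by
    intro y
    have h1 : (g y).degree < (Fintype.card K : WithBot ℕ) := by
      have := Lagrange.degree_interpolate_lt (s := Finset.univ)
        (v := fun x : K => τ (algebraMap K L x)) (fun x => φ (x, y)) hinj.injOn
      rwa [Finset.card_univ] at this
    by_cases h0 : g y = 0
    · rw [h0, natDegree_zero]; exact Fintype.card_pos
    · rwa [natDegree_lt_iff_degree_lt h0]
  let f : (L → Ω)[X] := ∑ i ∈ Finset.range (Fintype.card K), C (fun y => (g y).coeff i) * X ^ i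
  refine ⟨f, ?_, ?_⟩
  · refine lt_of_le_of_lt (natDegree_sum_le_of_forall_le (n := Fintype.card K - 1) _ _ ?_) ?_
    · intro i hi
      refine (natDegree_C_mul_X_pow_le _ _).trans ?_
      have := Finset.mem_range.mp hi
      omega
    · have := Fintype.card_pos (α := K)
      omega
  · rintro ⟨x, y⟩
    rw [← hg y x, eval_eq_sum_range' (hgd y), map_sum]
    refine Finset.sum_congr rfl fun i _ => ?_
    rw [map_mul, ev_C, map_pow]
    congr 2
    simp [ev]

lemma finrank_le_bp (D : Submodule Ω (K × L → Ω)) :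
    Module.finrank Ω D ≤ Module.finrank Ω (bp τ D) := by
  let φ : bp τ D →ₗ[Ω] D :=
    { toFun := fun f => ⟨fun z => ev τ z f, ((mem_bp τ).mp f.2).2⟩
      map_add' := fun f g => by ext z; simp
      map_smul' := fun c f => by ext z; simp [ev_smul] }
  have hinj : Function.Injective φ := by
    rw [injective_iff_map_eq_zero]
    intro f hf
    have h1 : ∀ z : K × L, ev τ z f = 0 := fun z => congrFun (congrArg Subtype.val hf) z
    exact Subtype.ext (eq_zero_of_ev τ ((mem_bp τ).mp f.2).1 h1)
  have hsurj : Function.Surjective φ := by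
    intro ψ
    obtain ⟨f, hf, hfe⟩ := exists_rep τ (ψ : K × L → Ω)
    have h1 : (fun z => ev τ z f) = (ψ : K × L → Ω) := funext hfe
    refine ⟨⟨f, (mem_bp τ).mpr ⟨hf, by rw [h1]; exact ψ.2⟩⟩, ?_⟩
    exact Subtype.ext h1
  exact (LinearEquiv.ofBijective φ ⟨hinj, hsurj⟩).finrank_eq.ge

end poly

section extlem

variable {F X Ω : Type*} [Field F] [Fintype X] [Field Ω] (ι : F →+* Ω)

lemma ext_comp' {C : Submodule F (X → F)} (σ : X → X)
    (hσ : ∀ f ∈ C, (fun x => f (σ x)) ∈ C) {φ : X → Ω} (hφ : φ ∈ ext ι C) :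
    (fun x => φ (σ x)) ∈ ext ι C := by
  have h : ext ι C ≤ (ext ι C).comap (LinearMap.funLeft Ω Ω σ) := by
    unfold P61e83e.ext
    rw [Submodule.span_le]
    rintro _ ⟨f, hf, rfl⟩
    exact Submodule.subset_span ⟨_, hσ f hf, rfl⟩
  exact h hφ

lemma ext_dual' {C : Submodule F (X → F)} (u : X → F) (hu : ∀ f ∈ C, ∑ x, u x * f x = 0)
    {φ : X → Ω} (hφ : φ ∈ ext ι C) : ∑ x, ι (u x) * φ x = 0 := by
  have h : ext ι C ≤ LinearMap.ker (∑ x, ι (u x) • (LinearMap.proj x : (X → Ω) →ₗ[Ω] Ω)) := by
    unfold P61e83e.ext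
    rw [Submodule.span_le]
    rintro _ ⟨f, hf, rfl⟩
    rw [SetLike.mem_coe, LinearMap.mem_ker]
    simp only [LinearMap.sum_apply, LinearMap.smul_apply, LinearMap.proj_apply, smul_eq_mul]
    rw [← map_zero ι, ← hu f hf, map_sum]
    exact Finset.sum_congr rfl fun x _ => (map_mul _ _ _).symm
  have := h hφ
  rw [LinearMap.mem_ker] at this
  simpa only [LinearMap.sum_apply, LinearMap.smul_apply, LinearMap.proj_apply, smul_eq_mul]
    using this

end extlem

section inv

variable {F K L Ω : Type*} [Field F] [Field K] [Field L] [Fintype K] [Fintype L] [Algebra K L]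
  [Field Ω] (ι : F →+* Ω) (τ : L →+* Ω) {C : Submodule F (K × L → F)} (h : SInv C)

include h

lemma bp_shear (l : L →ₗ[K] K) {f : (L → Ω)[X]} (hf : f ∈ bp τ (ext ι C)) (t : K) :
    f.comp (X + Polynomial.C (τ (algebraMap K L t) • fun y => τ (algebraMap K L (l y)))) ∈
      bp τ (ext ι C) := by
  rw [mem_bp] at hf ⊢
  refine ⟨?_, ?_⟩
  · refine lt_of_le_of_lt natDegree_comp_le ?_
    have h1 : (X + Polynomial.C (τ (algebraMap K L t) • fun y => τ (algebraMap K L (l y))) :
        (L → Ω)[X]).natDegree ≤ 1 := by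
      refine (natDegree_add_le _ _).trans ?_
      rw [natDegree_C]
      exact max_le natDegree_X_le (Nat.zero_le _)
    calc f.natDegree * _ ≤ f.natDegree * 1 := Nat.mul_le_mul_left _ h1
      _ < _ := by rw [mul_one]; exact hf.1
  · have h2 := ext_comp' ι (fun z : K × L => (z.1 + (t • l) z.2, z.2))
      (fun g hg => h.shear g hg (t • l)) hf.2
    convert h2 using 2 with z
    simp only [ev, coe_eval₂RingHom, eval₂_comp]
    congr 1
    rw [eval₂_add, eval₂_X, eval₂_C, map_add, map_add]
    simp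

lemma bp_trans (t : K) {f : (L → Ω)[X]} (hf : f ∈ bp τ (ext ι C)) :
    f.comp (X + Polynomial.C (τ (algebraMap K L t) • (1 : L → Ω))) ∈ bp τ (ext ι C) := by
  rw [mem_bp] at hf ⊢
  refine ⟨?_, ?_⟩
  · refine lt_of_le_of_lt natDegree_comp_le ?_
    have h1 : (X + Polynomial.C (τ (algebraMap K L t) • (1 : L → Ω)) :
        (L → Ω)[X]).natDegree ≤ 1 := by
      refine (natDegree_add_le _ _).trans ?_
      rw [natDegree_C]
      exact max_le natDegree_X_le (Nat.zero_le _)
    calc f.natDegree * _ ≤ f.natDegree * 1 := Nat.mul_le_mul_left _ h1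
      _ < _ := by rw [mul_one]; exact hf.1
  · have h2 := ext_comp' ι (fun z : K × L => (z.1 + t, z.2 + 0))
      (fun g hg => h.trans g hg t 0) hf.2
    convert h2 using 2 with z
    simp only [ev, coe_eval₂RingHom, eval₂_comp, add_zero]
    congr 1
    rw [eval₂_add, eval₂_X, eval₂_C, map_add, map_add]
    simp

/-- shift of the coefficients -/
noncomputable def shift (b : L) : (L → Ω) →+* (L → Ω) :=
  RingHom.pi fun y => Pi.evalRingHom (fun _ => Ω) (y + b)

omit h in
lemma shift_apply (b : L) (g : L → Ω) (y : L) : shift b g y = g (y + b) := rfl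

lemma bp_shift (b : L) {f : (L → Ω)[X]} (hf : f ∈ bp τ (ext ι C)) :
    f.map (shift b) ∈ bp τ (ext ι C) := by
  rw [mem_bp] at hf ⊢
  refine ⟨natDegree_map_le.trans_lt hf.1, ?_⟩
  have h2 := ext_comp' ι (fun z : K × L => (z.1 + 0, z.2 + b))
      (fun g hg => h.trans g hg 0 b) hf.2
  convert h2 using 2 with z
  simp only [ev, coe_eval₂RingHom, eval₂_map, add_zero]
  rfl

end inv

section push

variable {F Z A Ω : Type*} [Field F] [Fintype Z] [Field Ω] (ι : F →+* Ω) (u : Z → F)

/-- push forward of a dual word -/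
lemma push_sum [Fintype A] (π : Z → A) (g : A → Ω) :
    ∑ a, (∑ z : Z, if π z = a then ι (u z) else 0) * g a = ∑ z : Z, ι (u z) * g (π z) := by
  have e1 : ∀ a, (∑ z : Z, if π z = a then ι (u z) else 0) * g a =
      ∑ z : Z, if π z = a then ι (u z) * g a else 0 := by
    intro a
    rw [Finset.sum_mul]
    refine Finset.sum_congr rfl fun z _ => ?_
    rw [ite_mul, zero_mul]
  simp_rw [e1]
  rw [Finset.sum_comm]
  refine Finset.sum_congr rfl fun z _ => ?_
  rw [Finset.sum_ite_eq Finset.univ (π z) (fun a => ι (u z) * g a)]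
  simp

lemma push_single (π : Z → A) {z₁ : Z} (hz₁ : u z₁ ≠ 0)
    (hπ : ∀ z, z ≠ z₁ → u z ≠ 0 → π z ≠ π z₁) :
    (∑ z : Z, if π z = π z₁ then ι (u z) else 0) ≠ 0 := by
  rw [Finset.sum_eq_single z₁]
  · rw [if_pos rfl]
    exact (map_ne_zero ι).mpr hz₁
  · intro z _ hz
    split_ifs with h1
    · by_contra hne
      exact hπ z hz (fun h0 => hne (by rw [h0, map_zero])) h1
    · rfl
  · intro h1
    exact absurd (Finset.mem_univ _) h1

lemma push_wt [Fintype A] (π : Z → A) :
    (Finset.univ.filter fun a : A => (∑ z : Z, if π z = a then ι (u z) else 0) ≠ 0).card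
      ≤ wt u := by
  unfold wt
  refine (Finset.card_le_card (t := (Finset.univ.filter fun z => u z ≠ 0).image π) ?_).trans
    Finset.card_image_le
  intro a ha
  rw [Finset.mem_filter] at ha
  obtain ⟨z, -, hz⟩ := Finset.exists_ne_zero_of_sum_ne_zero ha.2
  rw [Finset.mem_image]
  split_ifs at hz with h1
  · refine ⟨z, ?_, h1⟩
    rw [Finset.mem_filter]
    exact ⟨Finset.mem_univ _, fun h0 => hz (by rw [h0, map_zero])⟩
  · exact absurd rfl hz

end push

section main

variable {F K L : Type*} [Field F] [Field K] [Field L] [Fintype K] [Fintype L] [Algebra K L]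

/-- the functions of the second variable in a space of functions on `K × L` -/
def snd {Ω : Type*} [Field Ω] (D : Submodule Ω (K × L → Ω)) : Submodule Ω (L → Ω) :=
  D.comap (LinearMap.funLeft Ω Ω (Prod.snd : K × L → L))

lemma mem_snd {Ω : Type*} [Field Ω] {D : Submodule Ω (K × L → Ω)} {g : L → Ω} :
    g ∈ snd D ↔ (fun z : K × L => g z.2) ∈ D := Iff.rfl

theorem sinv_same_aux (p : ℕ) [hp : Fact p.Prime] [CharP F p] [CharP K p] [CharP L p] (k l : ℕ)
    (hk : Fintype.card K = p ^ k) (hl : Fintype.card L = p ^ l)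
    (C : Submodule F (K × L → F)) (h : SInv C) (u : K × L → F) (hu : Dual C u)
    (q : ℕ) (hq : wt u ≤ q) (z₁ : K × L) (hz₁ : u z₁ ≠ 0)
    (hsep : ∀ z, z ≠ z₁ → u z ≠ 0 → z.2 ≠ z₁.2) :
    Module.finrank F C ≤ (q + (k * p) ^ (q - 2)) * (p * (l * p) ^ (q - 2)) := by
  have hp1 := hp.out.one_lt
  let Ω := AlgebraicClosure F
  let ι : F →+* Ω := algebraMap F Ω
  have : CharP Ω p := charP_of_injective_algebraMap (algebraMap F Ω).injective p
  let _ := ZMod.algebra L p
  let _ := ZMod.algebra Ω p
  have : Module.Finite (ZMod p) L := Module.Finite.of_finite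
  let τ : L →+* Ω := (IsAlgClosed.lift (R := ZMod p) (S := L) (M := Ω)).toRingHom
  have hk0 : 0 < k := by
    rcases Nat.eq_zero_or_pos k with rfl | h0
    · rw [pow_zero] at hk
      have := Fintype.one_lt_card (α := K)
      omega
    · exact h0
  have hl0 : 0 < l := by
    rcases Nat.eq_zero_or_pos l with rfl | h0
    · rw [pow_zero] at hl
      have := Fintype.one_lt_card (α := L)
      omega
    · exact h0
  set D := ext ι C with hD
  have hDdual : ∀ φ ∈ D, ∑ z, ι (u z) * φ z = 0 := fun φ hφ => ext_dual' ι u hu hφ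
  -- the functions of the second coordinate
  set W := snd D with hW
  have hWtr : ∀ g ∈ W, ∀ b, (fun y => g (y + b)) ∈ W := by
    intro g hg b
    rw [hW, mem_snd] at hg ⊢
    have := ext_comp' ι (fun z : K × L => (z.1 + 0, z.2 + b)) (fun f hf => h.trans f hf 0 b) hg
    exact this
  have hWdil : ∀ g ∈ W, ∀ a ∈ (⊤ : Subgroup Lˣ), (fun y => g ((a : Lˣ) * y)) ∈ W := by
    intro g hg a _
    rw [hW, mem_snd] at hg ⊢
    obtain ⟨c, -, hc⟩ := h.dil (a : L) a.ne_zero
    have := ext_comp' ι (fun z : K × L => (c * z.1, (a : L) * z.2)) hc hg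
    exact this
  let v : L → Ω := fun y => ∑ z : K × L, if z.2 = y then ι (u z) else 0
  have hvW : ∀ g ∈ W, ∑ y, v y * g y = 0 := by
    intro g hg
    exact (push_sum ι u (fun z : K × L => z.2) g).trans (hDdual _ hg)
  have hv0 : v ≠ 0 := by
    intro h0
    have h1 : v z₁.2 = 0 := congrFun h0 z₁.2
    exact push_single ι u (fun z : K × L => z.2) hz₁ hsep h1
  have hWfin : Module.finrank Ω W ≤ p * (l * p) ^ (q - 2) := by
    have hcard : 1 * Fintype.card (⊤ : Subgroup Lˣ) + 1 = p ^ l := by
      rw [one_mul, ← Nat.card_eq_fintype_card, Subgroup.card_top, Nat.card_eq_fintype_card,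
        Fintype.card_units, hl]
      have : 0 < p ^ l := pow_pos (by omega) _
      omega
    have := finrank_le_same p l hl0 hl ⊤ W hWtr hWdil v hvW hv0 q ((push_wt ι u _).trans hq) 1 1 hcard (by simp)
    simpa using this
  -- the exponents
  set P := bp τ D with hP
  have hPdeg : ∀ f ∈ P, f.natDegree < Fintype.card K := fun f hf => ((mem_bp τ).mp hf).1
  have hWlead : ∀ f ∈ P, f.leadingCoeff ∈ W := by
    intro f hf
    have h2 := pow_hasse_mem (τ.comp (algebraMap K L)) P hPdeg 1
      (fun g hg t => bp_trans ι τ h t hg) f hf f.natDegree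
    rw [one_pow, one_smul, hasseDeriv_natDegree_eq_C, hP, mem_bp] at h2
    have h3 := h2.2
    simp only [ev_C] at h3
    exact h3
  have hlead : ∀ f ∈ P, ∀ (lam : L →ₗ[K] K), f.leadingCoeff = 1 →
      (fun y => τ (algebraMap K L (lam y)) ^ f.natDegree) ∈ W := by
    intro f hf lam h1
    have h2 := pow_hasse_mem (τ.comp (algebraMap K L)) P hPdeg
      (fun y => τ (algebraMap K L (lam y))) (fun g hg t => bp_shear ι τ h lam hg t) f hf
      f.natDegree
    rw [hasseDeriv_natDegree_eq_C, h1, smul_C, smul_eq_mul, mul_one, hP, mem_bp] at h2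
    have h3 := h2.2
    simp only [ev_C] at h3
    exact h3
  -- leading coefficient one
  have hone : ∀ f ∈ P, f ≠ 0 → ∃ g ∈ P, g.natDegree = f.natDegree ∧ g.leadingCoeff = 1 := by
    intro f hf hf0
    set e := f.natDegree with he
    let M : Submodule Ω (L → Ω) :=
      { carrier := {g | ∃ f ∈ P, (∀ i, e < i → f.coeff i = 0) ∧ f.coeff e = g}
        zero_mem' := ⟨0, P.zero_mem, fun i _ => coeff_zero i, coeff_zero e⟩
        add_mem' := by
          rintro _ _ ⟨f, hf, h1, rfl⟩ ⟨g, hg, h2, rfl⟩
          refine ⟨f + g, P.add_mem hf hg, fun i hi => ?_, coeff_add _ _ _⟩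
          rw [coeff_add, h1 i hi, h2 i hi, add_zero]
        smul_mem' := by
          rintro c _ ⟨f, hf, h1, rfl⟩
          refine ⟨c • f, P.smul_mem c hf, fun i hi => ?_, coeff_smul _ _ _⟩
          rw [coeff_smul, h1 i hi, smul_zero] }
    have hMtr : ∀ g ∈ M, ∀ b : L, (fun x => g (x + b)) ∈ M := by
      rintro _ ⟨f, hf, h1, rfl⟩ b
      refine ⟨f.map (shift b), bp_shift ι τ h b hf, fun i hi => ?_, ?_⟩
      · rw [coeff_map, h1 i hi, map_zero]
      · rw [coeff_map]
        rfl
    have hM : M ≠ ⊥ := by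
      intro hbot
      have h1 : f.leadingCoeff ∈ M :=
        ⟨f, hf, fun i hi => coeff_eq_zero_of_natDegree_lt hi, rfl⟩
      rw [hbot, Submodule.mem_bot, leadingCoeff_eq_zero] at h1
      exact hf0 h1
    obtain ⟨g, hg, h1, h2⟩ := const_mem p (fun x : L => by
      rw [nsmul_eq_mul, CharP.cast_eq_zero, zero_mul]) M hMtr hM
    have h3 : g.natDegree = e := by
      apply le_antisymm
      · rw [natDegree_le_iff_coeff_eq_zero]
        exact h1
      · apply le_natDegree_of_ne_zero
        rw [h2]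
        intro h4
        exact one_ne_zero (congrFun h4 0)
    refine ⟨g, hg, h3, ?_⟩
    rw [leadingCoeff, h3, h2]
    rfl
  let E : Finset ℕ := if q ≤ Fintype.card K then
    (Finset.range (Fintype.card K)).filter fun e => nz p k e ≤ q - 2
    else Finset.range (Fintype.card K)
  have hE : E.card ≤ q + (k * p) ^ (q - 2) := by
    simp only [E]
    split_ifs with h1
    · refine le_trans (card_nz_le (by omega) hk0 _ fun e he => ?_) (Nat.le_add_left _ _)
      rw [Finset.mem_filter, Finset.mem_range, hk] at he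
      exact he
    · rw [Finset.card_range]
      omega
  have hmem : ∀ f ∈ P, f ≠ 0 → f.natDegree ∈ E ∧ f.leadingCoeff ∈ W := by
    intro f hf hf0
    refine ⟨?_, hWlead f hf⟩
    simp only [E]
    split_ifs with hqK
    swap
    · exact Finset.mem_range.mpr (hPdeg f hf)
    rw [Finset.mem_filter, Finset.mem_range]
    refine ⟨hPdeg f hf, ?_⟩
    -- the functional
    let S : Finset L := ((Finset.univ.filter fun z => u z ≠ 0).erase z₁).image
      fun z => z.2 - z₁.2
    have hS0 : ∀ y ∈ S, y ≠ 0 := by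
      intro y hy
      rw [Finset.mem_image] at hy
      obtain ⟨z, hz, rfl⟩ := hy
      rw [Finset.mem_erase, Finset.mem_filter] at hz
      exact sub_ne_zero.mpr (hsep z hz.1 hz.2.2)
    have hzmem : z₁ ∈ Finset.univ.filter fun z => u z ≠ 0 := by simp [hz₁]
    have hScard : S.card < Fintype.card K := by
      refine Finset.card_image_le.trans_lt ?_
      rw [Finset.card_erase_of_mem hzmem]
      have h1 : 0 < (Finset.univ.filter fun z => u z ≠ 0).card := Finset.card_pos.mpr ⟨_, hzmem⟩
      have h2 : (Finset.univ.filter fun z => u z ≠ 0).card ≤ q := hq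
      omega
    obtain ⟨lam, hlam, hsurj⟩ := exists_functional (K := K) S hS0 hScard
    have hlamsep : ∀ z, z ≠ z₁ → u z ≠ 0 → lam z.2 ≠ lam z₁.2 := by
      intro z hz hzu h1
      have h2 : z.2 - z₁.2 ∈ S := by
        rw [Finset.mem_image]
        exact ⟨z, Finset.mem_erase.mpr ⟨hz, by simp [hzu]⟩, rfl⟩
      apply hlam _ h2
      rw [map_sub, h1, sub_self]
    obtain ⟨g, hg, hgd, hg1⟩ := hone f hf hf0
    have hpow := hlead g hg lam hg1
    rw [hgd] at hpow
    let τ' : K →+* Ω := τ.comp (algebraMap K L)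
    let P' : Submodule Ω (Polynomial Ω) := degreeLT Ω (Fintype.card K) ⊓
      W.comap (LinearMap.pi fun y => Polynomial.leval (τ' (lam y)))
    have hP' : ∀ f : Polynomial Ω, f ∈ P' ↔ f.degree < Fintype.card K ∧
        (fun y => f.eval (τ' (lam y))) ∈ W := by
      intro f
      simp only [P']
      rw [Submodule.mem_inf, mem_degreeLT, Submodule.mem_comap]
      rfl
    have hP'deg : ∀ f ∈ P', f.natDegree < Fintype.card K := by
      intro f hf
      by_cases h0 : f = 0
      · rw [h0, natDegree_zero]; exact Fintype.card_pos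
      · rw [natDegree_lt_iff_degree_lt h0]
        exact ((hP' f).mp hf).1
    have hP'tr : ∀ f ∈ P', ∀ b : K, f.comp (X + Polynomial.C (τ' b)) ∈ P' := by
      intro f hf b
      rw [hP'] at hf ⊢
      refine ⟨?_, ?_⟩
      · rw [← taylor_apply, degree_taylor]; exact hf.1
      · obtain ⟨y₀, hy₀⟩ := hsurj b
        have h1 := hWtr _ hf.2 y₀
        convert h1 using 2 with y
        rw [map_add, hy₀, map_add, eval_comp, eval_add, eval_X, eval_C]
    have hX : (X ^ f.natDegree : Polynomial Ω) ∈ P' := by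
      rw [hP']
      refine ⟨?_, ?_⟩
      · rw [degree_X_pow]
        exact_mod_cast hPdeg f hf
      · convert hpow using 2 with y
        rw [eval_pow, eval_X]
        rfl
    have hnz := nz_add_two_le τ' hP'deg hP'tr p
      (fun x => ∑ z : K × L, if lam z.2 = x then ι (u z) else 0) ?_ ?_ f.natDegree k hX
    · have := (push_wt ι u (fun z : K × L => lam z.2)).trans hq
      omega
    · intro g hg
      rw [push_sum ι u (fun z : K × L => lam z.2) (fun x => g.eval (τ' x))]
      exact hDdual _ ((hP' g).mp hg).2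
    · intro h0
      exact push_single ι u (fun z : K × L => lam z.2) hz₁ hlamsep (congrFun h0 (lam z₁.2))
  have hfin : Module.finrank Ω P ≤ E.card * Module.finrank Ω W :=
    finrank_le_lead P _ hPdeg E W hmem
  calc Module.finrank F C ≤ Module.finrank Ω D := finrank_le_ext ι C
    _ ≤ Module.finrank Ω P := finrank_le_bp τ D
    _ ≤ E.card * Module.finrank Ω W := hfin
    _ ≤ (q + (k * p) ^ (q - 2)) * (p * (l * p) ^ (q - 2)) := Nat.mul_le_mul hE hWfin

theorem sinv_same (p : ℕ) [Fact p.Prime] [CharP F p] [CharP K p] [CharP L p] (k l : ℕ)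
    (hk : Fintype.card K = p ^ k) (hl : Fintype.card L = p ^ l)
    (C : Submodule F (K × L → F)) (h : SInv C) (u : K × L → F) (hu0 : u ≠ 0) (hu : Dual C u)
    (q : ℕ) (hq : wt u ≤ q) (hqL : q ≤ Fintype.card L) :
    Module.finrank F C ≤ (q + (k * p) ^ (q - 2)) * (p * (l * p) ^ (q - 2)) := by
  obtain ⟨v, hv, hvq, z₁, hz₁, hsep⟩ := exists_sep h hu0 hu hq hqL
  exact sinv_same_aux p k l hk hl C h v hv q hvq z₁ hz₁ hsep

end main

end Pltc
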