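import Mathlib
import Pool.Agent.Lib.Pltc.Kernel
import Pool.Agent.Lib.Pltc.SameCore

/-!
Module Pltc.SAll: the uniform bound for codes with the symmetries `SInv`.

Proof.  `p` = characteristic of `F` (a prime, `F` is finite).  Put `n = |K × L|`.  If `q ≥ n` or
`q > |L|` then `finrank C ≤ n ≤ |L|^2 ≤ q^2` (`|K| ≤ |L|` as `K` embeds in `L`), absorbed in the
constant (`(log n + 1)^(2q) ≥ 1`).  Otherwise: if `(n : F) ≠ 0` use `sinv_cross`; if `(n : F) = 0`
then `K`, `L` have characteristic `p`, `|K| = p^k`, `|L| = p^l`, `1 ≤ k, l ≤ 2 log n` (as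
`log p ≥ 1/2`), and `sinv_same` gives
`finrank C ≤ (q + (k p)^(q-2)) (p (l p)^(q-2)) ≤ (q + (2p)^(q)) p (2p)^q (log n + 1)^(2q)`.
-/

set_option autoImplicit false
open Classical

namespace Pltc

theorem sinv_bound (F : Type) [Field F] [Fintype F] (q : ℕ) :
    ∃ c : ℝ, 0 ≤ c ∧ ∀ (K L : Type) [Field K] [Field L] [Fintype K] [Fintype L] [Algebra K L]
      (C : Submodule F (K × L → F)), SInv C → ∀ u : K × L → F, u ≠ 0 → wt u ≤ q → Dual C u →
      (Module.finrank F C : ℝ) ≤ c * (Real.log (Fintype.card (K × L)) + 1) ^ (2 * q) := by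
  obtain ⟨p, hchar⟩ := CharP.exists F
  have hp : p.Prime := by
    haveI := hchar
    exact (CharP.char_is_prime_or_zero F p).resolve_right (CharP.char_ne_zero_of_finite F p)
  haveI : Fact p.Prime := ⟨hp⟩
  have hp1 : (1 : ℝ) ≤ p := by exact_mod_cast hp.one_lt.le
  refine ⟨(q : ℝ) ^ 2 + 1 + (q + (2 * p) ^ q) * (p * (2 * p) ^ q), by positivity, ?_⟩
  intro K L _ _ _ _ _ C hC u hu0 hwt hu
  set x : ℝ := Real.log (Fintype.card (K × L)) + 1 with hx
  have hcardK : 1 < Fintype.card K := Fintype.one_lt_card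
  have hcardL : 1 < Fintype.card L := Fintype.one_lt_card
  have hcard : Fintype.card (K × L) = Fintype.card K * Fintype.card L := Fintype.card_prod K L
  have hKL : Fintype.card K ≤ Fintype.card L :=
    Fintype.card_le_of_injective (algebraMap K L) (algebraMap K L).injective
  have hn1 : (1 : ℝ) ≤ (Fintype.card (K × L) : ℝ) := by
    exact_mod_cast Fintype.card_pos
  have hlog0 : 0 ≤ Real.log (Fintype.card (K × L)) := Real.log_nonneg hn1
  have hx1 : 1 ≤ x := by linarith
  have hxq : ∀ m : ℕ, 1 ≤ x ^ m := fun m => one_le_pow₀ hx1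
  have hthird : 0 ≤ ((q : ℝ) + (2 * p) ^ q) * (p * (2 * p) ^ q) := by positivity
  have hle : Module.finrank F C ≤ Fintype.card (K × L) := by
    have h1 : Module.finrank F C ≤ Module.finrank F (K × L → F) := Submodule.finrank_le _
    rwa [Module.finrank_fintype_fun_eq_card] at h1
  by_cases hqL : Fintype.card L < q
  · -- small fields
    have h1 : Module.finrank F C ≤ q ^ 2 := by
      calc Module.finrank F C ≤ Fintype.card K * Fintype.card L := by rw [← hcard]; exact hle
        _ ≤ q * q := Nat.mul_le_mul (hKL.trans hqL.le) hqL.le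
        _ = q ^ 2 := by ring
    have h2 : (Module.finrank F C : ℝ) ≤ (q : ℝ) ^ 2 := by exact_mod_cast h1
    calc (Module.finrank F C : ℝ) ≤ (q : ℝ) ^ 2 + 1 + (q + (2 * p) ^ q) * (p * (2 * p) ^ q) := by
          linarith
      _ ≤ ((q : ℝ) ^ 2 + 1 + (q + (2 * p) ^ q) * (p * (2 * p) ^ q)) * x ^ (2 * q) :=
          le_mul_of_one_le_right (by positivity) (hxq _)
  push Not at hqL
  by_cases hc : ((Fintype.card (K × L) : ℕ) : F) = 0
  · -- equal characteristic
    have hdvd : p ∣ Fintype.card K * Fintype.card L := by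
      rw [← hcard]
      exact (CharP.cast_eq_zero_iff F p _).mp hc
    obtain ⟨r, hrK⟩ := CharP.exists K
    haveI := hrK
    obtain ⟨k, hr, hk⟩ := FiniteField.card K r
    haveI hrL : CharP L r := charP_of_injective_algebraMap (algebraMap K L).injective r
    obtain ⟨l, _, hl⟩ := FiniteField.card L r
    have hpr : p = r := by
      rw [hk, hl, ← pow_add] at hdvd
      exact (Nat.prime_dvd_prime_iff_eq hp hr).mp (hp.dvd_of_dvd_pow hdvd)
    subst hpr
    have hmain := sinv_same p (k : ℕ) (l : ℕ) hk hl C hC u hu0 hu q hwt hqL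
    have hlogp : (1 : ℝ) / 2 ≤ Real.log p := by
      have h2 : Real.log 2 ≤ Real.log p :=
        Real.log_le_log (by norm_num) (by exact_mod_cast hp.two_le)
      have := Real.log_two_gt_d9
      linarith
    have hbound : ∀ (m : ℕ) (N : ℕ), N = p ^ m → N ≤ Fintype.card (K × L) → (m : ℝ) ≤ 2 * x := by
      intro m N hN hNle
      have h1 : Real.log N ≤ Real.log (Fintype.card (K × L)) := by
        refine Real.log_le_log ?_ (by exact_mod_cast hNle)
        rw [hN]
        exact_mod_cast pow_pos hp.pos m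
      rw [hN] at h1
      push_cast at h1
      rw [Real.log_pow] at h1
      have h2 : (m : ℝ) * (1 / 2) ≤ m * Real.log p := by gcongr
      linarith
    have hk2 : ((k : ℕ) : ℝ) ≤ 2 * x := hbound k _ hk (by
      rw [hcard]; exact Nat.le_mul_of_pos_right _ (by omega))
    have hl2 : ((l : ℕ) : ℝ) ≤ 2 * x := hbound l _ hl (by
      rw [hcard]; exact Nat.le_mul_of_pos_left _ (by omega))
    have hpow : ∀ m : ℕ, (m : ℝ) ≤ 2 * x → ((m : ℝ) * p) ^ (q - 2) ≤ (2 * p) ^ q * x ^ q := by
      intro m hm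
      calc ((m : ℝ) * p) ^ (q - 2) ≤ (2 * x * p) ^ (q - 2) := by gcongr
        _ ≤ (2 * x * p) ^ q := by
            refine pow_le_pow_right₀ ?_ (Nat.sub_le _ _)
            nlinarith
        _ = (2 * p) ^ q * x ^ q := by rw [← mul_pow]; ring
    have hmainR : (Module.finrank F C : ℝ)
        ≤ (q + ((k : ℕ) * (p : ℝ)) ^ (q - 2)) * (p * ((l : ℕ) * (p : ℝ)) ^ (q - 2)) := by
      exact_mod_cast hmain
    calc (Module.finrank F C : ℝ)
        ≤ (q + ((k : ℕ) * (p : ℝ)) ^ (q - 2)) * (p * ((l : ℕ) * (p : ℝ)) ^ (q - 2)) := hmainR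
      _ ≤ (q * x ^ q + (2 * p) ^ q * x ^ q) * (p * ((2 * p) ^ q * x ^ q)) := by
          refine mul_le_mul (add_le_add ?_ (hpow _ hk2)) ?_ (by positivity) (by positivity)
          · exact le_mul_of_one_le_right (by positivity) (hxq _)
          · exact mul_le_mul_of_nonneg_left (hpow _ hl2) (by positivity)
      _ = ((q + (2 * p) ^ q) * (p * (2 * p) ^ q)) * x ^ (2 * q) := by
          rw [two_mul q, pow_add x q q]; ring
      _ ≤ ((q : ℝ) ^ 2 + 1 + (q + (2 * p) ^ q) * (p * (2 * p) ^ q)) * x ^ (2 * q) := by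
          gcongr
          have : (0 : ℝ) ≤ (q : ℝ) ^ 2 := by positivity
          linarith
  · -- cross characteristic
    have hlt : wt u < Fintype.card (K × L) := by
      refine lt_of_le_of_lt (hwt.trans hqL) ?_
      rw [hcard]
      nlinarith
    have h1 := sinv_cross hc C hC u hu0 hu hlt
    have h2 : (Module.finrank F C : ℝ) ≤ 1 := by exact_mod_cast h1
    calc (Module.finrank F C : ℝ) ≤ (q : ℝ) ^ 2 + 1 + (q + (2 * p) ^ q) * (p * (2 * p) ^ q) := by
          have : (0 : ℝ) ≤ (q : ℝ) ^ 2 := by positivity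
          linarith
      _ ≤ ((q : ℝ) ^ 2 + 1 + (q + (2 * p) ^ q) * (p * (2 * p) ^ q)) * x ^ (2 * q) :=
          le_mul_of_one_le_right (by positivity) (hxq _)

end Pltc
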