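import Mathlib
import Pool.Agent.Lib.Pltc.Defs
import Pool.Agent.Lib.Pltc.Ext

/-!
Module Pltc.Sympl: a code on `K^{2d}` invariant under translations and the standard symplectic group
becomes a code on `L × L`, `L` the extension of `K` of degree `d`, with the symmetries `SInv` (for
the pair of fields `L`, `L`).

Proof.  `L` from `exists_extension`.  Choose a `K`-basis `β` of `L` indexed by `Fin d` and its dual
basis `β'` for the trace form (`BilinForm.dualBasis`, `traceForm_nondegenerate`; finite fields are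
perfect, so `L/K` is separable): `Tr (β i * β' j) = δ_{ij}`.  `φ (x, y) = (coordinates of x in β,
coordinates of y in β')`, an additive equivalence `L × L ≃ K^d × K^d`, `K`-linear, with
`symp (φ (x, y)) (φ (x', y')) = Tr (x y' - y x')`.  The maps `(x, y) ↦ (x + c y, y)` (every `L`-linear
functional `l : L → L` is `l y = l 1 * y`), `(x, y) ↦ (x, y + x b)`, `(x, y) ↦ (a⁻¹ x, a y)` preserve
`x y' - y x'` (`det = 1`), so transported by `φ` they preserve `symp`.
-/

set_option autoImplicit false
open Classical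

namespace Pltc

lemma exists_trace_coords (K : Type) [Field K] [Fintype K] (d : ℕ) (hd : 0 < d) :
    ∃ (L : Type) (_ : Field L) (_ : Fintype L) (_ : Algebra K L)
      (φ : (L × L) ≃ₗ[K] ((Fin d → K) × (Fin d → K))),
      ∀ z w : L × L, symp (φ z) (φ w) = Algebra.trace K L (z.1 * w.2 - z.2 * w.1) := by
  obtain ⟨L, _, _, _, hL⟩ := exists_extension K d hd
  have hfin : FiniteDimensional K L := by
    apply Module.finite_of_finrank_pos
    omega
  let b : Module.Basis (Fin d) K L := Module.finBasisOfFinrankEq K L hL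
  have hnd : (Algebra.traceForm K L).Nondegenerate := traceForm_nondegenerate K L
  let b' : Module.Basis (Fin d) K L := (Algebra.traceForm K L).dualBasis hnd b
  have hb' : ∀ y i, b'.repr y i = Algebra.trace K L (y * b i) := by
    intro y i
    have := LinearMap.BilinForm.dualBasis_repr_apply (B := Algebra.traceForm K L) hnd b y i
    rw [Algebra.traceForm_apply] at this
    exact this
  have key : ∀ x y : L, Algebra.trace K L (x * y) = ∑ i, b.repr x i * b'.repr y i := by
    intro x y
    conv_lhs => rw [← b.sum_repr x]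
    rw [Finset.sum_mul, map_sum]
    refine Finset.sum_congr rfl fun i _ => ?_
    rw [smul_mul_assoc, map_smul, smul_eq_mul, hb', mul_comm y (b i)]
  refine ⟨L, inferInstance, inferInstance, inferInstance,
    LinearEquiv.prodCongr b.equivFun b'.equivFun, fun z w => ?_⟩
  have e1 : ∀ z : L × L, ∀ i, (LinearEquiv.prodCongr b.equivFun b'.equivFun z).1 i =
      b.repr z.1 i := fun z i => rfl
  have e2 : ∀ z : L × L, ∀ i, (LinearEquiv.prodCongr b.equivFun b'.equivFun z).2 i =
      b'.repr z.2 i := fun z i => rfl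
  unfold symp
  simp only [e1, e2]
  rw [Finset.sum_sub_distrib, map_sub, key, mul_comm z.2 w.1, key]
  congr 1
  refine Finset.sum_congr rfl fun i _ => ?_
  ring

/-- a two by two matrix over `L`, as a `K`-linear map -/
def mat2 (K L : Type) [Field K] [Field L] [Algebra K L] (p q r s : L) :
    (L × L) →ₗ[K] (L × L) where
  toFun z := (p * z.1 + q * z.2, r * z.1 + s * z.2)
  map_add' z w := by
    ext
    · simp only [Prod.fst_add, Prod.snd_add]; ring
    · simp only [Prod.fst_add, Prod.snd_add]; ring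
  map_smul' k z := by
    ext
    · simp only [Prod.smul_fst, Prod.smul_snd, mul_smul_comm, smul_add, RingHom.id_apply]
    · simp only [Prod.smul_fst, Prod.smul_snd, mul_smul_comm, smul_add, RingHom.id_apply]

lemma mat2_apply (K L : Type) [Field K] [Field L] [Algebra K L] (p q r s : L) (z : L × L) :
    mat2 K L p q r s z = (p * z.1 + q * z.2, r * z.1 + s * z.2) := rfl

lemma mat2_mem {F K L : Type} [Field F] [Field K] [Field L] [Algebra K L] {d : ℕ}
    (C : Submodule F ((Fin d → K) × (Fin d → K) → F))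
    (hlin : ∀ g : ((Fin d → K) × (Fin d → K)) →ₗ[K] ((Fin d → K) × (Fin d → K)),
      (∀ x y, symp (g x) (g y) = symp x y) → ∀ f ∈ C, (fun x => f (g x)) ∈ C)
    (φ : (L × L) ≃ₗ[K] ((Fin d → K) × (Fin d → K)))
    (hφ : ∀ z w : L × L, symp (φ z) (φ w) = Algebra.trace K L (z.1 * w.2 - z.2 * w.1))
    {p q r s : L} (hdet : p * s - q * r = 1) {f : L × L → F} (hf : f ∈ pull φ C) :
    (fun z => f (mat2 K L p q r s z)) ∈ pull φ C := by
  rw [mem_pull] at hf ⊢
  obtain ⟨f0, hf0, rfl⟩ := hf
  let g : ((Fin d → K) × (Fin d → K)) →ₗ[K] ((Fin d → K) × (Fin d → K)) :=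
    φ.toLinearMap ∘ₗ (mat2 K L p q r s) ∘ₗ φ.symm.toLinearMap
  have hg : ∀ x, g x = φ (mat2 K L p q r s (φ.symm x)) := fun x => rfl
  have hsymp : ∀ x y, symp (g x) (g y) = symp x y := by
    intro x y
    rw [hg, hg, hφ, mat2_apply, mat2_apply]
    have h2 : symp x y = symp (φ (φ.symm x)) (φ (φ.symm y)) := by
      rw [φ.apply_symm_apply, φ.apply_symm_apply]
    rw [h2, hφ]
    congr 1
    linear_combination ((φ.symm x).1 * (φ.symm y).2 - (φ.symm x).2 * (φ.symm y).1) * hdet
  refine ⟨fun x => f0 (g x), hlin g hsymp f0 hf0, ?_⟩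
  funext y
  simp only [hg]
  rw [φ.symm_apply_apply]

theorem sinv_of_sp {F K : Type} [Field F] [Field K] [Fintype K] (d : ℕ) (hd : 0 < d)
    (C : Submodule F ((Fin d → K) × (Fin d → K) → F))
    (htr : ∀ f ∈ C, ∀ b : (Fin d → K) × (Fin d → K), (fun x => f (x + b)) ∈ C)
    (hlin : ∀ g : ((Fin d → K) × (Fin d → K)) →ₗ[K] ((Fin d → K) × (Fin d → K)),
      (∀ x y, symp (g x) (g y) = symp x y) → ∀ f ∈ C, (fun x => f (g x)) ∈ C) :
    ∃ (L : Type) (_ : Field L) (_ : Fintype L)
      (φ : (L × L) ≃ (Fin d → K) × (Fin d → K)), SInv (pull φ C) := by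
  obtain ⟨L, _, _, _, φ, hφ⟩ := exists_trace_coords K d hd
  refine ⟨L, inferInstance, inferInstance, φ.toEquiv, ?_⟩
  have hpull : pull φ.toEquiv C = pull φ C := rfl
  constructor
  · intro f hf a b
    rw [hpull, mem_pull] at hf ⊢
    obtain ⟨f0, hf0, rfl⟩ := hf
    refine ⟨fun x => f0 (x + φ (a, b)), htr f0 hf0 _, ?_⟩
    funext z
    have : ((z.1 + a, z.2 + b) : L × L) = z + (a, b) := rfl
    rw [this]
    show f0 (φ z + φ (a, b)) = f0 (φ (z + (a, b)))
    rw [map_add]
  · intro f hf l
    rw [hpull] at hf ⊢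
    have h := mat2_mem C hlin φ hφ (p := 1) (q := l 1) (r := 0) (s := 1) (by ring) hf
    have e : (fun z : L × L => f (mat2 K L 1 (l 1) 0 1 z)) =
        fun z : L × L => f (z.1 + l z.2, z.2) := by
      funext z
      have hl : l z.2 = z.2 * l 1 := by
        have := l.map_smul z.2 1
        rwa [smul_eq_mul, smul_eq_mul, mul_one] at this
      rw [mat2_apply, hl]
      congr 2
      · ring
      · ring
    rw [← e]
    exact h
  · intro f hf b
    rw [hpull] at hf ⊢
    have h := mat2_mem C hlin φ hφ (p := 1) (q := 0) (r := b) (s := 1) (by ring) hf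
    have e : (fun z : L × L => f (mat2 K L 1 0 b 1 z)) =
        fun z : L × L => f (z.1, z.2 + z.1 • b) := by
      funext z
      rw [mat2_apply, smul_eq_mul]
      congr 2
      · ring
      · ring
    rw [← e]
    exact h
  · intro a ha
    refine ⟨a⁻¹, inv_ne_zero ha, fun f hf => ?_⟩
    rw [hpull] at hf ⊢
    have h := mat2_mem C hlin φ hφ (p := a⁻¹) (q := 0) (r := 0) (s := a)
      (by rw [inv_mul_cancel₀ ha]; ring) hf
    have e : (fun z : L × L => f (mat2 K L a⁻¹ 0 0 a z)) =
        fun z : L × L => f (a⁻¹ * z.1, a * z.2) := by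
      funext z
      rw [mat2_apply]
      congr 2
      · ring
      · ring
    rw [← e]
    exact h

end Pltc
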