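import Mathlib
import Pool.Agent.Lib.Pltc.SAll
import Pool.Agent.Lib.Pltc.DetOne
import Pool.Agent.Lib.Pltc.Sympl

/-!
Module Pltc.FamAffine: the bound for affine groups containing `V ⋊ SL(V)` or `V ⋊ Sp(V)`.

Proof.  Transport `C` along `e : Fin n ≃ V` to `C' = pull e.symm C` (functions on `V`), a code invariant
under translations (take `g = id`, determinant `1`, resp. symplectic) and the linear maps (combine with
the translation by `-b`, or simply take `b = 0`).  `sinv_of_det`, resp. `sinv_of_sp`, gives a code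
`pull φ C'` on `K × L` (resp. `L × L`, `Algebra.id L`) with the symmetries `SInv`; the dual word transports
(`pull` along an equivalence preserves `finrank`, dual words and weights: see `pull_equiv` below) and
`sinv_bound` applies, `card = n`.  `V` is finite as `V ≃ Fin n`, and `K` is finite as `V` has dimension
`≥ 1` (an injection `K → V`).  Note `2 * q ≤ 4 * q` and `log n + 1 ≥ 1` when `n ≥ 1`.
-/

set_option autoImplicit false
open Classical

namespace Pltc

open P61e83e

/-- `pull` along an equivalence -/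
lemma pull_equiv {F X Y : Type*} [Field F] [Fintype X] [Fintype Y] (φ : Y ≃ X)
    (C : Submodule F (X → F)) (u : X → F) (hu : Dual C u) :
    Module.finrank F (pull φ C) = Module.finrank F C ∧ Dual (pull φ C) (fun y => u (φ y)) ∧
      wt (fun y => u (φ y)) = wt u := by
  have hinj : Function.Injective (LinearMap.funLeft F F (φ : Y → X)) :=
    LinearMap.funLeft_injective_of_surjective F F _ φ.surjective
  refine ⟨(Submodule.equivMapOfInjective _ hinj C).finrank_eq.symm, ?_, ?_⟩
  · intro g hg
    obtain ⟨f, hf, rfl⟩ := (mem_pull _ _ _).mp hg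
    have h := hu f hf
    rw [← Equiv.sum_comp φ] at h
    exact h
  · unfold wt
    refine Finset.card_equiv φ fun y => ?_
    simp

/-- the bound for a code on an equivalent set with the symmetries `SInv` -/
lemma bound_of_sinv {F : Type} [Field F] {q : ℕ} {c : ℝ} (hc0 : 0 ≤ c)
    {K L : Type} [Field K] [Field L] [Fintype K] [Fintype L] [Algebra K L]
    (hc : ∀ C : Submodule F (K × L → F), SInv C → ∀ u : K × L → F, u ≠ 0 → wt u ≤ q → Dual C u →
      (Module.finrank F C : ℝ) ≤ c * (Real.log (Fintype.card (K × L)) + 1) ^ (2 * q))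
    {V : Type} [Fintype V] {n : ℕ} (e : Fin n ≃ V) (C : Submodule F (Fin n → F)) (u : Fin n → F)
    (hu0 : u ≠ 0) (huq : wt u ≤ q) (hu : Dual C u) (φ : (K × L) ≃ V)
    (hS : SInv (pull φ (pull e.symm C))) :
    (Module.finrank F C : ℝ) ≤ c * (Real.log n + 1) ^ (4 * q) := by
  obtain ⟨h1, h2, h3⟩ := pull_equiv e.symm C u hu
  obtain ⟨k1, k2, k3⟩ := pull_equiv φ (pull e.symm C) _ h2
  have hne : (fun y => u (e.symm (φ y))) ≠ 0 := by
    intro h0
    apply hu0
    funext k
    have := congrFun h0 (φ.symm (e k))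
    simpa using this
  have hb := hc _ hS (fun y => u (e.symm (φ y))) hne (by rw [k3, h3]; exact huq) k2
  rw [k1, h1] at hb
  have hcard : Fintype.card (K × L) = n := by
    rw [Fintype.card_congr (φ.trans e.symm), Fintype.card_fin]
  rw [hcard] at hb
  have hlog : (0 : ℝ) ≤ Real.log n := Real.log_natCast_nonneg n
  refine hb.trans (mul_le_mul_of_nonneg_left ?_ hc0)
  exact pow_le_pow_right₀ (by linarith) (by omega)

theorem famSL (F : Type) [Field F] [Fintype F] (q : ℕ) :
    ∃ c : ℝ, 0 ≤ c ∧ ∀ (n : ℕ) (C : Submodule F (Fin n → F)) (u : Fin n → F),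
      u ≠ 0 → wt u ≤ q → Dual C u → AffineSL C →
      (Module.finrank F C : ℝ) ≤ c * (Real.log n + 1) ^ (4 * q) := by
  obtain ⟨c, hc0, hc⟩ := sinv_bound F q
  refine ⟨c, hc0, fun n C u hu0 huq hu h => ?_⟩
  obtain ⟨K, V, _, _, _, e, hd, hg⟩ := h
  have hV : Fintype V := Fintype.ofEquiv _ e
  have hnt : Nontrivial V := by
    have : Module.finrank K V ≠ 0 := by omega
    by_contra hn
    rw [not_nontrivial_iff_subsingleton] at hn
    exact this Module.finrank_zero_of_subsingleton
  obtain ⟨v, hv⟩ := exists_ne (0 : V)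
  have hK : Finite K := Finite.of_injective (fun c : K => c • v) (smul_left_injective K hv)
  have hK' : Fintype K := Fintype.ofFinite K
  have hmem : ∀ (g : V →ₗ[K] V) (b : V), LinearMap.det g = 1 → ∀ f ∈ pull e.symm C,
      (fun x => f (g x + b)) ∈ pull e.symm C := by
    intro g b hdet f hf
    obtain ⟨f', hf', rfl⟩ := (mem_pull _ _ _).mp hf
    obtain ⟨π, hπ, hπ2⟩ := hg g b hdet
    rw [mem_pull]
    refine ⟨fun k => f' (π k), hπ f' hf', ?_⟩
    funext x
    have h1 := hπ2 (e.symm x)
    rw [Equiv.apply_symm_apply] at h1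
    change f' (π (e.symm x)) = f' (e.symm (g x + b))
    rw [← h1, Equiv.symm_apply_apply]
  obtain ⟨L, _, _, _, φ, hS⟩ := sinv_of_det (F := F) hd (pull e.symm C)
    (fun f hf b => by
      have := hmem LinearMap.id b LinearMap.det_id f hf
      simpa using this)
    (fun g hdet f hf => by
      have := hmem g 0 hdet f hf
      simpa using this)
  exact bound_of_sinv hc0 (fun C hC u h1 h2 h3 => hc K L C hC u h1 h2 h3) e C u hu0 huq hu φ hS

theorem famSp (F : Type) [Field F] [Fintype F] (q : ℕ) :
    ∃ c : ℝ, 0 ≤ c ∧ ∀ (n : ℕ) (C : Submodule F (Fin n → F)) (u : Fin n → F),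
      u ≠ 0 → wt u ≤ q → Dual C u → AffineSp C →
      (Module.finrank F C : ℝ) ≤ c * (Real.log n + 1) ^ (4 * q) := by
  obtain ⟨c, hc0, hc⟩ := sinv_bound F q
  refine ⟨c, hc0, fun n C u hu0 huq hu h => ?_⟩
  obtain ⟨K, _, d, e, hd, hg⟩ := h
  have hV : Fintype ((Fin d → K) × (Fin d → K)) := Fintype.ofEquiv _ e
  have hK : Finite K := by
    refine Finite.of_injective
      (fun c : K => ((fun _ => c, 0) : (Fin d → K) × (Fin d → K))) fun a b hab => ?_
    have := congrFun (congrArg Prod.fst hab) ⟨0, hd⟩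
    exact this
  have hK' : Fintype K := Fintype.ofFinite K
  have hmem : ∀ (g : ((Fin d → K) × (Fin d → K)) →ₗ[K] ((Fin d → K) × (Fin d → K)))
      (b : (Fin d → K) × (Fin d → K)), (∀ x y, symp (g x) (g y) = symp x y) →
      ∀ f ∈ pull e.symm C, (fun x => f (g x + b)) ∈ pull e.symm C := by
    intro g b hdet f hf
    obtain ⟨f', hf', rfl⟩ := (mem_pull _ _ _).mp hf
    obtain ⟨π, hπ, hπ2⟩ := hg g b hdet
    rw [mem_pull]
    refine ⟨fun k => f' (π k), hπ f' hf', ?_⟩
    funext x
    have h1 := hπ2 (e.symm x)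
    rw [Equiv.apply_symm_apply] at h1
    change f' (π (e.symm x)) = f' (e.symm (g x + b))
    rw [← h1, Equiv.symm_apply_apply]
  obtain ⟨L, _, _, φ, hS⟩ := sinv_of_sp (F := F) d hd (pull e.symm C)
    (fun f hf b => by
      have := hmem LinearMap.id b (fun _ _ => rfl) f hf
      simpa using this)
    (fun g hdet f hf => by
      have := hmem g 0 hdet f hf
      simpa using this)
  exact bound_of_sinv hc0 (fun C hC u h1 h2 h3 => hc L L C hC u h1 h2 h3) e C u hu0 huq hu φ hS

end Pltc
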