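import Mathlib
import Pool.Agent.Lib.Pltc.Defs

/-!
Module Pltc.Cover: a code of linear distance with a transitive group is controlled by its restriction
to a subset of positive density.

Proof.  Let `G` be the finite set (subgroup) of permutations preserving `C` (`Pres.mul`, `Pres.symm`
in Lib/P61e83e/Group.lean), `B = range j`.  For `x : Fin n` the number `N` of `g ∈ G` with `g x ∈ B`
does not depend on `x` (`g ↦ g * h` is a bijection of `G`, `h x₀ = x`).  Summing over `x`:
`n N = |G| |B|`.  So for a set `U` of coordinates some `g ∈ G` satisfies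
`|{x ∈ U | g x ∈ B}| * n ≥ |U| * |B|`, hence (as `n ≤ b |B|`) `|{x ∈ U | g x ∉ B}| ≤ (1 - 1/b) |U|`.
Claim, by induction on `k`: if `|U| (1 - 1/b)^k < δ n` then the subspace `C_U` of the words of `C`
vanishing outside `U` has dimension at most `k * finrank (pull j C)`.  `k = 0`: `C_U = 0` by the
distance hypothesis.  Step: with `g` as above, `f ↦ (y ↦ f (g⁻¹ (j y)))` maps `C_U` to `pull j C`
linearly and its kernel is contained in `C_{U'}`, `U' = {x ∈ U | g x ∉ B}`.  Finally take `U = univ` (the case `n = 0` is trivial).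
-/

set_option autoImplicit false
open Classical

namespace Pltc

open P61e83e

/-- the words of `C` vanishing outside `U` -/
def supp {F : Type*} [Field F] {n : ℕ} (C : Submodule F (Fin n → F)) (U : Finset (Fin n)) :
    Submodule F (Fin n → F) where
  carrier := {f | f ∈ C ∧ ∀ x, x ∉ U → f x = 0}
  add_mem' := by
    rintro f g ⟨hf, hf'⟩ ⟨hg, hg'⟩
    exact ⟨C.add_mem hf hg, fun x hx => by simp [hf' x hx, hg' x hx]⟩
  zero_mem' := ⟨C.zero_mem, fun _ _ => rfl⟩
  smul_mem' := by
    rintro c f ⟨hf, hf'⟩
    exact ⟨C.smul_mem c hf, fun x hx => by simp [hf' x hx]⟩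

lemma mem_supp {F : Type*} [Field F] {n : ℕ} (C : Submodule F (Fin n → F)) (U : Finset (Fin n))
    (f : Fin n → F) : f ∈ supp C U ↔ f ∈ C ∧ ∀ x, x ∉ U → f x = 0 := Iff.rfl

/-- the averaging step -/
lemma exists_good_perm {F : Type*} [Field F] {n : ℕ} (C : Submodule F (Fin n → F))
    (htr : ∀ x y : Fin n, ∃ π : Equiv.Perm (Fin n), Pres C π ∧ π x = y)
    (B : Finset (Fin n)) (b : ℕ) (hn : n ≤ b * B.card) (U : Finset (Fin n)) :
    ∃ g : Equiv.Perm (Fin n), Pres C g ∧ U.card ≤ b * (U.filter fun x => g x ∈ B).card := by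
  rcases U.eq_empty_or_nonempty with hU | ⟨u, hu⟩
  · exact ⟨1, fun f hf => hf, by simp [hU]⟩
  have hn0 : 0 < n := u.pos
  set G : Finset (Equiv.Perm (Fin n)) := Finset.univ.filter fun g => Pres C g with hG
  set N : Fin n → ℕ := fun x => (G.filter fun g => g x ∈ B).card with hN
  have hNle : ∀ x y, N y ≤ N x := by
    intro x y
    obtain ⟨h, hh, hxy⟩ := htr x y
    refine Finset.card_le_card_of_injOn (fun g => g * h) ?_ ?_
    · intro g hg
      simp only [hG, Finset.coe_filter, Finset.mem_filter, Finset.mem_univ, true_and,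
        Set.mem_ofPred_eq] at hg ⊢
      refine ⟨hg.1.mul hh, ?_⟩
      rw [Equiv.Perm.mul_apply, hxy]
      exact hg.2
    · intro g _ g' _ hgg
      exact mul_right_cancel hgg
  have hNeq : ∀ x, N x = N u := fun x => le_antisymm (hNle u x) (hNle x u)
  have hsum : ∀ W : Finset (Fin n),
      ∑ g ∈ G, (W.filter fun x => g x ∈ B).card = W.card * N u := by
    intro W
    have h1 : ∑ g ∈ G, (W.filter fun x => g x ∈ B).card = ∑ x ∈ W, N x := by
      simp only [hN, Finset.card_filter]
      rw [Finset.sum_comm]
    rw [h1, Finset.sum_congr rfl fun x _ => hNeq x, Finset.sum_const, smul_eq_mul]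
  have htot : G.card * B.card = n * N u := by
    have h1 := hsum Finset.univ
    rw [Finset.card_univ, Fintype.card_fin] at h1
    rw [← h1, ← smul_eq_mul, ← Finset.sum_const]
    refine Finset.sum_congr rfl fun g _ => ?_
    refine Finset.card_bij (fun x _ => g.symm x) ?_ ?_ ?_
    · intro x hx
      simp [hx]
    · intro x _ y _ hxy
      exact g.symm.injective hxy
    · intro y hy
      refine ⟨g y, ?_, by simp⟩
      simpa using hy
  have hGne : G.Nonempty := ⟨1, by simp [hG]; exact fun f hf => hf⟩
  have hGpos : 0 < G.card := hGne.card_pos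
  -- an element at least as good as the average
  by_contra hcon
  push Not at hcon
  have h2 : ∀ g ∈ G, b * (U.filter fun x => g x ∈ B).card < U.card := by
    intro g hg
    exact hcon g (by simpa [hG] using hg)
  have h3 : ∑ g ∈ G, b * (U.filter fun x => g x ∈ B).card < ∑ _g ∈ G, U.card :=
    Finset.sum_lt_sum_of_nonempty hGne h2
  rw [← Finset.mul_sum, hsum U, Finset.sum_const, smul_eq_mul] at h3
  have h4 : n * (b * (U.card * N u)) < n * (G.card * U.card) := Nat.mul_lt_mul_of_pos_left h3 hn0
  have h5 : n * (b * (U.card * N u)) = b * U.card * (G.card * B.card) := by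
    rw [htot]; ring
  have h6 : n * (G.card * U.card) ≤ b * U.card * (G.card * B.card) := by
    calc n * (G.card * U.card) ≤ (b * B.card) * (G.card * U.card) := Nat.mul_le_mul_right _ hn
      _ = b * U.card * (G.card * B.card) := by ring
  omega

lemma cover_aux {F : Type*} [Field F] {n : ℕ} (C : Submodule F (Fin n → F))
    (htr : ∀ x y : Fin n, ∃ π : Equiv.Perm (Fin n), Pres C π ∧ π x = y)
    {Y : Type*} [Fintype Y] (j : Y → Fin n) (hj : Function.Injective j) (b : ℕ) (hb : 1 ≤ b)
    (hn : n ≤ b * Fintype.card Y) (δ : ℝ)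
    (hδ : ∀ f ∈ C, f ≠ 0 → δ * n ≤ (wt f : ℝ)) (k : ℕ) :
    ∀ U : Finset (Fin n), (U.card : ℝ) * (1 - 1 / (b : ℝ)) ^ k < δ * n →
      Module.finrank F (supp C U) ≤ k * Module.finrank F (pull j C) := by
  induction k with
  | zero =>
    intro U hU
    rw [pow_zero, mul_one] at hU
    have hbot : supp C U = ⊥ := by
      rw [eq_bot_iff]
      intro f hf
      rw [Submodule.mem_bot]
      by_contra hf0
      have h1 := hδ f hf.1 hf0
      have h2 : wt f ≤ U.card := by
        refine Finset.card_le_card fun x hx => ?_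
        rw [Finset.mem_filter] at hx
        by_contra hxU
        exact hx.2 (hf.2 x hxU)
      have h3 : (wt f : ℝ) ≤ U.card := by exact_mod_cast h2
      linarith
    rw [hbot, finrank_bot]
    omega
  | succ k ih =>
    intro U hU
    set B : Finset (Fin n) := Finset.univ.image j with hB
    have hBc : B.card = Fintype.card Y := by
      rw [hB, Finset.card_image_of_injective _ hj, Finset.card_univ]
    obtain ⟨g, hg, hgU⟩ := exists_good_perm C htr B b (by rw [hBc]; exact hn) U
    set U' : Finset (Fin n) := U.filter fun x => g x ∉ B with hU'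
    have hcard : (U.filter fun x => g x ∈ B).card + U'.card = U.card :=
      Finset.card_filter_add_card_filter_not _
    have hbR : (1 : ℝ) ≤ b := by exact_mod_cast hb
    have hb0 : (0 : ℝ) < b := by linarith
    have hle : (U'.card : ℝ) ≤ U.card * (1 - 1 / (b : ℝ)) := by
      have h1 : ((U.filter fun x => g x ∈ B).card : ℝ) + U'.card = U.card := by
        exact_mod_cast hcard
      have h2 : (U.card : ℝ) ≤ b * (U.filter fun x => g x ∈ B).card := by exact_mod_cast hgU
      have h3 : (U.card : ℝ) / b ≤ (U.filter fun x => g x ∈ B).card := by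
        rw [div_le_iff₀ hb0]; linarith
      have h4 : (U.card : ℝ) * (1 - 1 / (b : ℝ)) = U.card - U.card / b := by ring
      rw [h4]
      linarith
    have hnn : (0 : ℝ) ≤ 1 - 1 / (b : ℝ) := by
      have : 1 / (b : ℝ) ≤ 1 := by rw [div_le_one hb0]; exact hbR
      linarith
    have hih := ih U' (by
      refine lt_of_le_of_lt ?_ hU
      calc (U'.card : ℝ) * (1 - 1 / (b : ℝ)) ^ k
          ≤ (U.card * (1 - 1 / (b : ℝ))) * (1 - 1 / (b : ℝ)) ^ k := by gcongr
        _ = U.card * (1 - 1 / (b : ℝ)) ^ (k + 1) := by ring)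
    have hgs : Pres C g.symm := hg.symm
    -- the restriction map
    let T : supp C U →ₗ[F] pull j C :=
      { toFun := fun f => ⟨fun y => (f : Fin n → F) (g.symm (j y)),
          (mem_pull j C _).mpr ⟨fun z => (f : Fin n → F) (g.symm z), hgs _ f.2.1, rfl⟩⟩
        map_add' := fun _ _ => rfl
        map_smul' := fun _ _ => rfl }
    have hker : Module.finrank F (LinearMap.ker T) ≤ Module.finrank F (supp C U') := by
      have hmem : ∀ f : LinearMap.ker T,
          ((supp C U).subtype ∘ₗ (LinearMap.ker T).subtype) f ∈ supp C U' := by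
        intro f
        refine ⟨f.1.2.1, fun x hx => ?_⟩
        by_cases hxU : x ∈ U
        · have hgx : g x ∈ B := by
            by_contra hgx
            exact hx (Finset.mem_filter.mpr ⟨hxU, hgx⟩)
          rw [hB, Finset.mem_image] at hgx
          obtain ⟨y, _, hy⟩ := hgx
          have h1 : T f.1 = 0 := LinearMap.mem_ker.mp f.2
          have h2 : (T f.1 : Y → F) y = 0 := by rw [h1]; rfl
          have h3 : (T f.1 : Y → F) y = (f.1 : Fin n → F) (g.symm (j y)) := rfl
          rw [h3, hy, Equiv.symm_apply_apply] at h2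
          exact h2
        · exact f.1.2.2 x hxU
      refine LinearMap.finrank_le_finrank_of_injective
        (f := LinearMap.codRestrict (supp C U')
          ((supp C U).subtype ∘ₗ (LinearMap.ker T).subtype) hmem) ?_
      intro a a' haa
      have h1 := congrArg Subtype.val haa
      exact Subtype.ext (Subtype.ext h1)
    have hrange : Module.finrank F (LinearMap.range T) ≤ Module.finrank F (pull j C) :=
      Submodule.finrank_le _
    have hrk := LinearMap.finrank_range_add_finrank_ker T
    rw [add_mul, one_mul]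
    omega

theorem cover_bound {F : Type*} [Field F] {n : ℕ} (C : Submodule F (Fin n → F))
    (htr : ∀ x y : Fin n, ∃ π : Equiv.Perm (Fin n), Pres C π ∧ π x = y)
    {Y : Type*} [Fintype Y] (j : Y → Fin n) (hj : Function.Injective j) (b : ℕ) (hb : 1 ≤ b)
    (hn : n ≤ b * Fintype.card Y) (δ : ℝ)
    (hδ : ∀ f ∈ C, f ≠ 0 → δ * n ≤ (wt f : ℝ)) (k : ℕ) (hk : (1 - 1 / (b : ℝ)) ^ k < δ) :
    Module.finrank F C ≤ k * Module.finrank F (pull j C) := by
  rcases Nat.eq_zero_or_pos n with hn0 | hn0
  · subst hn0
    have : Module.finrank F C ≤ Module.finrank F (Fin 0 → F) := Submodule.finrank_le _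
    rw [Module.finrank_fin_fun] at this
    omega
  have h := cover_aux C htr j hj b hb hn δ hδ k Finset.univ (by
    rw [Finset.card_univ, Fintype.card_fin, mul_comm]
    have : (0 : ℝ) < n := by exact_mod_cast hn0
    exact mul_lt_mul_of_pos_right hk this)
  have hC : supp C Finset.univ = C := by
    ext f
    rw [mem_supp]
    simp
  rwa [hC] at h

end Pltc
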