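import Mathlib
import Pool.Agent.Lib.Pltc.Defs

/-!
Module Pltc.PGroup: doubly transitive codes with a `p`-group fixing a point and transitive on the
others, `p` the characteristic of `F`; and codes with alternating symmetries.

Proof of `natural_dichotomy`.  Let `N = {f ∈ C | ∑ f = 0}`.  If `N = ⊥` the functional `∑` is injective
on `C`, so `finrank ≤ 1`.  Otherwise `P` acts on the finite set `N` (`|N|` is a positive power of `p`
as `F` is finite of characteristic `p`) by `f ↦ f ∘ π⁻¹` and fixes `0`; by
`IsPGroup.exists_fixed_point_of_prime_dvd_card_of_fixed_point` it fixes some `f ≠ 0` of `N`.  Then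
`f = b` off `i₀` and `f i₀ = a`; the number `n - 1` of points other than `i₀` is the size of an orbit
of `P`, so a power of `p` (`IsPGroup.card_orbit`); if it is `1` then `n ≤ 2` and `f` has weight `≤ 2`;
if it is divisible by `p` then `0 = ∑ f = a`, so `f = b` off `i₀`, `0` at `i₀`, `b ≠ 0`.  Move `i₀` to
another point by some `π` preserving `C` (double transitivity): `f - f ∘ π` is supported on two points
and nonzero.  (If `n = 1` everything is trivial: finrank ≤ 1.)

Proof of `alternating_dichotomy`.  If all words of `C` are constant then `finrank ≤ 1`.  Otherwise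
`f i ≠ f j` for some `f ∈ C`; if `n ≤ 3` the word `f` has weight `≤ 3`; otherwise take a third point
`k` and `π` = the 3-cycle `i → j → k → i` (`Equiv.swap i j * Equiv.swap j k` or similar): `f ∘ π - f` is
supported in `{i, j, k}` and nonzero.
-/

set_option autoImplicit false
open Classical

namespace Pltc

open P61e83e

lemma wt_le_two {F : Type} [Field F] {n : ℕ} (w : Fin n → F) (i j : Fin n)
    (h : ∀ k, k ≠ i → k ≠ j → w k = 0) : wt w ≤ 2 := by
  unfold wt
  refine (Finset.card_le_card (t := {i, j}) fun k hk => ?_).trans Finset.card_le_two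
  rw [Finset.mem_filter] at hk
  rw [Finset.mem_insert, Finset.mem_singleton]
  by_contra hcon
  push Not at hcon
  exact hk.2 (h k hcon.1 hcon.2)

lemma wt_le_three {F : Type} [Field F] {n : ℕ} (w : Fin n → F) (i j l : Fin n)
    (h : ∀ k, k ≠ i → k ≠ j → k ≠ l → w k = 0) : wt w ≤ 3 := by
  unfold wt
  refine (Finset.card_le_card (t := {i, j, l}) fun k hk => ?_).trans Finset.card_le_three
  rw [Finset.mem_filter] at hk
  rw [Finset.mem_insert, Finset.mem_insert, Finset.mem_singleton]
  by_contra hcon
  push Not at hcon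
  exact hk.2 (h k hcon.1 hcon.2.1 hcon.2.2)

lemma wt_le_n {F : Type} [Field F] {n : ℕ} (w : Fin n → F) : wt w ≤ n := by
  unfold wt
  refine (Finset.card_filter_le _ _).trans ?_
  simp

lemma finrank_le_one_of_injective {F : Type} [Field F] {n : ℕ} (C : Submodule F (Fin n → F))
    (T : C →ₗ[F] F) (h : Function.Injective T) : Module.finrank F C ≤ 1 := by
  have := LinearMap.finrank_le_finrank_of_injective h
  rwa [Module.finrank_self] at this

/-- the words of sum zero -/
def zeroSum {F : Type} [Field F] {n : ℕ} (C : Submodule F (Fin n → F)) :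
    Submodule F (Fin n → F) where
  carrier := {f | f ∈ C ∧ ∑ k, f k = 0}
  add_mem' := by
    rintro a b ⟨ha, ha'⟩ ⟨hb, hb'⟩
    refine ⟨C.add_mem ha hb, ?_⟩
    simp only [Pi.add_apply, Finset.sum_add_distrib, ha', hb', add_zero]
  zero_mem' := ⟨C.zero_mem, by simp⟩
  smul_mem' := by
    rintro c a ⟨ha, ha'⟩
    refine ⟨C.smul_mem c ha, ?_⟩
    simp only [Pi.smul_apply, smul_eq_mul, ← Finset.mul_sum, ha', mul_zero]

/-- the action of a group of symmetries on the words of sum zero -/
@[reducible] def zeroSumAction {F : Type} [Field F] {n : ℕ} (C : Submodule F (Fin n → F))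
    (P : Subgroup (Equiv.Perm (Fin n))) (hP : ∀ π ∈ P, Pres C π) :
    MulAction P (zeroSum C) where
  smul π f := ⟨fun k => (f : Fin n → F) (((π⁻¹ : P) : Equiv.Perm (Fin n)) k), by
    refine ⟨hP _ (π⁻¹ : P).2 _ f.2.1, ?_⟩
    rw [Equiv.sum_comp ((π⁻¹ : P) : Equiv.Perm (Fin n)) (f : Fin n → F)]
    exact f.2.2⟩
  one_smul f := by
    apply Subtype.ext
    funext k
    show (f : Fin n → F) ((((1 : P)⁻¹ : P) : Equiv.Perm (Fin n)) k) = f.1 k
    simp
  mul_smul π ρ f := by
    apply Subtype.ext
    funext k
    show (f : Fin n → F) ((((π * ρ)⁻¹ : P) : Equiv.Perm (Fin n)) k)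
      = (f : Fin n → F) (((ρ⁻¹ : P) : Equiv.Perm (Fin n)) (((π⁻¹ : P) : Equiv.Perm (Fin n)) k))
    simp

theorem natural_dichotomy {F : Type} [Field F] [Fintype F] {n : ℕ} (C : Submodule F (Fin n → F))
    (hG : DoublyTrans C) (h : NaturalRankOne C) :
    (∃ w ∈ C, w ≠ 0 ∧ wt w ≤ 2) ∨ Module.finrank F C ≤ 1 := by
  obtain ⟨i₀, P, hPp, hP, htr⟩ := h
  set p := ringChar F with hp
  have hprime : Fact p.Prime := ⟨CharP.char_is_prime F p⟩
  by_cases hN : zeroSum C = ⊥
  · right
    refine finrank_le_one_of_injective C
      { toFun := fun f => ∑ k, (f : Fin n → F) k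
        map_add' := fun f g => by simp [Finset.sum_add_distrib]
        map_smul' := fun c f => by simp [Finset.mul_sum] } ?_
    rw [injective_iff_map_eq_zero]
    intro f hf
    have h1 : (f : Fin n → F) ∈ zeroSum C := ⟨f.2, hf⟩
    rw [hN, Submodule.mem_bot] at h1
    exact Subtype.ext h1
  · left
    letI : MulAction P (zeroSum C) := zeroSumAction C P fun π hπ => (hP π hπ).1
    have hdvd : p ∣ Nat.card (zeroSum C) := by
      obtain ⟨x, hx, hx0⟩ := Submodule.exists_mem_ne_zero_of_ne_bot hN
      have h1 : addOrderOf (⟨x, hx⟩ : zeroSum C) = p := by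
        apply addOrderOf_eq_prime
        · apply Subtype.ext
          funext k
          show (p • x) k = 0
          rw [Pi.smul_apply, nsmul_eq_mul, CharP.cast_eq_zero F p, zero_mul]
        · intro h2
          exact hx0 (congrArg Subtype.val h2)
      rw [← h1]
      exact addOrderOf_dvd_natCard _
    have hfix0 : (0 : zeroSum C) ∈ MulAction.fixedPoints P (zeroSum C) := by
      intro π
      apply Subtype.ext
      rfl
    obtain ⟨f, hf, hf0⟩ := hPp.exists_fixed_point_of_prime_dvd_card_of_fixed_point _ hdvd hfix0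
    have hfC : (f : Fin n → F) ∈ C := f.2.1
    have hfs : ∑ k, (f : Fin n → F) k = 0 := f.2.2
    have hfne : (f : Fin n → F) ≠ 0 := fun h0 => hf0 (Subtype.ext h0.symm)
    have hconst : ∀ i j, i ≠ i₀ → j ≠ i₀ → (f : Fin n → F) i = (f : Fin n → F) j := by
      intro i j hi hj
      obtain ⟨π, hπ, hij⟩ := htr i j hi hj
      have h1 := congrFun (congrArg Subtype.val (hf ⟨π, hπ⟩)) j
      have h2 : (f : Fin n → F) (((⟨π, hπ⟩⁻¹ : P) : Equiv.Perm (Fin n)) j) = (f : Fin n → F) j := h1
      rw [← h2]
      congr 1
      rw [← hij]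
      simp
    by_cases hn2 : n ≤ 2
    · exact ⟨f, hfC, hfne, (wt_le_n _).trans hn2⟩
    · push Not at hn2
      obtain ⟨i, hi⟩ : ∃ i : Fin n, i ≠ i₀ := by
        have : Nontrivial (Fin n) := Fin.nontrivial_iff_two_le.2 (by omega)
        exact exists_ne i₀
      have horb : MulAction.orbit P i = {i₀}ᶜ := by
        ext j
        rw [MulAction.mem_orbit_iff, Set.mem_compl_iff, Set.mem_singleton_iff]
        constructor
        · rintro ⟨π, rfl⟩ hcon
          have h1 : (π : Equiv.Perm (Fin n)) i = i₀ := hcon
          rw [← (hP π π.2).2] at h1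
          exact hi ((π : Equiv.Perm (Fin n)).injective h1)
        · intro hj
          obtain ⟨π, hπ, hij⟩ := htr i j hi hj
          exact ⟨⟨π, hπ⟩, hij⟩
      obtain ⟨m, hm⟩ := hPp.card_orbit i
      rw [horb] at hm
      have hcard : Nat.card (({i₀}ᶜ : Set (Fin n))) = n - 1 := by
        rw [Nat.card_eq_fintype_card, Fintype.card_compl_set]
        simp
      rw [hcard] at hm
      have hm0 : m ≠ 0 := by
        rintro rfl
        rw [pow_zero] at hm
        omega
      have hdvd' : p ∣ n - 1 := by
        rw [hm]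
        exact dvd_pow_self p hm0
      have hcast : ((n - 1 : ℕ) : F) = 0 := (CharP.cast_eq_zero_iff F p _).2 hdvd'
      have hzero : (f : Fin n → F) i₀ = 0 := by
        have h1 : ∑ k, (f : Fin n → F) k = (f : Fin n → F) i₀
            + ∑ k ∈ Finset.univ.erase i₀, (f : Fin n → F) k :=
          (Finset.add_sum_erase _ _ (Finset.mem_univ i₀)).symm
        have h2 : ∑ k ∈ Finset.univ.erase i₀, (f : Fin n → F) k
            = ∑ k ∈ Finset.univ.erase i₀, (f : Fin n → F) i := by
          refine Finset.sum_congr rfl fun k hk => ?_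
          exact hconst k i (Finset.ne_of_mem_erase hk) hi
        rw [h1, h2, Finset.sum_const, Finset.card_erase_of_mem (Finset.mem_univ _),
          Finset.card_univ, Fintype.card_fin, nsmul_eq_mul, hcast, zero_mul, add_zero] at hfs
        exact hfs
      have hb : (f : Fin n → F) i ≠ 0 := by
        intro h0
        apply hfne
        funext k
        by_cases hk : k = i₀
        · rw [hk]
          exact hzero
        · rw [hconst k i hk hi]
          exact h0
      obtain ⟨π, hπ, hπ1, hπ2⟩ := hG i₀ i i i₀ hi.symm hi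
      have hg := hπ _ hfC
      refine ⟨(f : Fin n → F) - (fun z => (f : Fin n → F) (π z)), C.sub_mem hfC hg, ?_, ?_⟩
      · intro h0
        have h1 := congrFun h0 i₀
        simp only [Pi.sub_apply, Pi.zero_apply] at h1
        rw [hπ1, hzero, zero_sub, neg_eq_zero] at h1
        exact hb h1
      · apply wt_le_two _ i₀ i
        intro k hk1 hk2
        have h1 : π k ≠ i₀ := by
          intro h2
          rw [← hπ2] at h2
          exact hk2 (π.injective h2)
        simp only [Pi.sub_apply]
        rw [hconst k i hk1 hi, hconst (π k) i h1 hi, sub_self]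

theorem alternating_dichotomy {F : Type} [Field F] {n : ℕ} (C : Submodule F (Fin n → F))
    (h : Alternating C) :
    (∃ w ∈ C, w ≠ 0 ∧ wt w ≤ 3) ∨ Module.finrank F C ≤ 1 := by
  by_cases hc : ∃ f ∈ C, ∃ i j : Fin n, f i ≠ f j
  · left
    obtain ⟨f, hf, i, j, hij⟩ := hc
    have hne : i ≠ j := fun h0 => hij (by rw [h0])
    by_cases hn : n ≤ 3
    · refine ⟨f, hf, ?_, (wt_le_n f).trans hn⟩
      rintro rfl
      exact hij rfl
    · push Not at hn
      obtain ⟨k, hk⟩ : ∃ k : Fin n, k ∉ ({i, j} : Finset (Fin n)) := by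
        by_contra hcon
        push Not at hcon
        have h1 : (Finset.univ : Finset (Fin n)) ⊆ {i, j} := fun k _ => hcon k
        have h2 := (Finset.card_le_card h1).trans Finset.card_le_two
        rw [Finset.card_univ, Fintype.card_fin] at h2
        omega
      rw [Finset.mem_insert, Finset.mem_singleton] at hk
      push Not at hk
      have hmem : Equiv.swap i j * Equiv.swap j k ∈ alternatingGroup (Fin n) := by
        rw [Equiv.Perm.mem_alternatingGroup, Equiv.Perm.sign_mul, Equiv.Perm.sign_swap hne,
          Equiv.Perm.sign_swap hk.2.symm]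
        rfl
      have hg := h _ hmem f hf
      refine ⟨(fun z => f ((Equiv.swap i j * Equiv.swap j k) z)) - f, C.sub_mem hg hf, ?_, ?_⟩
      · intro h0
        have h1 := congrFun h0 i
        simp only [Pi.sub_apply, Pi.zero_apply, Equiv.Perm.mul_apply] at h1
        rw [Equiv.swap_apply_of_ne_of_ne hne hk.1.symm, Equiv.swap_apply_left, sub_eq_zero] at h1
        exact hij h1.symm
      · apply wt_le_three _ i j k
        intro l h1 h2 h3
        simp only [Pi.sub_apply, Equiv.Perm.mul_apply]
        rw [Equiv.swap_apply_of_ne_of_ne h2 h3, Equiv.swap_apply_of_ne_of_ne h1 h2, sub_self]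
  · right
    push Not at hc
    rcases Nat.eq_zero_or_pos n with rfl | hn
    · refine finrank_le_one_of_injective C 0 ?_
      intro a b _
      apply Subtype.ext
      funext k
      exact k.elim0
    · refine finrank_le_one_of_injective C
        { toFun := fun f => (f : Fin n → F) ⟨0, hn⟩
          map_add' := fun f g => rfl
          map_smul' := fun c f => rfl } ?_
      intro a b hab
      apply Subtype.ext
      funext k
      rw [hc a a.2 k ⟨0, hn⟩, hc b b.2 k ⟨0, hn⟩]
      exact hab

end Pltc
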