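import Mathlib
import Pool.Agent.Lib.Pltc.Defs
import Pool.Agent.Lib.Pltc.Ext

/-!
Module Pltc.ProjChart: the affine chart of a projective space.

Proof.  Choose a vector space `V'` with `dim V' + 1 = dim V` (for instance `Fin (d - 1) → K`) and
`φ : (K × V') ≃ₗ[K] V`.  `j x = pt (φ (1, x))`: injective by `h2`.  A point outside the chart is
`pt (φ (0, y))`.  Translations by `b`: the linear map `(c, y) ↦ (c, y + c • b)` (its `p`-th power is `1`,
so determinant `1`: `det_eq_one_of_pow`), it fixes the points `pt (φ (0, y))`.  For `c * det A = 1` the map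
`(x₀, x) ↦ (c x₀, A x)` has determinant `1` (`LinearMap.det_prodMap`) and sends `pt (φ (1, x))` to
`pt (φ (c, A x)) = pt (φ (1, c⁻¹ • A x))`.  Conjugation: `LinearMap.det_conj`.
Number of points: with `Q = |K|`, `N = |V'| = Q^(d-1)`, every point is `pt (φ (1, x))` or
`pt (φ (0, y))`, `y ≠ 0`; the second kind gives at most `(N - 1)/(Q - 1) ≤ N` points: the map
`y ↦ pt (φ (0, y))` from `V' - 0` hits them all, so `n ≤ N + (N - 1) ≤ 2 N`.
If `dim V' = 1` the complement of the chart is a single point (all nonzero `y` are proportional).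
-/

set_option autoImplicit false
open Classical

namespace Pltc

open P61e83e

theorem proj_chart {F : Type} [Field F] {n : ℕ} (C : Submodule F (Fin n → F))
    (K V : Type) [Field K] [Finite K] [AddCommGroup V] [Module K V] (pt : V → Fin n)
    (hd : 2 ≤ Module.finrank K V) (h1 : ∀ i, ∃ v : V, v ≠ 0 ∧ pt v = i)
    (h2 : ∀ v w : V, v ≠ 0 → w ≠ 0 → (pt v = pt w ↔ ∃ c : K, w = c • v))
    (h3 : ∀ g : V →ₗ[K] V, LinearMap.det g = 1 →
      ∃ π : Equiv.Perm (Fin n), Pres C π ∧ ∀ v : V, v ≠ 0 → π (pt v) = pt (g v)) :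
    ∃ (V' : Type) (_ : AddCommGroup V') (_ : Module K V') (_ : Fintype V') (j : V' → Fin n),
      Module.finrank K V' + 1 = Module.finrank K V ∧ Function.Injective j ∧
      n ≤ 2 * Fintype.card V' ∧
      (∀ b : V', ∃ π : Equiv.Perm (Fin n), Pres C π ∧ (∀ x, π (j x) = j (x + b)) ∧
        ∀ i, (∀ x, j x ≠ i) → π i = i) ∧
      (∀ (c : K) (A : V' →ₗ[K] V'), c ≠ 0 → c * LinearMap.det A = 1 →
        ∃ π : Equiv.Perm (Fin n), Pres C π ∧ ∀ x, π (j x) = j (c⁻¹ • A x)) ∧
      (Module.finrank K V' = 1 → ∃ i₀, (∀ x, j x ≠ i₀) ∧ ∀ i, i ≠ i₀ → ∃ x, j x = i) := by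
  have hfin : Module.Finite K V := Module.finite_of_finrank_pos (by omega)
  set m := Module.finrank K V - 1 with hm
  have hfr : Module.finrank K (K × (Fin m → K)) = Module.finrank K V := by
    rw [Module.finrank_prod, Module.finrank_self, Module.finrank_fin_fun]
    omega
  obtain ⟨φ⟩ : Nonempty ((K × (Fin m → K)) ≃ₗ[K] V) := ⟨LinearEquiv.ofFinrankEq _ _ hfr⟩
  have hne1 : ∀ x : Fin m → K, φ (1, x) ≠ 0 := by
    intro x h
    rw [LinearEquiv.map_eq_zero_iff] at h
    exact one_ne_zero (congrArg Prod.fst h)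
  have hne0 : ∀ y : Fin m → K, y ≠ 0 → φ (0, y) ≠ 0 := by
    intro y hy h
    rw [LinearEquiv.map_eq_zero_iff] at h
    exact hy (congrArg Prod.snd h)
  have hcase : ∀ i, (∃ x, pt (φ (1, x)) = i) ∨ ∃ y : Fin m → K, y ≠ 0 ∧ pt (φ (0, y)) = i := by
    intro i
    obtain ⟨v, hv, hvi⟩ := h1 i
    obtain ⟨⟨c, y⟩, rfl⟩ := φ.surjective v
    by_cases hc : c = 0
    · subst hc
      refine Or.inr ⟨y, ?_, hvi⟩
      rintro rfl
      exact hv (by rw [LinearEquiv.map_eq_zero_iff]; rfl)
    · refine Or.inl ⟨c⁻¹ • y, ?_⟩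
      rw [← hvi, h2 _ _ (hne1 _) hv]
      refine ⟨c, ?_⟩
      rw [← map_smul]
      congr 1
      ext
      · simp
      · simp [hc]
  have hπ : ∀ (g0 : (K × (Fin m → K)) →ₗ[K] (K × (Fin m → K))), LinearMap.det g0 = 1 →
      ∃ π : Equiv.Perm (Fin n), Pres C π ∧ ∀ z, φ z ≠ 0 → π (pt (φ z)) = pt (φ (g0 z)) := by
    intro g0 hg0
    obtain ⟨π, hp, hq⟩ := h3 ((φ : (K × (Fin m → K)) →ₗ[K] V) ∘ₗ g0 ∘ₗ
      (φ.symm : V →ₗ[K] (K × (Fin m → K)))) (by rw [LinearMap.det_conj]; exact hg0)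
    refine ⟨π, hp, fun z hz => ?_⟩
    rw [hq _ hz]
    simp
  refine ⟨Fin m → K, inferInstance, inferInstance, Fintype.ofFinite _,
    fun x => pt (φ (1, x)), ?_, ?_, ?_, ?_, ?_, ?_⟩
  · rw [Module.finrank_fin_fun]
    omega
  · intro x y hxy
    rw [h2 _ _ (hne1 _) (hne1 _)] at hxy
    obtain ⟨c, hc⟩ := hxy
    rw [← map_smul] at hc
    have := φ.injective hc
    have hc1 : c = 1 := by
      have := congrArg Prod.fst this
      simpa using this.symm
    have := congrArg Prod.snd this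
    subst hc1
    simpa using this.symm
  · have hsurj : Function.Surjective (Sum.elim (fun x : Fin m → K => pt (φ (1, x)))
        (fun y : Fin m → K => pt (φ (0, y)))) := by
      intro i
      rcases hcase i with ⟨x, hx⟩ | ⟨y, -, hy⟩
      · exact ⟨Sum.inl x, hx⟩
      · exact ⟨Sum.inr y, hy⟩
    letI : Fintype (Fin m → K) := Fintype.ofFinite _
    have h := Fintype.card_le_of_surjective _ hsurj
    rw [Fintype.card_fin, Fintype.card_sum] at h
    rw [two_mul]
    exact h
  · intro b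
    obtain ⟨p, hp⟩ := CharP.exists K
    haveI : Fact p.Prime := ⟨CharP.char_is_prime K p⟩
    let g0 : (K × (Fin m → K)) →ₗ[K] (K × (Fin m → K)) :=
      LinearMap.prod (LinearMap.fst K K (Fin m → K))
        (LinearMap.snd K K (Fin m → K) + (LinearMap.fst K K (Fin m → K)).smulRight b)
    have hg0 : ∀ z, g0 z = (z.1, z.2 + z.1 • b) := fun z => rfl
    have hpow : ∀ (k : ℕ) z, (g0 ^ k) z = (z.1, z.2 + (k : K) • z.1 • b) := by
      intro k
      induction k with
      | zero => intro z; simp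
      | succ k ih =>
        intro z
        rw [pow_succ, Module.End.mul_apply, ih, hg0]
        ext
        · rfl
        · simp only [Nat.cast_add, Nat.cast_one, Pi.add_apply, Pi.smul_apply, smul_eq_mul]
          ring
    have hdet : LinearMap.det g0 = 1 := by
      refine det_eq_one_of_pow p g0 ?_
      refine LinearMap.ext fun z => ?_
      rw [hpow, CharP.cast_eq_zero]
      simp
    obtain ⟨π, hp1, hp2⟩ := hπ g0 hdet
    refine ⟨π, hp1, fun x => ?_, fun i hi => ?_⟩
    · rw [hp2 _ (hne1 x), hg0]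
      simp
    · rcases hcase i with ⟨x, hx⟩ | ⟨y, hy, hyi⟩
      · exact absurd hx (hi x)
      · rw [← hyi, hp2 _ (hne0 y hy), hg0]
        simp
  · intro c A hc hcA
    have hdet : LinearMap.det ((c • (LinearMap.id : K →ₗ[K] K)).prodMap A) = 1 := by
      rw [LinearMap.det_prodMap, LinearMap.det_smul]
      simpa using hcA
    obtain ⟨π, hp1, hp2⟩ := hπ _ hdet
    refine ⟨π, hp1, fun x => ?_⟩
    have e : φ ((c • (LinearMap.id : K →ₗ[K] K)).prodMap A (1, x)) =
        c • φ (1, c⁻¹ • A x) := by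
      rw [← map_smul]
      congr 1
      ext
      · simp
      · simp [hc]
    have hne : c • φ (1, c⁻¹ • A x) ≠ 0 := smul_ne_zero hc (hne1 _)
    show π (pt (φ (1, x))) = pt (φ (1, c⁻¹ • A x))
    rw [hp2 _ (hne1 x), e, eq_comm, h2 _ _ (hne1 _) hne]
    exact ⟨c, rfl⟩
  · intro h
    obtain ⟨y0, hy0⟩ : ∃ y : Fin m → K, y ≠ 0 := by
      haveI : Nontrivial (Fin m → K) := Module.nontrivial_of_finrank_pos (R := K) (by omega)
      exact exists_ne 0
    refine ⟨pt (φ (0, y0)), fun x hx => ?_, fun i hi => ?_⟩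
    · rw [h2 _ _ (hne1 _) (hne0 _ hy0)] at hx
      obtain ⟨c, hc⟩ := hx
      rw [← map_smul] at hc
      have h5 := φ.injective hc
      have hc0 : c = 0 := by
        have := congrArg Prod.fst h5
        simpa using this.symm
      subst hc0
      have := congrArg Prod.snd h5
      simp at this
      exact hy0 this
    · rcases hcase i with ⟨x, hx⟩ | ⟨y, hy, hyi⟩
      · exact ⟨x, hx⟩
      · exfalso
        obtain ⟨a, ha⟩ := (finrank_eq_one_iff_of_nonzero' y0 hy0).mp h y
        apply hi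
        rw [← hyi, eq_comm, h2 _ _ (hne0 _ hy0) (hne0 _ hy)]
        refine ⟨a, ?_⟩
        rw [← map_smul, ← ha]
        congr 1
        ext <;> simp

end Pltc
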