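import Mathlib
import Pool.Agent.Lib.Pltc.Kernel

/-!
Module Pltc.PslCore: the square root argument.  A code on a finite field `K` of order prime to the
characteristic, invariant under `x ↦ a² x + b`, with a dual word of weight `≤ q` and nonzero sum is
zero when `|K| > q²`.

Proof.  Suppose `D ≠ ⊥`; let `e ∈ D` be the kernel (`kernel_general`), invariant under squares
(`kernel_inv` for `x ↦ a² x`).  Work in the commutative group algebra `A = AddMonoidAlgebra F K`
(or with explicit convolutions of functions `K → F`).  Identify functions `K → F` with elements of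
`A`; let `ε : A → F` be the sum of the coefficients, `J = |K|⁻¹ ∑_x [x]`, `J² = J`, `x J = ε(x) J`,
`h = 1 - J`.  Facts: `e * e = e` (reproducing property with `f = e`);
`w e = 0` where `w` is the reflection `x ↦ v (-x)` of `v` (all translates of `e` are in `D` and
orthogonal to `v`); `ε(w) = ε(v) ≠ 0`, so `ε(e) = 0` and `J e = 0`.
If every nonzero element of `K` is a square put `g = 1`, otherwise let `g` be a non-square; `g²` is a
square.  Let a prime denote the automorphism `x ↦ g x` of `A` (`e'(x) = e(g x)`), also `w' e' = 0`.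
Both `e e'` and `(h - e)(h - e')` are invariant under all dilations by nonzero elements (those by
squares and by `g`), idempotent and killed by `ε`, hence equal to `0` or `h` (an element invariant
under all dilations is `α [0] + β ∑_{x ≠ 0} [x] = c h + β' J`; `ε = 0` gives `β' = 0`; idempotent gives
`c² = c`).
 * `e e' = h`: then `0 = w e e' = w h = w - ε(w) J`, so `w` is a nonzero constant function, of weight
   `|K| > q² ≥ q`: contradiction.
 * `(h - e)(h - e') = h`: multiply by `e`: `e (h - e) = 0` so `0 = e h = e`, contradiction with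
   `D ≠ ⊥` (`f = f * e`).
 * both zero: `w (h - e) = w h`, `w' (h - e') = w' h`, so `w w' h = 0`, `w w' = ε(w)² J`: a nonzero
   constant, but `w w'` has at most `wt(w) wt(w') ≤ q² < |K|` nonzero coefficients: contradiction.
-/

set_option autoImplicit false
open Classical

namespace Pltc

section algebra

variable {F K : Type*} [Field F] [Field K] [Fintype K]

private noncomputable def toA (f : K → F) : AddMonoidAlgebra F K :=
  AddMonoidAlgebra.ofCoeff (Finsupp.equivFunOnFinite.symm f)

private lemma toA_coeff (f : K → F) (x : K) : (toA f).coeff x = f x := by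
  simp [toA]

private lemma extA {a b : AddMonoidAlgebra F K} (h : ∀ x, a.coeff x = b.coeff x) : a = b :=
  AddMonoidAlgebra.ext (Finsupp.ext h)

private lemma mulA (a b : AddMonoidAlgebra F K) (x : K) :
    (a * b).coeff x = ∑ y, a.coeff y * b.coeff (x - y) := by
  rw [AddMonoidAlgebra.coeff_mul_apply_left, Finsupp.sum_fintype]
  · refine Finset.sum_congr rfl fun y _ => ?_
    congr 2
    ring
  · intro y
    simp

private lemma oneA (x : K) : (1 : AddMonoidAlgebra F K).coeff x = if x = 0 then 1 else 0 := by
  rw [AddMonoidAlgebra.one_def, AddMonoidAlgebra.coeff_single, Finsupp.single_apply]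
  by_cases h : x = 0
  · simp [h]
  · simp [h, Ne.symm h]

private noncomputable def eps (a : AddMonoidAlgebra F K) : F := ∑ x, a.coeff x

private lemma eps_mul (a b : AddMonoidAlgebra F K) : eps (a * b) = eps a * eps b := by
  unfold eps
  simp_rw [mulA]
  rw [Finset.sum_comm, Finset.sum_mul]
  refine Finset.sum_congr rfl fun y _ => ?_
  rw [← Finset.mul_sum]
  congr 1
  exact Equiv.sum_comp (Equiv.subRight y) (fun x => b.coeff x)

private noncomputable def dilA (c : K) (a : AddMonoidAlgebra F K) : AddMonoidAlgebra F K :=
  toA (fun x => a.coeff (c * x))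

private lemma dilA_coeff (c : K) (a : AddMonoidAlgebra F K) (x : K) :
    (dilA c a).coeff x = a.coeff (c * x) := toA_coeff _ _

private lemma dilA_mul {c : K} (hc : c ≠ 0) (a b : AddMonoidAlgebra F K) :
    dilA c (a * b) = dilA c a * dilA c b := by
  apply extA
  intro x
  rw [dilA_coeff, mulA, mulA]
  simp_rw [dilA_coeff]
  rw [← Equiv.sum_comp (Equiv.mulLeft₀ c hc) (fun y => a.coeff y * b.coeff (c * x - y))]
  refine Finset.sum_congr rfl fun y _ => ?_
  simp only [Equiv.mulLeft₀_apply]
  rw [mul_sub]

private lemma dilA_sub (c : K) (a b : AddMonoidAlgebra F K) :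
    dilA c (a - b) = dilA c a - dilA c b := by
  apply extA
  intro x
  simp [dilA_coeff]

private lemma eps_dilA {c : K} (hc : c ≠ 0) (a : AddMonoidAlgebra F K) :
    eps (dilA c a) = eps a := by
  unfold eps
  simp_rw [dilA_coeff]
  exact Equiv.sum_comp (Equiv.mulLeft₀ c hc) (fun y => a.coeff y)

variable (F K) in
private noncomputable def JA : AddMonoidAlgebra F K :=
  toA (fun _ => ((Fintype.card K : ℕ) : F)⁻¹)

private lemma mul_JA (a : AddMonoidAlgebra F K) : a * JA F K = eps a • JA F K := by
  apply extA
  intro x
  rw [mulA, AddMonoidAlgebra.coeff_smul_apply]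
  unfold JA
  simp_rw [toA_coeff]
  rw [← Finset.sum_mul]
  rfl

private lemma eps_JA (hcard : ((Fintype.card K : ℕ) : F) ≠ 0) : eps (JA F K) = 1 := by
  unfold eps JA
  simp_rw [toA_coeff]
  rw [Finset.sum_const, Finset.card_univ, nsmul_eq_mul]
  field_simp

private lemma eps_one : eps (1 : AddMonoidAlgebra F K) = 1 := by
  unfold eps
  simp_rw [oneA]
  simp

private lemma eps_sub (a b : AddMonoidAlgebra F K) : eps (a - b) = eps a - eps b := by
  unfold eps
  simp [Finset.sum_sub_distrib]

private lemma dilA_one {c : K} (hc : c ≠ 0) : dilA c (1 : AddMonoidAlgebra F K) = 1 := by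
  apply extA
  intro x
  rw [dilA_coeff, oneA, oneA]
  simp [hc]

private lemma dilA_JA (c : K) : dilA c (JA F K) = JA F K := by
  apply extA
  intro x
  rw [dilA_coeff]
  unfold JA
  rw [toA_coeff, toA_coeff]

/-- an element invariant under all dilations, idempotent and killed by `ε` is `0` or `1 - J` -/
private lemma zero_or_h (hcard : ((Fintype.card K : ℕ) : F) ≠ 0) (a : AddMonoidAlgebra F K)
    (hinv : ∀ c : K, c ≠ 0 → dilA c a = a) (hid : a * a = a) (he : eps a = 0) :
    a = 0 ∨ a = 1 - JA F K := by
  set N : F := ((Fintype.card K : ℕ) : F) with hN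
  have h1 : ∀ x : K, x ≠ 0 → a.coeff x = a.coeff 1 := by
    intro x hx
    have := congrArg (fun b => AddMonoidAlgebra.coeff b 1) (hinv x hx)
    simp only [dilA_coeff, mul_one] at this
    exact this
  set α := a.coeff 0 with hα
  set β := a.coeff 1 with hβ
  have h2 : a = (α - β) • (1 : AddMonoidAlgebra F K) + (β * N) • JA F K := by
    apply extA
    intro x
    have e1 : ((α - β) • (1 : AddMonoidAlgebra F K) + (β * N) • JA F K).coeff x =
        (α - β) * (if x = 0 then 1 else 0) + (β * N) * N⁻¹ := by
      rw [AddMonoidAlgebra.coeff_add, Finsupp.add_apply, AddMonoidAlgebra.coeff_smul_apply,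
        AddMonoidAlgebra.coeff_smul_apply, oneA]
      unfold JA
      rw [toA_coeff]
      rfl
    rw [e1, mul_assoc, mul_inv_cancel₀ hcard]
    by_cases hx : x = 0
    · rw [hx]
      simp [← hα]
    · rw [h1 x hx]
      simp [hx]
  have h3 : α - β + β * N = 0 := by
    have := he
    rw [h2] at this
    have e2 : eps ((α - β) • (1 : AddMonoidAlgebra F K) + (β * N) • JA F K) =
        (α - β) * eps (1 : AddMonoidAlgebra F K) + (β * N) * eps (JA F K) := by
      unfold eps
      simp only [AddMonoidAlgebra.coeff_add, Finsupp.add_apply,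
        AddMonoidAlgebra.coeff_smul_apply, smul_eq_mul]
      rw [Finset.sum_add_distrib, Finset.mul_sum, Finset.mul_sum]
    rw [e2, eps_one, eps_JA hcard] at this
    linear_combination this
  set t : F := α - β with ht
  have h4 : a = t • (1 - JA F K) := by
    rw [h2, show β * N = -t by linear_combination h3]
    rw [smul_sub, neg_smul]
    abel
  have hJJ : JA F K * JA F K = JA F K := by
    rw [mul_JA, eps_JA hcard, one_smul]
  have hhh : (1 - JA F K) * (1 - JA F K) = 1 - JA F K := by
    rw [mul_sub, sub_mul, sub_mul, hJJ]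
    simp
  have h5 : (t * t - t) • (1 - JA F K) = 0 := by
    have := hid
    rw [h4, smul_mul_smul_comm, hhh] at this
    rw [sub_smul, this, sub_self]
  have h6 : t * t - t = 0 := by
    have h7 := congrArg (fun b => AddMonoidAlgebra.coeff b (1 : K)) h5
    simp only [AddMonoidAlgebra.coeff_smul_apply, AddMonoidAlgebra.coeff_zero,
      Finsupp.coe_zero, Pi.zero_apply, AddMonoidAlgebra.coeff_sub, Finsupp.sub_apply,
      oneA] at h7
    have h8 : (JA F K).coeff (1 : K) = N⁻¹ := by
      unfold JA
      rw [toA_coeff]
    rw [h8] at h7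
    simp only [one_ne_zero, if_false, zero_sub, smul_eq_mul, mul_neg, neg_eq_zero,
      mul_eq_zero, inv_eq_zero] at h7
    rcases h7 with h7 | h7
    · exact h7
    · exact absurd h7 hcard
  have h7 : t * (t - 1) = 0 := by linear_combination h6
  rcases mul_eq_zero.mp h7 with h | h
  · left
    rw [h4, h, zero_smul]
  · right
    rw [h4, sub_eq_zero.mp h, one_smul]

end algebra

theorem psl_core {F K : Type*} [Field F] [Field K] [Fintype K]
    (hcard : ((Fintype.card K : ℕ) : F) ≠ 0) (D : Submodule F (K → F))
    (htr : ∀ f ∈ D, ∀ b : K, (fun x => f (x + b)) ∈ D)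
    (hsq : ∀ a : K, a ≠ 0 → ∀ f ∈ D, (fun x => f (a ^ 2 * x)) ∈ D)
    (v : K → F) (hv : Dual D v) (hsum : ∑ x, v x ≠ 0) (q : ℕ) (hq : wt v ≤ q)
    (hK : q ^ 2 < Fintype.card K) : D = ⊥ := by
  obtain ⟨e0, he0, hrep, huniq⟩ := kernel_general hcard D htr
  have hinv0 : ∀ a : K, a ≠ 0 → ∀ x, e0 (a ^ 2 * x) = e0 x := by
    intro a ha
    have ha2 : a ^ 2 ≠ 0 := pow_ne_zero 2 ha
    let φ : K ≃+ K :=
      { Equiv.mulLeft₀ (a ^ 2) ha2 with
        map_add' := fun x y => by simp [mul_add] }
    have := kernel_inv D e0 he0 hrep huniq φ (fun f hf => hsq a ha f hf)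
    exact this
  set e : AddMonoidAlgebra F K := toA e0 with he
  set w : AddMonoidAlgebra F K := toA (fun x => v (-x)) with hw
  set J : AddMonoidAlgebra F K := JA F K with hJ
  set h : AddMonoidAlgebra F K := 1 - J with hh
  have hfe : ∀ f ∈ D, toA f * e = toA f := by
    intro f hf
    apply extA
    intro x
    rw [mulA, toA_coeff, hrep f hf x]
    simp_rw [he, toA_coeff]
  have hee : e * e = e := hfe e0 he0
  have hwe : w * e = 0 := by
    apply extA
    intro x
    rw [mulA]
    simp_rw [he, hw, toA_coeff]
    have h1 := hv _ (htr e0 he0 x)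
    have h2 : ∑ y, v (-y) * e0 (x - y) = ∑ y, v y * e0 (y + x) := by
      rw [← Equiv.sum_comp (Equiv.neg K) (fun y => v y * e0 (y + x))]
      refine Finset.sum_congr rfl fun y _ => ?_
      simp only [Equiv.neg_apply]
      congr 2
      ring
    rw [h2]
    simpa using h1
  have hepsw : eps w ≠ 0 := by
    have : eps w = ∑ x, v x := by
      unfold eps
      simp_rw [hw, toA_coeff]
      exact Equiv.sum_comp (Equiv.neg K) (fun y => v y)
    rw [this]
    exact hsum
  have hepse : eps e = 0 := by
    have := eps_mul w e
    rw [hwe] at this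
    have h0 : eps (0 : AddMonoidAlgebra F K) = 0 := by
      unfold eps
      simp
    rw [h0] at this
    rcases mul_eq_zero.mp this.symm with h1 | h1
    · exact absurd h1 hepsw
    · exact h1
  -- the non-square
  obtain ⟨g, hg0, hg⟩ : ∃ g : K, g ≠ 0 ∧ ∀ c : K, c ≠ 0 →
      (∃ s : K, s ≠ 0 ∧ c = s ^ 2) ∨ (∃ s : K, s ≠ 0 ∧ c = g * s ^ 2) := by
    by_cases hall : ∀ c : K, c ≠ 0 → IsSquare c
    · refine ⟨1, one_ne_zero, fun c hc => Or.inl ?_⟩
      obtain ⟨s, hs⟩ := hall c hc
      refine ⟨s, ?_, by rw [hs]; ring⟩
      rintro rfl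
      apply hc
      rw [hs]
      ring
    · push Not at hall
      obtain ⟨g, hg0, hg⟩ := hall
      refine ⟨g, hg0, fun c hc => ?_⟩
      by_cases hcs : IsSquare c
      · left
        obtain ⟨s, hs⟩ := hcs
        refine ⟨s, ?_, by rw [hs]; ring⟩
        rintro rfl
        apply hc
        rw [hs]
        ring
      · right
        have h1 : quadraticChar K c = -1 := quadraticChar_neg_one_iff_not_isSquare.mpr hcs
        have h2 : quadraticChar K g = -1 := quadraticChar_neg_one_iff_not_isSquare.mpr hg
        have h3 : quadraticChar K (c * g) = 1 := by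
          rw [map_mul, h1, h2]
          norm_num
        obtain ⟨s, hs⟩ := (quadraticChar_one_iff_isSquare (mul_ne_zero hc hg0)).mp h3
        refine ⟨s / g, ?_, ?_⟩
        · intro h0
          have hs0 : s = 0 := by
            rcases div_eq_zero_iff.mp h0 with h4 | h4
            · exact h4
            · exact absurd h4 hg0
          rw [hs0] at hs
          have : c * g = 0 := by rw [hs]; ring
          exact mul_ne_zero hc hg0 this
        · field_simp
          linear_combination hs
  set e' : AddMonoidAlgebra F K := dilA g e with he'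
  set w' : AddMonoidAlgebra F K := dilA g w with hw'
  have hee' : e' * e' = e' := by
    rw [he', ← dilA_mul hg0, hee]
  have hwe' : w' * e' = 0 := by
    rw [hw', he', ← dilA_mul hg0, hwe]
    apply extA
    intro x
    rw [dilA_coeff]
    simp
  have hepse' : eps e' = 0 := by rw [he', eps_dilA hg0, hepse]
  have hepsw' : eps w' ≠ 0 := by rw [hw', eps_dilA hg0]; exact hepsw
  -- action of dilations on `e` and `e'`
  have hd : ∀ c : K, c ≠ 0 → (dilA c e = e ∧ dilA c e' = e') ∨ (dilA c e = e' ∧ dilA c e' = e) := by
    intro c hc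
    rcases hg c hc with ⟨s, hs, rfl⟩ | ⟨s, hs, rfl⟩
    · left
      constructor
      · apply extA
        intro x
        rw [dilA_coeff, he, toA_coeff, toA_coeff, hinv0 s hs]
      · apply extA
        intro x
        rw [dilA_coeff, he', dilA_coeff, dilA_coeff, he, toA_coeff, toA_coeff,
          ← hinv0 s hs (g * x)]
        congr 1
        ring
    · right
      constructor
      · apply extA
        intro x
        rw [dilA_coeff, he', dilA_coeff, he, toA_coeff, toA_coeff, ← hinv0 s hs (g * x)]
        congr 1
        ring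
      · apply extA
        intro x
        rw [dilA_coeff, he', dilA_coeff, he, toA_coeff, toA_coeff,
          ← hinv0 (g * s) (mul_ne_zero hg0 hs) x]
        congr 1
        ring
  have hJe : J * e = 0 := by
    rw [mul_comm, hJ, mul_JA, hepse, zero_smul]
  have hJe' : J * e' = 0 := by
    rw [mul_comm, hJ, mul_JA, hepse', zero_smul]
  have hJJ : J * J = J := by
    rw [hJ, mul_JA, eps_JA hcard, one_smul]
  have hepsh : eps h = 0 := by
    rw [hh, eps_sub, eps_one, hJ, eps_JA hcard, sub_self]
  have hhe : h * e = e := by rw [hh, sub_mul, one_mul, hJe, sub_zero]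
  have hhe' : h * e' = e' := by rw [hh, sub_mul, one_mul, hJe', sub_zero]
  have hhh : h * h = h := by
    rw [hh, mul_sub, sub_mul, sub_mul, hJJ]
    simp
  have hdh : ∀ c : K, c ≠ 0 → dilA c h = h := by
    intro c hc
    rw [hh, dilA_sub, dilA_one hc, hJ, dilA_JA]
  have hwh : ∀ u : AddMonoidAlgebra F K, u * h = 0 → u = eps u • J := by
    intro u hu
    rw [hh, mul_sub, mul_one, hJ, mul_JA] at hu
    exact sub_eq_zero.mp hu
  have hJx : ∀ x : K, J.coeff x ≠ 0 := by
    intro x
    rw [hJ]
    unfold JA
    rw [toA_coeff]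
    exact inv_ne_zero hcard
  -- case analysis
  have case1 : e * e' = 0 ∨ e * e' = 1 - JA F K := by
    apply zero_or_h hcard
    · intro c hc
      rw [dilA_mul hc]
      rcases hd c hc with ⟨h1, h2⟩ | ⟨h1, h2⟩
      · rw [h1, h2]
      · rw [h1, h2, mul_comm]
    · calc e * e' * (e * e') = (e * e) * (e' * e') := by ring
        _ = e * e' := by rw [hee, hee']
    · rw [eps_mul, hepse, zero_mul]
  have hA : (h - e) * (h - e) = h - e := by
    calc (h - e) * (h - e) = h * h - h * e - h * e + e * e := by ring
      _ = h - e := by rw [hhh, hhe, hee]; ring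
  have hA' : (h - e') * (h - e') = h - e' := by
    calc (h - e') * (h - e') = h * h - h * e' - h * e' + e' * e' := by ring
      _ = h - e' := by rw [hhh, hhe', hee']; ring
  have case2 : (h - e) * (h - e') = 0 ∨ (h - e) * (h - e') = 1 - JA F K := by
    apply zero_or_h hcard
    · intro c hc
      rw [dilA_mul hc, dilA_sub c h e, dilA_sub c h e', hdh c hc]
      rcases hd c hc with ⟨h1, h2⟩ | ⟨h1, h2⟩
      · rw [h1, h2]
      · rw [h1, h2, mul_comm]
    · calc (h - e) * (h - e') * ((h - e) * (h - e')) =
          ((h - e) * (h - e)) * ((h - e') * (h - e')) := by ring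
        _ = (h - e) * (h - e') := by rw [hA, hA']
    · rw [eps_mul, eps_sub, hepsh, hepse, sub_zero, zero_mul]
  have hwtw : (Finset.univ.filter fun x => w.coeff x ≠ 0).card ≤ q := by
    refine le_trans (le_of_eq ?_) hq
    unfold wt
    refine Finset.card_bij' (fun x _ => -x) (fun x _ => -x) ?_ ?_ ?_ ?_
    · intro x hx
      rw [Finset.mem_filter] at hx ⊢
      rw [hw, toA_coeff] at hx
      exact ⟨Finset.mem_univ _, hx.2⟩
    · intro x hx
      rw [Finset.mem_filter] at hx ⊢
      rw [hw, toA_coeff, neg_neg]
      exact ⟨Finset.mem_univ _, hx.2⟩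
    · intro x _
      simp
    · intro x _
      simp
  have hwtw' : (Finset.univ.filter fun x => w'.coeff x ≠ 0).card ≤ q := by
    refine le_trans (le_of_eq ?_) hwtw
    refine Finset.card_bij' (fun x _ => g * x) (fun x _ => g⁻¹ * x) ?_ ?_ ?_ ?_
    · intro x hx
      rw [Finset.mem_filter] at hx ⊢
      rw [hw', dilA_coeff] at hx
      exact ⟨Finset.mem_univ _, hx.2⟩
    · intro x hx
      rw [Finset.mem_filter] at hx ⊢
      rw [hw', dilA_coeff, mul_inv_cancel_left₀ hg0]
      exact ⟨Finset.mem_univ _, hx.2⟩
    · intro x _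
      exact inv_mul_cancel_left₀ hg0 x
    · intro x _
      exact mul_inv_cancel_left₀ hg0 x
  rcases case1 with h1 | h1
  · rcases case2 with h2 | h2
    · exfalso
      have h3 : (w * w') * h = 0 := by
        have e1 : w * (h - e) = w * h := by rw [mul_sub, hwe, sub_zero]
        have e2 : w' * (h - e') = w' * h := by rw [mul_sub, hwe', sub_zero]
        calc (w * w') * h = (w * h) * (w' * h) := by
              calc (w * w') * h = (w * w') * (h * h) := by rw [hhh]
                _ = (w * h) * (w' * h) := by ring
          _ = (w * (h - e)) * (w' * (h - e')) := by rw [e1, e2]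
          _ = (w * w') * ((h - e) * (h - e')) := by ring
          _ = 0 := by rw [h2, mul_zero]
      have h4 := hwh _ h3
      rw [eps_mul] at h4
      have h5 : ∀ x : K, (w * w').coeff x ≠ 0 := by
        intro x
        rw [h4, AddMonoidAlgebra.coeff_smul_apply]
        exact mul_ne_zero (mul_ne_zero hepsw hepsw') (hJx x)
      have h6 : (Finset.univ : Finset K) ⊆
          ((Finset.univ.filter fun x => w.coeff x ≠ 0) ×ˢ
            (Finset.univ.filter fun x => w'.coeff x ≠ 0)).image (fun p => p.1 + p.2) := by
        intro x _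
        have h7 := h5 x
        rw [mulA] at h7
        obtain ⟨y, _, hy⟩ := Finset.exists_ne_zero_of_sum_ne_zero h7
        rw [Finset.mem_image]
        refine ⟨(y, x - y), ?_, by simp⟩
        rw [Finset.mem_product, Finset.mem_filter, Finset.mem_filter]
        exact ⟨⟨Finset.mem_univ _, left_ne_zero_of_mul hy⟩,
          ⟨Finset.mem_univ _, right_ne_zero_of_mul hy⟩⟩
      have h7 := Finset.card_le_card h6
      rw [Finset.card_univ] at h7
      have h8 := le_trans h7 Finset.card_image_le
      rw [Finset.card_product] at h8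
      have h9 := le_trans h8 (Nat.mul_le_mul hwtw hwtw')
      rw [← sq] at h9
      omega
    · -- `e = 0`
      have h3 : e = 0 := by
        have e1 : e * ((h - e) * (h - e')) = 0 := by
          calc e * ((h - e) * (h - e')) = (h * e - e * e) * (h - e') := by ring
            _ = 0 := by rw [hhe, hee, sub_self, zero_mul]
        rw [h2] at e1
        have e2 : e * h = 0 := e1
        rw [mul_comm, hhe] at e2
        exact e2
      rw [eq_bot_iff]
      intro f hf
      rw [Submodule.mem_bot]
      have h4 := hfe f hf
      rw [h3, mul_zero] at h4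
      funext x
      have h5 := congrArg (fun b => AddMonoidAlgebra.coeff b x) h4
      simp only [toA_coeff] at h5
      rw [← h5]
      simp
  · exfalso
    have h3 : w * h = 0 := by
      have e1 : w * (e * e') = 0 := by rw [← mul_assoc, hwe, zero_mul]
      rw [h1] at e1
      exact e1
    have h4 := hwh _ h3
    have h5 : ∀ x : K, w.coeff x ≠ 0 := by
      intro x
      rw [h4, AddMonoidAlgebra.coeff_smul_apply]
      exact mul_ne_zero hepsw (hJx x)
    have h6 : (Finset.univ.filter fun x => w.coeff x ≠ 0) = (Finset.univ : Finset K) := by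
      apply Finset.filter_true_of_mem
      intro x _
      exact h5 x
    rw [h6, Finset.card_univ] at hwtw
    have : q ^ 2 < q := lt_of_lt_of_le hK hwtw
    nlinarith

end Pltc
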