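import Mathlib
import Pool.Agent.Lib.Pltc.PslCore
import Pool.Agent.Lib.Pltc.ChartDual

/-!
Module Pltc.Psl2: `PSL₂(K)` on the projective line, cross characteristic.
-/

set_option autoImplicit false
open Classical

namespace Pltc

open P61e83e

lemma chart_sum {M K : Type*} [AddCommMonoid M] {n : ℕ} [Fintype K] (j : K → Fin n)
    (hj : Function.Injective j) (i₀ : Fin n) (h0 : ∀ x, j x ≠ i₀)
    (h1 : ∀ i, i ≠ i₀ → ∃ x, j x = i) (g : Fin n → M) :
    ∑ i, g i = g i₀ + ∑ x : K, g (j x) := by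
  rw [← Finset.add_sum_erase Finset.univ g (Finset.mem_univ i₀)]
  congr 1
  symm
  refine Finset.sum_bij (fun x _ => j x) ?_ ?_ ?_ ?_
  · intro x _
    exact Finset.mem_erase.mpr ⟨h0 x, Finset.mem_univ _⟩
  · intro x _ y _ hxy
    exact hj hxy
  · intro i hi
    obtain ⟨x, hx⟩ := h1 i (Finset.ne_of_mem_erase hi)
    exact ⟨x, Finset.mem_univ _, hx⟩
  · intro x _
    rfl

theorem psl2_cross {F : Type*} [Field F] {n : ℕ} (C : Submodule F (Fin n → F))
    (hG : DoublyTrans C) {K : Type*} [Field K] [Fintype K]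
    (hcard : ((Fintype.card K : ℕ) : F) ≠ 0) (j : K → Fin n) (hj : Function.Injective j)
    (i₀ : Fin n) (h0 : ∀ x, j x ≠ i₀) (h1 : ∀ i, i ≠ i₀ → ∃ x, j x = i)
    (hsym : ∀ a b : K, a ≠ 0 → ∃ π : Equiv.Perm (Fin n), Pres C π ∧ π i₀ = i₀ ∧
      ∀ x, π (j x) = j (a ^ 2 * x + b))
    (u : Fin n → F) (hu0 : u ≠ 0) (hu : Dual C u) (q : ℕ) (hq : wt u ≤ q) :
    Module.finrank F C ≤ q ^ 2 + 1 := by
  have hn : n = Fintype.card K + 1 := by
    have := chart_sum j hj i₀ h0 h1 (fun _ => 1)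
    simp at this
    omega
  rcases le_or_gt (Fintype.card K) (q ^ 2) with hle | hlt
  · have h2 : Module.finrank F C ≤ Module.finrank F (Fin n → F) := Submodule.finrank_le C
    rw [Module.finrank_fin_fun] at h2
    omega
  have hqn : q < n := by
    have : q ≤ q ^ 2 := Nat.le_self_pow two_ne_zero q
    omega
  have hK2 : 1 < Fintype.card K := Fintype.one_lt_card
  -- transitivity
  have htr : ∀ z : Fin n, ∃ π : Equiv.Perm (Fin n), Pres C π ∧ π i₀ = z := by
    intro z
    haveI : Nontrivial (Fin n) := Fin.nontrivial_iff_two_le.mpr (by omega)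
    obtain ⟨z', hz'⟩ := exists_ne z
    obtain ⟨π, hπ, hπ1, -⟩ := hG i₀ (j 0) z z' (h0 0).symm hz'.symm
    exact ⟨π, hπ, hπ1⟩
  -- move `u`
  obtain ⟨v, hvd, hvq, hvi⟩ : ∃ v : Fin n → F, Dual C v ∧ wt v ≤ q ∧ ∑ x : K, v (j x) ≠ 0 := by
    have hsumπ : ∀ π : Equiv.Perm (Fin n), u (π i₀) + ∑ x : K, u (π (j x)) = ∑ i, u i := by
      intro π
      rw [← chart_sum j hj i₀ h0 h1 (fun i => u (π i))]
      exact Equiv.sum_comp π u
    by_cases hs : ∑ i, u i = 0
    · obtain ⟨z, hz⟩ : ∃ z, u z ≠ 0 := by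
        by_contra hcon
        push Not at hcon
        exact hu0 (funext hcon)
      obtain ⟨π, hπ, hπz⟩ := htr z
      obtain ⟨hd, hw⟩ := dual_comp C π hπ u hu
      refine ⟨_, hd, hw.le.trans hq, fun hcon => ?_⟩
      have h2 := hsumπ π
      rw [hcon, hs, hπz, add_zero] at h2
      exact hz h2
    · obtain ⟨z, hz⟩ : ∃ z, u z = 0 := by
        by_contra hcon
        push Not at hcon
        have : wt u = n := by
          unfold wt
          rw [Finset.filter_true_of_mem (fun y _ => hcon y), Finset.card_univ, Fintype.card_fin]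
        omega
      obtain ⟨π, hπ, hπz⟩ := htr z
      obtain ⟨hd, hw⟩ := dual_comp C π hπ u hu
      refine ⟨_, hd, hw.le.trans hq, fun hcon => ?_⟩
      have h2 := hsumπ π
      rw [hcon, hπz, hz, add_zero] at h2
      exact hs h2.symm
  -- the words vanishing at `i₀`
  set C₀ : Submodule F (Fin n → F) := C ⊓ LinearMap.ker (LinearMap.proj (R := F) i₀) with hC₀
  have hmem : ∀ f, f ∈ C₀ ↔ f ∈ C ∧ f i₀ = 0 := by
    intro f
    rw [hC₀, Submodule.mem_inf, LinearMap.mem_ker]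
    rfl
  have hD : pull j C₀ = ⊥ := by
    refine psl_core hcard (pull j C₀) ?_ ?_ (fun x => v (j x)) ?_ hvi q
      ((wt_comp_le j hj v).trans hvq) hlt
    · rintro _ ⟨f, hf, rfl⟩ b
      obtain ⟨π, hπ, hπ0, hπj⟩ := hsym 1 b one_ne_zero
      rw [SetLike.mem_coe, hmem] at hf
      refine ⟨fun i => f (π i), ?_, ?_⟩
      · rw [SetLike.mem_coe, hmem]
        exact ⟨hπ f hf.1, by rw [hπ0]; exact hf.2⟩
      · funext x
        change f (π (j x)) = f (j (x + b))
        rw [hπj, one_pow, one_mul]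
    · rintro a ha _ ⟨f, hf, rfl⟩
      obtain ⟨π, hπ, hπ0, hπj⟩ := hsym a 0 ha
      rw [SetLike.mem_coe, hmem] at hf
      refine ⟨fun i => f (π i), ?_, ?_⟩
      · rw [SetLike.mem_coe, hmem]
        exact ⟨hπ f hf.1, by rw [hπ0]; exact hf.2⟩
      · funext x
        change f (π (j x)) = f (j (a ^ 2 * x))
        rw [hπj, add_zero]
    · rintro _ ⟨f, hf, rfl⟩
      rw [SetLike.mem_coe, hmem] at hf
      have h2 := hvd f hf.1
      rw [chart_sum j hj i₀ h0 h1 (fun i => v i * f i), hf.2, mul_zero, zero_add] at h2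
      exact h2
  have hC₀bot : ∀ f ∈ C, f i₀ = 0 → f = 0 := by
    intro f hf hf0
    have h2 : (fun x => f (j x)) ∈ pull j C₀ := ⟨f, (hmem f).mpr ⟨hf, hf0⟩, rfl⟩
    rw [hD, Submodule.mem_bot] at h2
    funext i
    by_cases hi : i = i₀
    · rw [hi, hf0]; rfl
    · obtain ⟨x, rfl⟩ := h1 i hi
      exact congrFun h2 x
  let T : C →ₗ[F] F := (LinearMap.proj (R := F) i₀).comp C.subtype
  have hT : Function.Injective T := by
    rw [← LinearMap.ker_eq_bot, LinearMap.ker_eq_bot']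
    intro f hf
    exact Subtype.ext (hC₀bot f f.2 hf)
  have h3 := LinearMap.finrank_le_finrank_of_injective hT
  rw [Module.finrank_self] at h3
  omega

end Pltc
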