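import Mathlib
import Pool.Agent.Lib.Pltc.FamAffine
import Pool.Agent.Lib.Pltc.ProjChart
import Pool.Agent.Lib.Pltc.ChartDual
import Pool.Agent.Lib.Pltc.Cover
import Pool.Agent.Lib.Pltc.Psl2
import Pool.Agent.Lib.Pltc.PGroup

/-!
Module Pltc.FamProj: the bound for groups containing `PSL(V)` on the points of the projective space.

Proof.  Take the chart `V'`, `j` of `proj_chart` (first make `Fintype K`).  If `n ≤ max (4q) 2` the bound
is trivial (`finrank ≤ n`).  Otherwise `|V'| ≥ n / 2 > 2 q`.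
(a) `dim V' = 1` (`dim V = 2`): identify `V'` with `K` linearly; translations and
`x ↦ c⁻¹ • (c⁻¹ • x) = c⁻² x` (`A = c⁻¹ • id`, determinant `c⁻¹` as `dim V' = 1`).  If `(|K| : F) ≠ 0` use
`psl2_cross` (`a = c⁻¹`; compose with a translation; a permutation preserving `range j` fixes the only
other point `i₀`).  If `(|K| : F) = 0` then `ringChar F` kills `V'` and `natural_of_chart`,
`natural_dichotomy` give `finrank ≤ 1` or a nonzero word of weight `≤ 2`, which by `hδ` forces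
`3 ε n ≤ 2`, `n ≤ 1 / ε`.
(b) `dim V' ≥ 2`: `C' = pull j C` is invariant under translations and all `g` with `det g = 1` (`c = 1`),
`sinv_of_det` gives `pull φ C'` with `SInv` on `K × L`, `dual_in_chart` a dual word `u'` of `C'` of weight
`≤ 2 q` (transitivity from `hG`), transported by `pull_equiv`; `sinv_bound F (2 q)` bounds
`finrank C'` by `c (log |V'| + 1)^(4 q)`, `|V'| ≤ n`; `cover_bound` with `b = 2` and `k` such that
`(1/2)^k < 3 ε` (`exists_pow_lt_of_lt_one`; `k` depends only on `ε`) gives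
`finrank C ≤ k * finrank C'`.
-/

set_option autoImplicit false
open Classical

namespace Pltc

open P61e83e

lemma one_le_logpow (n q : ℕ) : 1 ≤ (Real.log n + 1) ^ (4 * q) := by
  have h : 0 ≤ Real.log n := Real.log_natCast_nonneg n
  exact one_le_pow₀ (by linarith)

/-- the one-dimensional chart: the symmetries `x ↦ a ^ 2 * x + b` of the affine line -/
lemma line_sym {F : Type} [Field F] {n : ℕ} (C : Submodule F (Fin n → F))
    {K V' : Type} [Field K] [AddCommGroup V'] [Module K V'] (j : V' → Fin n)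
    (hj : Function.Injective j) (i₀ : Fin n) (h0 : ∀ x, j x ≠ i₀)
    (h1 : ∀ i, i ≠ i₀ → ∃ x, j x = i) (hfin : Module.finrank K V' = 1)
    (htr : ∀ b : V', ∃ π : Equiv.Perm (Fin n), Pres C π ∧ (∀ x, π (j x) = j (x + b)) ∧
        ∀ i, (∀ x, j x ≠ i) → π i = i)
    (hdet : ∀ (c : K) (A : V' →ₗ[K] V'), c ≠ 0 → c * LinearMap.det A = 1 →
        ∃ π : Equiv.Perm (Fin n), Pres C π ∧ ∀ x, π (j x) = j (c⁻¹ • A x))
    (e : K ≃ₗ[K] V') (a b : K) (ha : a ≠ 0) :
    ∃ π : Equiv.Perm (Fin n), Pres C π ∧ π i₀ = i₀ ∧ ∀ x, π (j (e x)) = j (e (a ^ 2 * x + b)) := by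
  obtain ⟨π₁, hP₁, h₁⟩ := hdet a⁻¹ (a • LinearMap.id) (inv_ne_zero ha) (by
    rw [LinearMap.det_smul, hfin, pow_one, LinearMap.det_id, mul_one, inv_mul_cancel₀ ha])
  obtain ⟨π₂, hP₂, h₂, -⟩ := htr (e b)
  have hcomp : ∀ x, (π₂ * π₁) (j (e x)) = j (e (a ^ 2 * x + b)) := by
    intro x
    rw [Equiv.Perm.mul_apply, h₁, h₂, inv_inv]
    congr 1
    rw [LinearMap.smul_apply, LinearMap.id_apply, map_add, smul_smul, ← pow_two, ← map_smul,
      smul_eq_mul]
  refine ⟨π₂ * π₁, hP₂.mul hP₁, ?_, hcomp⟩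
  by_contra hne
  obtain ⟨y, hy⟩ := h1 _ hne
  obtain ⟨z, hz⟩ := e.surjective y
  have h3 := hcomp ((a ^ 2)⁻¹ * (z - b))
  have h4 : a ^ 2 * ((a ^ 2)⁻¹ * (z - b)) + b = z := by
    rw [← mul_assoc, mul_inv_cancel₀ (pow_ne_zero 2 ha), one_mul, sub_add_cancel]
  rw [h4, hz, hy] at h3
  exact h0 _ ((π₂ * π₁).injective h3)

/-- the case of the projective line -/
lemma line_case (F : Type) [Field F] [Fintype F] (q : ℕ) (ε : ℝ) (hε : 0 < ε)
    {n : ℕ} (C : Submodule F (Fin n → F)) (u : Fin n → F)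
    (hu0 : u ≠ 0) (hq : wt u ≤ q) (hu : Dual C u) (hG : DoublyTrans C)
    (hδ : ∀ f ∈ C, f ≠ 0 → 3 * ε * n ≤ (wt f : ℝ))
    {K V' : Type} [Field K] [Fintype K] [AddCommGroup V'] [Module K V'] [Fintype V']
    (j : V' → Fin n)
    (hj : Function.Injective j) (i₀ : Fin n) (h0 : ∀ x, j x ≠ i₀)
    (h1 : ∀ i, i ≠ i₀ → ∃ x, j x = i) (hfin : Module.finrank K V' = 1)
    (htr : ∀ b : V', ∃ π : Equiv.Perm (Fin n), Pres C π ∧ (∀ x, π (j x) = j (x + b)) ∧
        ∀ i, (∀ x, j x ≠ i) → π i = i)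
    (hdet : ∀ (c : K) (A : V' →ₗ[K] V'), c ≠ 0 → c * LinearMap.det A = 1 →
        ∃ π : Equiv.Perm (Fin n), Pres C π ∧ ∀ x, π (j x) = j (c⁻¹ • A x)) :
    (Module.finrank F C : ℝ) ≤ q ^ 2 + 1 + 1 / ε := by
  have hε' : 0 < 1 / ε := by positivity
  haveI : FiniteDimensional K V' := Module.Finite.of_finite
  have hfin' : Module.finrank K K = Module.finrank K V' := by
    rw [Module.finrank_self, hfin]
  let e : K ≃ₗ[K] V' := LinearEquiv.ofFinrankEq K V' hfin'
  by_cases hc : ((Fintype.card K : ℕ) : F) = 0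
  · -- the characteristic of `F` kills `V'`
    obtain ⟨p, hp⟩ := CharP.exists K
    haveI := hp
    have hpp : p.Prime := CharP.char_is_prime K p
    obtain ⟨m, -, hm⟩ := FiniteField.card K p
    have hr : (ringChar F).Prime := CharP.char_is_prime F (ringChar F)
    have hdvd : ringChar F ∣ Fintype.card K := (ringChar.spec F _).mp hc
    rw [hm] at hdvd
    have hrp : ringChar F = p := (Nat.prime_dvd_prime_iff_eq hr hpp).mp (hr.dvd_of_dvd_pow hdvd)
    have hkill : ∀ y : V', ringChar F • y = 0 := by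
      intro y
      rw [hrp, ← Nat.cast_smul_eq_nsmul K, CharP.cast_eq_zero, zero_smul]
    have hnat : NaturalRankOne C := by
      refine natural_of_chart C hkill j hj i₀ h0 h1 ?_
      intro b
      obtain ⟨π, hP, h2, h3⟩ := htr b
      exact ⟨π, hP, h2, h3 i₀ h0⟩
    rcases natural_dichotomy C hG hnat with ⟨w, hw, hw0, hw2⟩ | h
    · have h4 := hδ w hw hw0
      have h5 : (wt w : ℝ) ≤ 2 := by exact_mod_cast hw2
      have h6 : (Module.finrank F C : ℝ) ≤ n := by
        have := Submodule.finrank_le C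
        rw [Module.finrank_fintype_fun_eq_card, Fintype.card_fin] at this
        exact_mod_cast this
      have h7 : (n : ℝ) ≤ 1 / ε := by
        rw [le_div_iff₀ hε]
        nlinarith
      have h8 : (0 : ℝ) ≤ (q : ℝ) ^ 2 := by positivity
      linarith
    · have h6 : (Module.finrank F C : ℝ) ≤ 1 := by exact_mod_cast h
      have h8 : (0 : ℝ) ≤ (q : ℝ) ^ 2 := by positivity
      linarith
  · have h2 := psl2_cross C hG hc (fun x => j (e x)) (hj.comp e.injective) i₀ (fun x => h0 _)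
      (fun i hi => by
        obtain ⟨y, hy⟩ := h1 i hi
        obtain ⟨z, hz⟩ := e.surjective y
        exact ⟨z, by rw [hz, hy]⟩)
      (fun a b ha => line_sym C j hj i₀ h0 h1 hfin htr hdet e a b ha) u hu0 hu q hq
    have h3 : (Module.finrank F C : ℝ) ≤ q ^ 2 + 1 := by exact_mod_cast h2
    linarith

theorem famProj (F : Type) [Field F] [Fintype F] (q : ℕ) (ε : ℝ) (hε : 0 < ε) :
    ∃ c : ℝ, 0 ≤ c ∧ ∀ (n : ℕ) (C : Submodule F (Fin n → F)) (u : Fin n → F),
      u ≠ 0 → wt u ≤ q → Dual C u → DoublyTrans C →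
      (∀ f ∈ C, f ≠ 0 → 3 * ε * n ≤ (wt f : ℝ)) → ProjSL C →
      (Module.finrank F C : ℝ) ≤ c * (Real.log n + 1) ^ (4 * q) := by
  obtain ⟨c₁, hc₁, hbound⟩ := sinv_bound F (2 * q)
  obtain ⟨k, hk⟩ := exists_pow_lt_of_lt_one (show (0 : ℝ) < 3 * ε by positivity)
    (show (1 / 2 : ℝ) < 1 by norm_num)
  have hε' : 0 < 1 / ε := by positivity
  refine ⟨(4 * q + 2) + (q ^ 2 + 1 + 1 / ε) + k * c₁, by positivity, ?_⟩
  intro n C u hu0 hq hu hG hδ ⟨K, V, iK, iKfin, iV, iM, pt, hd, hp1, hp2, hp3⟩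
  haveI : Fintype K := Fintype.ofFinite K
  have hL := one_le_logpow n q
  set Lg := (Real.log n + 1) ^ (4 * q) with hLg
  have hreduce : ∀ t : ℝ, t ≤ (4 * q + 2) + (q ^ 2 + 1 + 1 / ε) → 
      (Module.finrank F C : ℝ) ≤ t → (Module.finrank F C : ℝ) ≤
      ((4 * q + 2) + (q ^ 2 + 1 + 1 / ε) + k * c₁) * Lg := by
    intro t ht hft
    have h1 : (0 : ℝ) ≤ (4 * q + 2) + (q ^ 2 + 1 + 1 / ε) + k * c₁ := by positivity
    have h2 : 0 ≤ k * c₁ := by positivity
    calc (Module.finrank F C : ℝ) ≤ ((4 * q + 2) + (q ^ 2 + 1 + 1 / ε) + k * c₁) * 1 := by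
          linarith
      _ ≤ _ := mul_le_mul_of_nonneg_left hL h1
  have hfn : (Module.finrank F C : ℝ) ≤ n := by
    have := Submodule.finrank_le C
    rw [Module.finrank_fintype_fun_eq_card, Fintype.card_fin] at this
    exact_mod_cast this
  by_cases hn : n ≤ 4 * q + 2
  · refine hreduce n ?_ hfn
    have h1 : (n : ℝ) ≤ 4 * q + 2 := by exact_mod_cast hn
    have h2 : (0 : ℝ) ≤ (q : ℝ) ^ 2 := by positivity
    linarith
  push Not at hn
  obtain ⟨V', iV', iM', iF', j, hfin, hj, hcard, htr, hdet, hline⟩ :=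
    proj_chart C K V pt hd hp1 hp2 hp3
  by_cases hone : Module.finrank K V' = 1
  · obtain ⟨i₀, h0, h1⟩ := hline hone
    refine hreduce _ ?_ (line_case F q ε hε C u hu0 hq hu hG hδ j hj i₀ h0 h1 hone htr hdet)
    have h2 : (0 : ℝ) ≤ (q : ℝ) := Nat.cast_nonneg q
    linarith
  -- the main case
  have htwo : 2 ≤ Module.finrank K V' := by omega
  have htrans : ∀ x y : Fin n, ∃ π : Equiv.Perm (Fin n), Pres C π ∧ π x = y := by
    intro x y
    haveI : Nontrivial (Fin n) := Fin.nontrivial_iff_two_le.mpr (by omega)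
    obtain ⟨x', hx'⟩ := exists_ne x
    obtain ⟨y', hy'⟩ := exists_ne y
    obtain ⟨π, hP, h1, -⟩ := hG x x' y y' hx'.symm hy'.symm
    exact ⟨π, hP, h1⟩
  have hC'tr : ∀ f ∈ pull j C, ∀ b : V', (fun x => f (x + b)) ∈ pull j C := by
    intro f hf b
    obtain ⟨f₀, hf₀, rfl⟩ := (mem_pull j C f).mp hf
    obtain ⟨π, hP, h2, -⟩ := htr b
    refine (mem_pull j C _).mpr ⟨_, hP f₀ hf₀, ?_⟩
    funext y
    simp only [h2]
  have hC'lin : ∀ g : V' →ₗ[K] V', LinearMap.det g = 1 → ∀ f ∈ pull j C,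
      (fun x => f (g x)) ∈ pull j C := by
    intro g hg f hf
    obtain ⟨f₀, hf₀, rfl⟩ := (mem_pull j C f).mp hf
    obtain ⟨π, hP, h2⟩ := hdet 1 g one_ne_zero (by rw [hg, one_mul])
    refine (mem_pull j C _).mpr ⟨_, hP f₀ hf₀, ?_⟩
    funext y
    simp only [h2, inv_one, one_smul]
  obtain ⟨L, iL, iLf, iA, φ, hS⟩ := sinv_of_det htwo (pull j C) hC'tr hC'lin
  obtain ⟨u', hu'0, hu'w, hu'D⟩ := dual_in_chart C htrans j hj htr u hu0 hu q hq (by omega)
  obtain ⟨hr1, hr2, hr3⟩ := pull_equiv φ (pull j C) u' hu'D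
  have hb := hbound K L (pull φ (pull j C)) hS (fun y => u' (φ y)) (by
    intro h
    apply hu'0
    funext x
    have := congrFun h (φ.symm x)
    simpa using this) (by rw [hr3]; exact hu'w) hr2
  rw [hr1] at hb
  have hcardn : Fintype.card (K × L) ≤ n := by
    rw [Fintype.card_congr φ]
    have := Fintype.card_le_of_injective j hj
    rwa [Fintype.card_fin] at this
  have hcard0 : 0 < Fintype.card (K × L) := Fintype.card_pos
  have hlog : Real.log (Fintype.card (K × L)) ≤ Real.log n :=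
    Real.log_le_log (by exact_mod_cast hcard0) (by exact_mod_cast hcardn)
  have hb2 : (Module.finrank F (pull j C) : ℝ) ≤ c₁ * Lg := by
    refine hb.trans ?_
    rw [hLg, show 2 * (2 * q) = 4 * q by ring]
    have h0 : 0 ≤ Real.log (Fintype.card (K × L)) := Real.log_natCast_nonneg _
    gcongr
  have hcov := cover_bound C htrans j hj 2 (by norm_num) hcard (3 * ε) hδ k (by
    have : (1 - 1 / ((2 : ℕ) : ℝ)) = 1 / 2 := by norm_num
    rw [this]
    exact hk)
  have hcov' : (Module.finrank F C : ℝ) ≤ k * (Module.finrank F (pull j C) : ℝ) := by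
    exact_mod_cast hcov
  calc (Module.finrank F C : ℝ) ≤ k * (Module.finrank F (pull j C) : ℝ) := hcov'
    _ ≤ k * (c₁ * Lg) := mul_le_mul_of_nonneg_left hb2 (Nat.cast_nonneg k)
    _ = (k * c₁) * Lg := by ring
    _ ≤ ((4 * q + 2) + (q ^ 2 + 1 + 1 / ε) + k * c₁) * Lg := by
        apply mul_le_mul_of_nonneg_right _ (by linarith)
        have h2 : (0 : ℝ) ≤ (q : ℝ) := Nat.cast_nonneg q
        have h3 : (0 : ℝ) ≤ (q : ℝ) ^ 2 := by positivity
        linarith

end Pltc
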