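import Mathlib
import Pool.Agent.Lib.Pltc.Defs

/-!
Module Pltc.QuadBasics: quadratic forms over `𝔽₂` in coordinates.

`qf a b (x, y) = ∑ (x_i y_i + a_i x_i + b_i y_i)`.  Over `ZMod 2`: `c * c = c`, `2 = 0`, `-c = c`.
`qf_isQuad`: expand; the basis values are `qf a b (e_i, 0) = a_i`, `qf a b (0, e_i) = b_i`.
`eq_qf`: the difference of `θ` and `qf a b` is additive (hence zero as it vanishes on the basis; every
vector is a sum of basis vectors).
-/

set_option autoImplicit false
open Classical

namespace Pltc

/-- the quadratic form with given values on the basis -/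
def qf {d : ℕ} (a b : Fin d → ZMod 2) (x : (Fin d → ZMod 2) × (Fin d → ZMod 2)) : ZMod 2 :=
  ∑ i, (x.1 i * x.2 i + a i * x.1 i + b i * x.2 i)

lemma qf_single {d : ℕ} (a b : Fin d → ZMod 2) (i : Fin d) :
    qf a b (Pi.single i 1, 0) = a i ∧ qf a b (0, Pi.single i 1) = b i := by
  constructor
  · unfold qf
    rw [Finset.sum_eq_single i]
    · simp
    · intro j _ hj
      simp [Pi.single_eq_of_ne hj]
    · intro h
      exact absurd (Finset.mem_univ i) h
  · unfold qf
    rw [Finset.sum_eq_single i]
    · simp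
    · intro j _ hj
      simp [Pi.single_eq_of_ne hj]
    · intro h
      exact absurd (Finset.mem_univ i) h

lemma qf_add {d : ℕ} (a b : Fin d → ZMod 2) (x y : (Fin d → ZMod 2) × (Fin d → ZMod 2)) :
    qf a b (x + y) = qf a b x + qf a b y + symp x y := by
  unfold qf symp
  rw [← Finset.sum_add_distrib, ← Finset.sum_add_distrib]
  refine Finset.sum_congr rfl fun i _ => ?_
  simp only [Prod.fst_add, Prod.snd_add, Pi.add_apply]
  have h2 : ∀ c : ZMod 2, -c = c := by decide
  rw [sub_eq_add_neg, h2]
  ring

lemma qf_isQuad {d : ℕ} (t : ZMod 2) (a b : Fin d → ZMod 2) :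
    IsQuad t (qf a b) ↔ ∑ i, a i * b i = t := by
  have : ∑ i, qf a b (Pi.single i 1, 0) * qf a b (0, Pi.single i 1) = ∑ i, a i * b i :=
    Finset.sum_congr rfl fun i _ => by rw [(qf_single a b i).1, (qf_single a b i).2]
  constructor
  · intro h
    rw [← this]
    exact h.2
  · intro h
    exact ⟨qf_add a b, this.trans h⟩

lemma eq_qf {d : ℕ} (θ : (Fin d → ZMod 2) × (Fin d → ZMod 2) → ZMod 2)
    (h : ∀ x y, θ (x + y) = θ x + θ y + symp x y) :
    θ = qf (fun i => θ (Pi.single i 1, 0)) (fun i => θ (0, Pi.single i 1)) := by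
  set a : Fin d → ZMod 2 := fun i => θ (Pi.single i 1, 0) with ha
  set b : Fin d → ZMod 2 := fun i => θ (0, Pi.single i 1) with hb
  have hsub : ∀ x y, θ (x + y) - qf a b (x + y) = (θ x - qf a b x) + (θ y - qf a b y) := by
    intro x y
    rw [h, qf_add]
    ring
  let D : ((Fin d → ZMod 2) × (Fin d → ZMod 2)) →+ ZMod 2 :=
    AddMonoidHom.mk' (fun x => θ x - qf a b x) hsub
  have hD : ∀ x, D x = θ x - qf a b x := fun x => rfl
  have h1 : ∀ i (c : ZMod 2), D (Pi.single i c, 0) = 0 := by
    intro i c
    have hc : c = 0 ∨ c = 1 := by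
      revert c; decide
    rcases hc with rfl | rfl
    · rw [Pi.single_zero]; exact map_zero D
    · rw [hD, (qf_single a b i).1, ha, sub_self]
  have h2 : ∀ i (c : ZMod 2), D (0, Pi.single i c) = 0 := by
    intro i c
    have hc : c = 0 ∨ c = 1 := by
      revert c; decide
    rcases hc with rfl | rfl
    · rw [Pi.single_zero]; exact map_zero D
    · rw [hD, (qf_single a b i).2, hb, sub_self]
  have h3 : ∀ x, D x = 0 := by
    rintro ⟨x, y⟩
    have e : ((x, y) : (Fin d → ZMod 2) × (Fin d → ZMod 2)) =
        (∑ i, ((Pi.single i (x i), 0) : (Fin d → ZMod 2) × (Fin d → ZMod 2))) +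
          ∑ i, ((0, Pi.single i (y i)) : (Fin d → ZMod 2) × (Fin d → ZMod 2)) := by
      apply Prod.ext
      · simp only [Prod.fst_add, Prod.fst_sum, Finset.sum_const_zero, add_zero]
        exact (Finset.univ_sum_single x).symm
      · simp only [Prod.snd_add, Prod.snd_sum, Finset.sum_const_zero, zero_add]
        exact (Finset.univ_sum_single y).symm
    rw [e, map_add, map_sum, map_sum, Finset.sum_eq_zero fun i _ => h1 i _,
      Finset.sum_eq_zero fun i _ => h2 i _, add_zero]
  funext x
  have := h3 x
  rw [hD] at this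
  exact sub_eq_zero.mp this

/-- the symplectic form is nondegenerate -/
lemma symp_nondeg {K : Type*} [Field K] {d : ℕ} (x : (Fin d → K) × (Fin d → K))
    (h : ∀ y, symp x y = 0) : x = 0 := by
  apply Prod.ext
  · funext i
    have := h (0, Pi.single i 1)
    unfold symp at this
    rw [Finset.sum_eq_single i] at this
    · simpa using this
    · intro j _ hj
      simp [Pi.single_eq_of_ne hj]
    · intro h
      exact absurd (Finset.mem_univ i) h
  · funext i
    have := h (Pi.single i 1, 0)
    unfold symp at this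
    rw [Finset.sum_eq_single i] at this
    · simpa using this
    · intro j _ hj
      simp [Pi.single_eq_of_ne hj]
    · intro h
      exact absurd (Finset.mem_univ i) h

lemma symp_add_left {K : Type*} [Field K] {d : ℕ} (x x' y : (Fin d → K) × (Fin d → K)) :
    symp (x + x') y = symp x y + symp x' y := by
  unfold symp
  rw [← Finset.sum_add_distrib]
  refine Finset.sum_congr rfl fun i _ => ?_
  simp only [Prod.fst_add, Prod.snd_add, Pi.add_apply]
  ring

lemma symp_add_right {K : Type*} [Field K] {d : ℕ} (x y y' : (Fin d → K) × (Fin d → K)) :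
    symp x (y + y') = symp x y + symp x y' := by
  unfold symp
  rw [← Finset.sum_add_distrib]
  refine Finset.sum_congr rfl fun i _ => ?_
  simp only [Prod.fst_add, Prod.snd_add, Pi.add_apply]
  ring

lemma symp_smul_left {K : Type*} [Field K] {d : ℕ} (c : K) (x y : (Fin d → K) × (Fin d → K)) :
    symp (c • x) y = c * symp x y := by
  unfold symp
  rw [Finset.mul_sum]
  refine Finset.sum_congr rfl fun i _ => ?_
  simp only [Prod.smul_fst, Prod.smul_snd, Pi.smul_apply, smul_eq_mul]
  ring

lemma symp_smul_right {K : Type*} [Field K] {d : ℕ} (c : K) (x y : (Fin d → K) × (Fin d → K)) :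
    symp x (c • y) = c * symp x y := by
  unfold symp
  rw [Finset.mul_sum]
  refine Finset.sum_congr rfl fun i _ => ?_
  simp only [Prod.smul_fst, Prod.smul_snd, Pi.smul_apply, smul_eq_mul]
  ring

lemma symp_self {K : Type*} [Field K] {d : ℕ} (x : (Fin d → K) × (Fin d → K)) :
    symp x x = 0 := by
  unfold symp
  refine Finset.sum_eq_zero fun i _ => ?_
  ring

lemma symp_swap {K : Type*} [Field K] {d : ℕ} (x y : (Fin d → K) × (Fin d → K)) :
    symp y x = - symp x y := by
  unfold symp
  rw [← Finset.sum_neg_distrib]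
  refine Finset.sum_congr rfl fun i _ => ?_
  ring

end Pltc
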