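import Mathlib
import Pool.Agent.Lib.Pltc.QuadBasics

/-!
Module Pltc.QuadChart: the quadratic forms taking the value `1` at the first basis vector, as an
affine space over `𝔽₂^{2(d-1)}`.

Coordinates: write `V = 𝔽₂^{d+1} × 𝔽₂^{d+1}`, split `Fin (d+1)` by `Fin.cons`.  A form `θ = qf a b`
(`eq_qf`) of Arf invariant `t` with `θ (e_0, 0) = a 0 = 1` is determined by `(a', b') : V'`
(`V' = 𝔽₂^d × 𝔽₂^d`, tails of `a, b`): `b 0 = t - ∑ a'_i b'_i`.  For `w = (w₁, w₂) : V'` let `j w` be the
index (under `e`) of the form with `a' = w₂`, `b' = w₁` (so that its restriction to `V'` is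
`x ↦ ∑ x_i y_i + symp x w` for the vector `w`: `symp (x, y) (w₁, w₂) = ∑ (x_i w₂_i - y_i w₁_i)`).
 * injective, range = forms with value `1` at the first basis vector: clear.
 * `n ≤ 3 * 4^d`: a form `qf a b` is determined by `(a', b')` and `(a 0, b 0)` with
   `a 0 * b 0 = t - ∑ a' b'` given; at most `3` of the `4` pairs are possible.
 * translations: for `b ∈ V'` the linear map `τ_b (α, β; x) = (α + symp x b, β; x + β b)` (with
   `(α, β)` = the coordinates along `e_0, f_0`, `x ∈ V'`) preserves `symp`, fixes the first basis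
   vector, and `θ (τ_b (0, 0; x)) = θ (symp x b, 0; x) = symp x b * θ (e_0) + θ (0,0;x)`; so it acts on
   the chart by `w ↦ w + b` (the Arf invariant is `t` automatically, as `e (π k)` is an element of the
   subtype; a form in the chart is determined by its restriction to `V'`).
 * linear maps: for `g` symplectic on `V'` let `h` be its inverse (finite injective) extended by the
   identity on `(α, β)`: it acts on the chart by `w ↦ g w + c` for a fixed `c` (as
   `θ₀ (h x) = θ₀ x + symp x c`, where `θ₀ (x, y) = ∑ x_i y_i`: the difference of two forms with the same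
   polarisation is additive, so of the form `symp x c`; and `symp (h x) w = symp x (g w)`).  Compose with
   the translation by `-c`.
-/

set_option autoImplicit false
open Classical

namespace Pltc

open P61e83e

/-- the vectors with vanishing first pair of coordinates -/
def qcEmb {d : ℕ} (x : (Fin d → ZMod 2) × (Fin d → ZMod 2)) :
    (Fin (d + 1) → ZMod 2) × (Fin (d + 1) → ZMod 2) :=
  ((Fin.cons 0 x.1 : Fin (d + 1) → ZMod 2), (Fin.cons 0 x.2 : Fin (d + 1) → ZMod 2))

/-- forgetting the first pair of coordinates -/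
def qcTl {d : ℕ} (x : (Fin (d + 1) → ZMod 2) × (Fin (d + 1) → ZMod 2)) :
    (Fin d → ZMod 2) × (Fin d → ZMod 2) :=
  (fun i => x.1 i.succ, fun i => x.2 i.succ)

lemma qcTl_add {d : ℕ} (x y : (Fin (d + 1) → ZMod 2) × (Fin (d + 1) → ZMod 2)) :
    qcTl (x + y) = qcTl x + qcTl y := rfl

lemma qcTl_smul {d : ℕ} (c : ZMod 2) (x : (Fin (d + 1) → ZMod 2) × (Fin (d + 1) → ZMod 2)) :
    qcTl (c • x) = c • qcTl x := rfl

lemma qcTl_emb {d : ℕ} (x : (Fin d → ZMod 2) × (Fin d → ZMod 2)) : qcTl (qcEmb x) = x := by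
  apply Prod.ext
  · funext i; simp [qcTl, qcEmb]
  · funext i; simp [qcTl, qcEmb]

lemma symp_succ {d : ℕ} (x y : (Fin (d + 1) → ZMod 2) × (Fin (d + 1) → ZMod 2)) :
    symp x y = (x.1 0 * y.2 0 - x.2 0 * y.1 0) + symp (qcTl x) (qcTl y) := by
  unfold symp
  rw [Fin.sum_univ_succ]
  rfl

/-- extension of a linear map by shears -/
def qcLift {d : ℕ} (h : ((Fin d → ZMod 2) × (Fin d → ZMod 2)) →ₗ[ZMod 2]
      ((Fin d → ZMod 2) × (Fin d → ZMod 2)))
    (b : (Fin d → ZMod 2) × (Fin d → ZMod 2)) :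
    ((Fin (d + 1) → ZMod 2) × (Fin (d + 1) → ZMod 2)) →ₗ[ZMod 2]
      ((Fin (d + 1) → ZMod 2) × (Fin (d + 1) → ZMod 2)) where
  toFun x := ((Fin.cons (x.1 0 + symp (h (qcTl x)) b) (h (qcTl x) + x.2 0 • b).1 :
      Fin (d + 1) → ZMod 2),
    (Fin.cons (x.2 0) (h (qcTl x) + x.2 0 • b).2 : Fin (d + 1) → ZMod 2))
  map_add' x y := by
    apply Prod.ext
    · funext i
      refine Fin.cases ?_ (fun k => ?_) i
      · simp only [Prod.fst_add, Pi.add_apply, Fin.cons_zero, qcTl_add, map_add, symp_add_left]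
        ring
      · simp only [Prod.fst_add, Prod.snd_add, Pi.add_apply, Fin.cons_succ, qcTl_add, map_add,
          Prod.smul_fst, Pi.smul_apply, smul_eq_mul]
        ring
    · funext i
      refine Fin.cases ?_ (fun k => ?_) i
      · simp only [Prod.snd_add, Pi.add_apply, Fin.cons_zero]
      · simp only [Prod.snd_add, Pi.add_apply, Fin.cons_succ, qcTl_add, map_add,
          Prod.smul_snd, Pi.smul_apply, smul_eq_mul]
        ring
  map_smul' c x := by
    apply Prod.ext
    · funext i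
      refine Fin.cases ?_ (fun k => ?_) i
      · simp only [Prod.smul_fst, Pi.smul_apply, Fin.cons_zero, qcTl_smul, map_smul,
          symp_smul_left, smul_eq_mul, RingHom.id_apply]
        ring
      · simp only [Prod.smul_fst, Prod.smul_snd, Pi.smul_apply, Fin.cons_succ, qcTl_smul,
          map_smul, smul_eq_mul, Prod.fst_add, Pi.add_apply, RingHom.id_apply]
        ring
    · funext i
      refine Fin.cases ?_ (fun k => ?_) i
      · simp only [Prod.smul_snd, Pi.smul_apply, Fin.cons_zero, RingHom.id_apply]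
      · simp only [Prod.smul_snd, Pi.smul_apply, Fin.cons_succ, qcTl_smul,
          map_smul, smul_eq_mul, Prod.snd_add, Pi.add_apply, RingHom.id_apply]
        ring

lemma qcLift_fst {d : ℕ} (h : ((Fin d → ZMod 2) × (Fin d → ZMod 2)) →ₗ[ZMod 2]
      ((Fin d → ZMod 2) × (Fin d → ZMod 2)))
    (b : (Fin d → ZMod 2) × (Fin d → ZMod 2))
    (x : (Fin (d + 1) → ZMod 2) × (Fin (d + 1) → ZMod 2)) :
    (qcLift h b x).1 0 = x.1 0 + symp (h (qcTl x)) b := rfl

lemma qcLift_snd {d : ℕ} (h : ((Fin d → ZMod 2) × (Fin d → ZMod 2)) →ₗ[ZMod 2]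
      ((Fin d → ZMod 2) × (Fin d → ZMod 2)))
    (b : (Fin d → ZMod 2) × (Fin d → ZMod 2))
    (x : (Fin (d + 1) → ZMod 2) × (Fin (d + 1) → ZMod 2)) :
    (qcLift h b x).2 0 = x.2 0 := rfl

lemma qcLift_tl {d : ℕ} (h : ((Fin d → ZMod 2) × (Fin d → ZMod 2)) →ₗ[ZMod 2]
      ((Fin d → ZMod 2) × (Fin d → ZMod 2)))
    (b : (Fin d → ZMod 2) × (Fin d → ZMod 2))
    (x : (Fin (d + 1) → ZMod 2) × (Fin (d + 1) → ZMod 2)) :
    qcTl (qcLift h b x) = h (qcTl x) + x.2 0 • b := by
  apply Prod.ext <;> rfl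

lemma zmod2_neg (c : ZMod 2) : -c = c := by revert c; decide

lemma zmod2_add_self (c : ZMod 2) : c + c = 0 := by revert c; decide

lemma qcLift_symp {d : ℕ} (h : ((Fin d → ZMod 2) × (Fin d → ZMod 2)) →ₗ[ZMod 2]
      ((Fin d → ZMod 2) × (Fin d → ZMod 2)))
    (hh : ∀ x y, symp (h x) (h y) = symp x y)
    (b : (Fin d → ZMod 2) × (Fin d → ZMod 2))
    (x y : (Fin (d + 1) → ZMod 2) × (Fin (d + 1) → ZMod 2)) :
    symp (qcLift h b x) (qcLift h b y) = symp x y := by
  rw [symp_succ, symp_succ x y, qcLift_fst, qcLift_snd, qcLift_fst, qcLift_snd, qcLift_tl,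
    qcLift_tl]
  rw [symp_add_left, symp_add_right, symp_add_right, symp_smul_right, symp_smul_right,
    symp_smul_left, symp_smul_left, symp_self, hh, symp_swap (h (qcTl y)) b]
  have e := zmod2_add_self (y.2 0 * symp (h (qcTl x)) b)
  have e' := zmod2_add_self (x.2 0 * symp (h (qcTl y)) b)
  linear_combination e - e'

/-- the form of Arf invariant `t` with value `1` at the first basis vector attached to `w` -/
def qcForm {d : ℕ} (t : ZMod 2) (w : (Fin d → ZMod 2) × (Fin d → ZMod 2)) :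
    (Fin (d + 1) → ZMod 2) × (Fin (d + 1) → ZMod 2) → ZMod 2 :=
  qf (Fin.cons 1 w.2 : Fin (d + 1) → ZMod 2)
    (Fin.cons (t + ∑ i, w.2 i * w.1 i) w.1 : Fin (d + 1) → ZMod 2)

lemma qcForm_isQuad {d : ℕ} (t : ZMod 2) (w : (Fin d → ZMod 2) × (Fin d → ZMod 2)) :
    IsQuad t (qcForm t w) := by
  unfold qcForm
  rw [qf_isQuad, Fin.sum_univ_succ]
  simp only [Fin.cons_zero, Fin.cons_succ, one_mul]
  rw [add_assoc, zmod2_add_self, add_zero]

lemma qcForm_e0 {d : ℕ} (t : ZMod 2) (w : (Fin d → ZMod 2) × (Fin d → ZMod 2)) :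
    qcForm t w (Pi.single 0 1, 0) = 1 := by
  unfold qcForm
  rw [(qf_single _ _ 0).1, Fin.cons_zero]

lemma qcForm_succ {d : ℕ} (t : ZMod 2) (w : (Fin d → ZMod 2) × (Fin d → ZMod 2)) (k : Fin d) :
    qcForm t w (Pi.single k.succ 1, 0) = w.2 k ∧ qcForm t w (0, Pi.single k.succ 1) = w.1 k := by
  unfold qcForm
  rw [(qf_single _ _ _).1, (qf_single _ _ _).2, Fin.cons_succ, Fin.cons_succ]
  exact ⟨rfl, rfl⟩

lemma qcForm_emb {d : ℕ} (t : ZMod 2) (w x : (Fin d → ZMod 2) × (Fin d → ZMod 2)) :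
    qcForm t w (qcEmb x) = qf 0 0 x + symp x w := by
  unfold qcForm qf qcEmb symp
  rw [Fin.sum_univ_succ, ← Finset.sum_add_distrib]
  simp only [Fin.cons_zero, Fin.cons_succ, mul_zero, add_zero, zero_add, Pi.zero_apply, zero_mul]
  refine Finset.sum_congr rfl fun i _ => ?_
  rw [sub_eq_add_neg, zmod2_neg]
  ring

/-- a form with value `1` at the first basis vector is in the chart -/
lemma eq_qcForm {d : ℕ} (t : ZMod 2) (θ : (Fin (d + 1) → ZMod 2) × (Fin (d + 1) → ZMod 2) → ZMod 2)
    (hθ : IsQuad t θ) (h0 : θ (Pi.single 0 1, 0) = 1)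
    (w : (Fin d → ZMod 2) × (Fin d → ZMod 2))
    (h1 : ∀ k : Fin d, θ (Pi.single k.succ 1, 0) = w.2 k)
    (h2 : ∀ k : Fin d, θ (0, Pi.single k.succ 1) = w.1 k) : θ = qcForm t w := by
  have hq := eq_qf θ hθ.1
  have hs := hθ.2
  rw [Fin.sum_univ_succ, h0, one_mul] at hs
  simp only [h1, h2] at hs
  have hb0 : θ (0, Pi.single 0 1) = t + ∑ i, w.2 i * w.1 i := by
    rw [← hs, add_assoc, zmod2_add_self, add_zero]
  have ha : (fun i => θ (Pi.single i 1, 0)) = (Fin.cons 1 w.2 : Fin (d + 1) → ZMod 2) := by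
    funext i
    refine Fin.cases ?_ (fun k => ?_) i
    · rw [Fin.cons_zero]; exact h0
    · rw [Fin.cons_succ]; exact h1 k
  have hb : (fun i => θ (0, Pi.single i 1)) =
      (Fin.cons (t + ∑ i, w.2 i * w.1 i) w.1 : Fin (d + 1) → ZMod 2) := by
    funext i
    refine Fin.cases ?_ (fun k => ?_) i
    · rw [Fin.cons_zero]; exact hb0
    · rw [Fin.cons_succ]; exact h2 k
  rw [ha, hb] at hq
  exact hq

lemma single_succ_eq {d : ℕ} (k : Fin d) :
    (Pi.single k.succ 1 : Fin (d + 1) → ZMod 2) = Fin.cons 0 (Pi.single k 1) := by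
  funext i
  refine Fin.cases ?_ (fun l => ?_) i
  · rw [Fin.cons_zero, Pi.single_eq_of_ne (Fin.succ_ne_zero k).symm]
  · rw [Fin.cons_succ, Pi.single_apply, Pi.single_apply]
    simp only [Fin.succ_inj]

lemma zero_eq_cons {d : ℕ} : (0 : Fin (d + 1) → ZMod 2) = Fin.cons 0 0 := by
  funext i
  refine Fin.cases ?_ (fun l => ?_) i
  · rfl
  · rw [Fin.cons_succ]; rfl

lemma eq_qcForm_of_emb {d : ℕ} (t : ZMod 2)
    (θ : (Fin (d + 1) → ZMod 2) × (Fin (d + 1) → ZMod 2) → ZMod 2)
    (hθ : IsQuad t θ) (h0 : θ (Pi.single 0 1, 0) = 1)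
    (w : (Fin d → ZMod 2) × (Fin d → ZMod 2))
    (h1 : ∀ x, θ (qcEmb x) = qf 0 0 x + symp x w) : θ = qcForm t w := by
  apply eq_qcForm t θ hθ h0
  · intro k
    have e : ((Pi.single k.succ 1, 0) : (Fin (d + 1) → ZMod 2) × (Fin (d + 1) → ZMod 2)) =
        qcEmb (Pi.single k 1, 0) := by
      unfold qcEmb
      rw [single_succ_eq, zero_eq_cons]
    rw [e, h1, ← qcForm_emb t, ← e, (qcForm_succ t w k).1]
  · intro k
    have e : ((0, Pi.single k.succ 1) : (Fin (d + 1) → ZMod 2) × (Fin (d + 1) → ZMod 2)) =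
        qcEmb (0, Pi.single k 1) := by
      unfold qcEmb
      rw [single_succ_eq, zero_eq_cons]
    rw [e, h1, ← qcForm_emb t, ← e, (qcForm_succ t w k).2]

lemma qf_eq_add {d : ℕ} (a b : Fin d → ZMod 2) (x : (Fin d → ZMod 2) × (Fin d → ZMod 2)) :
    qf a b x = qf 0 0 x + symp x (b, a) := by
  unfold qf symp
  rw [← Finset.sum_add_distrib]
  refine Finset.sum_congr rfl fun i _ => ?_
  simp only [Pi.zero_apply, zero_mul, add_zero]
  rw [sub_eq_add_neg, zmod2_neg]
  ring

lemma qcLift_e0 {d : ℕ} (h : ((Fin d → ZMod 2) × (Fin d → ZMod 2)) →ₗ[ZMod 2]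
      ((Fin d → ZMod 2) × (Fin d → ZMod 2)))
    (b : (Fin d → ZMod 2) × (Fin d → ZMod 2)) :
    qcLift h b (Pi.single 0 1, 0) = (Pi.single 0 1, 0) := by
  have htl : qcTl ((Pi.single 0 1, 0) : (Fin (d + 1) → ZMod 2) × (Fin (d + 1) → ZMod 2)) = 0 := by
    apply Prod.ext
    · funext i
      exact Pi.single_eq_of_ne (Fin.succ_ne_zero i) 1
    · rfl
  have hs : symp (0 : (Fin d → ZMod 2) × (Fin d → ZMod 2)) b = 0 := by
    have := symp_smul_left (0 : ZMod 2) 0 b
    simpa using this
  apply Prod.ext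
  · funext i
    refine Fin.cases ?_ (fun k => ?_) i
    · rw [qcLift_fst, htl, map_zero, hs, add_zero]
    · have := congrArg (fun y => y.1 k) (qcLift_tl h b (Pi.single 0 1, 0))
      rw [htl] at this
      simp only [map_zero, Pi.zero_apply, zero_smul, add_zero, Prod.fst_zero] at this
      have e : (Pi.single 0 1 : Fin (d + 1) → ZMod 2) k.succ = 0 :=
        Pi.single_eq_of_ne (Fin.succ_ne_zero k) 1
      exact Eq.trans this e.symm
  · funext i
    refine Fin.cases ?_ (fun k => ?_) i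
    · rw [qcLift_snd]
    · have := congrArg (fun y => y.2 k) (qcLift_tl h b (Pi.single 0 1, 0))
      rw [htl] at this
      simp only [map_zero, Pi.zero_apply, zero_smul, add_zero, Prod.snd_zero] at this
      exact this

lemma qcLift_emb {d : ℕ} (h : ((Fin d → ZMod 2) × (Fin d → ZMod 2)) →ₗ[ZMod 2]
      ((Fin d → ZMod 2) × (Fin d → ZMod 2)))
    (b x : (Fin d → ZMod 2) × (Fin d → ZMod 2)) :
    qcLift h b (qcEmb x) = symp (h x) b • ((Pi.single 0 1, 0) :
      (Fin (d + 1) → ZMod 2) × (Fin (d + 1) → ZMod 2)) + qcEmb (h x) := by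
  have h0 : (qcEmb x).2 0 = 0 := rfl
  have h0' : (qcEmb x).1 0 = 0 := rfl
  apply Prod.ext
  · funext i
    refine Fin.cases ?_ (fun k => ?_) i
    · rw [qcLift_fst, qcTl_emb, h0']
      simp [qcEmb]
    · have := congrArg (fun y => y.1 k) (qcLift_tl h b (qcEmb x))
      rw [qcTl_emb, h0, zero_smul, add_zero] at this
      have e : (qcLift h b (qcEmb x)).1 k.succ = (h x).1 k := this
      rw [e]
      simp [qcEmb]
  · funext i
    refine Fin.cases ?_ (fun k => ?_) i
    · rw [qcLift_snd, h0]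
      simp [qcEmb]
    · have := congrArg (fun y => y.2 k) (qcLift_tl h b (qcEmb x))
      rw [qcTl_emb, h0, zero_smul, add_zero] at this
      have e : (qcLift h b (qcEmb x)).2 k.succ = (h x).2 k := this
      rw [e]
      simp [qcEmb]

/-- value of a chart form at `c e_0 + x`, `x` in the complement -/
lemma qcForm_add_emb {d : ℕ} (t : ZMod 2) (w x : (Fin d → ZMod 2) × (Fin d → ZMod 2))
    (c : ZMod 2) :
    qcForm t w (c • ((Pi.single 0 1, 0) : (Fin (d + 1) → ZMod 2) × (Fin (d + 1) → ZMod 2)) +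
      qcEmb x) = c + (qf 0 0 x + symp x w) := by
  have hq := qcForm_isQuad t w
  rw [hq.1, qcForm_emb, symp_smul_left]
  have e1 : symp ((Pi.single 0 1, 0) : (Fin (d + 1) → ZMod 2) × (Fin (d + 1) → ZMod 2))
      (qcEmb x) = 0 := by
    rw [symp_succ]
    have htl : qcTl ((Pi.single 0 1, 0) :
        (Fin (d + 1) → ZMod 2) × (Fin (d + 1) → ZMod 2)) = 0 := by
      apply Prod.ext
      · funext i
        exact Pi.single_eq_of_ne (Fin.succ_ne_zero i) 1
      · rfl
    have hs : symp (0 : (Fin d → ZMod 2) × (Fin d → ZMod 2)) (qcTl (qcEmb x)) = 0 := by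
      have := symp_smul_left (0 : ZMod 2) 0 (qcTl (qcEmb x))
      simpa using this
    rw [htl, hs]
    simp [qcEmb]
  have e2 : qcForm t w (c • ((Pi.single 0 1, 0) :
      (Fin (d + 1) → ZMod 2) × (Fin (d + 1) → ZMod 2))) = c := by
    have hc : c = 0 ∨ c = 1 := by revert c; decide
    rcases hc with rfl | rfl
    · rw [zero_smul]
      have := hq.1 0 0
      rw [add_zero] at this
      have hs : symp (0 : (Fin (d + 1) → ZMod 2) × (Fin (d + 1) → ZMod 2)) 0 = 0 :=
        symp_self 0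
      rw [hs, add_zero, zmod2_add_self] at this
      exact this
    · rw [one_smul, qcForm_e0]
  rw [e1, e2, mul_zero, add_zero]

theorem quad_chart {F : Type} [Field F] {n : ℕ} (C : Submodule F (Fin n → F)) (d : ℕ)
    (t : ZMod 2)
    (e : Fin n ≃ {θ : (Fin (d + 1) → ZMod 2) × (Fin (d + 1) → ZMod 2) → ZMod 2 // IsQuad t θ})
    (hsym : ∀ g : ((Fin (d + 1) → ZMod 2) × (Fin (d + 1) → ZMod 2)) →ₗ[ZMod 2]
      ((Fin (d + 1) → ZMod 2) × (Fin (d + 1) → ZMod 2)),
      (∀ x y, symp (g x) (g y) = symp x y) →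
      ∃ π : Equiv.Perm (Fin n), Pres C π ∧ ∀ k x, (e (π k)).1 x = (e k).1 (g x)) :
    ∃ j : (Fin d → ZMod 2) × (Fin d → ZMod 2) → Fin n, Function.Injective j ∧
      n ≤ 3 * Fintype.card ((Fin d → ZMod 2) × (Fin d → ZMod 2)) ∧
      (∀ i, (e i).1 (Pi.single 0 1, 0) = 1 → ∃ x, j x = i) ∧
      (∀ b, ∃ π : Equiv.Perm (Fin n), Pres C π ∧ ∀ x, π (j x) = j (x + b)) ∧
      ∀ g : ((Fin d → ZMod 2) × (Fin d → ZMod 2)) →ₗ[ZMod 2]
        ((Fin d → ZMod 2) × (Fin d → ZMod 2)), (∀ x y, symp (g x) (g y) = symp x y) →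
        ∃ π : Equiv.Perm (Fin n), Pres C π ∧ ∀ x, π (j x) = j (g x) := by
  set j : (Fin d → ZMod 2) × (Fin d → ZMod 2) → Fin n :=
    fun w => e.symm ⟨qcForm t w, qcForm_isQuad t w⟩ with hj
  have hje : ∀ w, (e (j w)).1 = qcForm t w := by
    intro w
    rw [hj]
    simp
  have hjeq : ∀ i w, (e i).1 = qcForm t w → i = j w := by
    intro i w h
    apply e.injective
    apply Subtype.ext
    rw [h, hje]
  have htrans : ∀ b : (Fin d → ZMod 2) × (Fin d → ZMod 2),
      ∃ π : Equiv.Perm (Fin n), Pres C π ∧ ∀ x, π (j x) = j (x + b) := by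
    intro b
    obtain ⟨π, hπ, hπe⟩ := hsym (qcLift LinearMap.id b)
      (qcLift_symp LinearMap.id (fun _ _ => rfl) b)
    refine ⟨π, hπ, fun w => hjeq _ _ ?_⟩
    apply eq_qcForm_of_emb t _ (e (π (j w))).2
    · rw [hπe, hje, qcLift_e0, qcForm_e0]
    · intro x
      rw [hπe, hje, qcLift_emb, qcForm_add_emb, symp_add_right]
      simp only [LinearMap.id_apply]
      ring
  refine ⟨j, ?_, ?_, ?_, htrans, ?_⟩
  · intro w w' h
    have h1 : qcForm t w = qcForm t w' := by rw [← hje, ← hje, h]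
    apply Prod.ext
    · funext k
      rw [← (qcForm_succ t w k).2, h1, (qcForm_succ t w' k).2]
    · funext k
      rw [← (qcForm_succ t w k).1, h1, (qcForm_succ t w' k).1]
  · -- cardinality
    let φ : Fin n → ((Fin d → ZMod 2) × (Fin d → ZMod 2)) × Fin 3 := fun i =>
      ((fun k => (e i).1 (Pi.single k.succ 1, 0), fun k => (e i).1 (0, Pi.single k.succ 1)),
        if (e i).1 (Pi.single 0 1, 0) = 1 then 0
          else if (e i).1 (0, Pi.single 0 1) = 1 then 1 else 2)
    have hφ : Function.Injective φ := by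
      intro i i' h
      have h1 : ∀ k : Fin d, (e i).1 (Pi.single k.succ 1, 0) = (e i').1 (Pi.single k.succ 1, 0) :=
        fun k => congrFun (congrArg (fun z => z.1.1) h) k
      have h2 : ∀ k : Fin d, (e i).1 (0, Pi.single k.succ 1) = (e i').1 (0, Pi.single k.succ 1) :=
        fun k => congrFun (congrArg (fun z => z.1.2) h) k
      have h3 : (if (e i).1 (Pi.single 0 1, 0) = 1 then (0 : Fin 3)
          else if (e i).1 (0, Pi.single 0 1) = 1 then 1 else 2) =
          (if (e i').1 (Pi.single 0 1, 0) = 1 then (0 : Fin 3)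
          else if (e i').1 (0, Pi.single 0 1) = 1 then 1 else 2) :=
        congrArg (fun z => z.2) h
      have hq := (e i).2.2
      have hq' := (e i').2.2
      rw [Fin.sum_univ_succ] at hq hq'
      simp only [h1, h2] at hq
      have key : (e i).1 (Pi.single 0 1, 0) = (e i').1 (Pi.single 0 1, 0) ∧
          (e i).1 (0, Pi.single 0 1) = (e i').1 (0, Pi.single 0 1) := by
        have hq3 := hq.trans hq'.symm
        have hq4 := add_right_cancel hq3
        revert h3 hq4
        generalize (e i).1 (Pi.single 0 1, 0) = α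
        generalize (e i).1 (0, Pi.single 0 1) = β
        generalize (e i').1 (Pi.single 0 1, 0) = α'
        generalize (e i').1 (0, Pi.single 0 1) = β'
        revert α β α' β'
        decide
      have hθ : (e i).1 = (e i').1 := by
        rw [eq_qf (e i).1 (e i).2.1, eq_qf (e i').1 (e i').2.1]
        congr 1
        · funext k
          refine Fin.cases ?_ (fun l => ?_) k
          · exact key.1
          · exact h1 l
        · funext k
          refine Fin.cases ?_ (fun l => ?_) k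
          · exact key.2
          · exact h2 l
      exact e.injective (Subtype.ext hθ)
    have hc := Fintype.card_le_of_injective φ hφ
    rw [Fintype.card_fin, Fintype.card_prod, Fintype.card_fin] at hc
    linarith
  · intro i hi
    refine ⟨(fun k => (e i).1 (0, Pi.single k.succ 1), fun k => (e i).1 (Pi.single k.succ 1, 0)),
      (hjeq i _ ?_).symm⟩
    exact eq_qcForm t _ (e i).2 hi _ (fun k => rfl) (fun k => rfl)
  · intro g hg
    have hinj : Function.Injective g := by
      rw [← LinearMap.ker_eq_bot, LinearMap.ker_eq_bot']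
      intro x hx
      apply symp_nondeg
      intro y
      rw [← hg, hx]
      have := symp_smul_left (0 : ZMod 2) 0 (g y)
      simpa using this
    let G := LinearEquiv.ofInjectiveEndo g hinj
    let h : ((Fin d → ZMod 2) × (Fin d → ZMod 2)) →ₗ[ZMod 2]
      ((Fin d → ZMod 2) × (Fin d → ZMod 2)) := G.symm.toLinearMap
    have hgh : ∀ x, g (h x) = x := fun x => G.apply_symm_apply x
    have hh : ∀ x y, symp (h x) (h y) = symp x y := by
      intro x y
      rw [← hg, hgh, hgh]
    have hhg : ∀ x w, symp (h x) w = symp x (g w) := by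
      intro x w
      rw [← hg, hgh]
    obtain ⟨c, hc⟩ : ∃ c, ∀ x, qf 0 0 (h x) = qf 0 0 x + symp x c := by
      have hψ := eq_qf (fun x => qf 0 0 (h x)) (by
        intro x y
        simp only [map_add, qf_add, hh])
      refine ⟨(fun i => qf 0 0 (h (0, Pi.single i 1)), fun i => qf 0 0 (h (Pi.single i 1, 0))),
        fun x => ?_⟩
      rw [← qf_eq_add]
      exact congrFun hψ x
    obtain ⟨π, hπ, hπe⟩ := hsym (qcLift h 0) (qcLift_symp h hh 0)
    obtain ⟨π', hπ', hπ'e⟩ := htrans c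
    refine ⟨π' * π, hπ'.mul hπ, fun w => ?_⟩
    have e1 : π (j w) = j (g w + c) := by
      apply hjeq
      apply eq_qcForm_of_emb t _ (e (π (j w))).2
      · rw [hπe, hje, qcLift_e0, qcForm_e0]
      · intro x
        have hs : symp (h x) (0 : (Fin d → ZMod 2) × (Fin d → ZMod 2)) = 0 := by
          have := symp_smul_right (0 : ZMod 2) (h x) 0
          simpa using this
        rw [hπe, hje, qcLift_emb, qcForm_add_emb, symp_add_right, hs, hc, hhg]
        ring
    rw [Equiv.Perm.mul_apply, e1, hπ'e, add_assoc]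
    have hcc : c + c = 0 := by
      apply Prod.ext
      · funext k; exact zmod2_add_self _
      · funext k; exact zmod2_add_self _
    rw [hcc, add_zero]

end Pltc
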