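import Mathlib
import Pool.Agent.Lib.Pltc.QuadBasics

/-!
Module Pltc.SpTrans: transitivity of the symplectic group over `𝔽₂` on nonzero vectors, and the
vector on which boundedly many quadratic forms all take the value `1`.
-/

set_option autoImplicit false
open Classical

namespace Pltc

/-- the symplectic transvection -/
def spTransv {K : Type*} [Field K] {d : ℕ} (v : (Fin d → K) × (Fin d → K)) :
    ((Fin d → K) × (Fin d → K)) →ₗ[K] ((Fin d → K) × (Fin d → K)) where
  toFun z := z + symp z v • v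
  map_add' x y := by rw [symp_add_left, add_smul]; abel
  map_smul' c x := by
    rw [symp_smul_left, RingHom.id_apply, smul_add, mul_smul]

lemma spTransv_apply {K : Type*} [Field K] {d : ℕ} (v z : (Fin d → K) × (Fin d → K)) :
    spTransv v z = z + symp z v • v := rfl

lemma symp_spTransv {K : Type*} [Field K] {d : ℕ} (v x y : (Fin d → K) × (Fin d → K)) :
    symp (spTransv v x) (spTransv v y) = symp x y := by
  rw [spTransv_apply, spTransv_apply, symp_add_left, symp_add_right, symp_add_right,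
    symp_smul_left, symp_smul_left, symp_smul_right, symp_smul_right, symp_self, symp_swap y v]
  ring

lemma zmod2_cases (a : ZMod 2) : a = 0 ∨ a = 1 := by
  revert a; decide

lemma add_self2 {d : ℕ} (x : (Fin d → ZMod 2) × (Fin d → ZMod 2)) : x + x = 0 := by
  ext i
  · exact CharTwo.add_self_eq_zero _
  · exact CharTwo.add_self_eq_zero _

lemma spTransv_move {d : ℕ} (w w' : (Fin d → ZMod 2) × (Fin d → ZMod 2)) (h : symp w w' = 1) :
    spTransv (w + w') w = w' := by
  rw [spTransv_apply, symp_add_right, symp_self, h, zero_add, one_smul, ← add_assoc, add_self2,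
    zero_add]

lemma exists_symp_one {d : ℕ} (w : (Fin d → ZMod 2) × (Fin d → ZMod 2)) (hw : w ≠ 0) :
    ∃ z, symp w z = 1 := by
  by_contra hcon
  push Not at hcon
  apply hw
  apply symp_nondeg
  intro y
  rcases zmod2_cases (symp w y) with h | h
  · exact h
  · exact absurd h (hcon y)

theorem sp_transitive {d : ℕ} (w w' : (Fin d → ZMod 2) × (Fin d → ZMod 2)) (hw : w ≠ 0)
    (hw' : w' ≠ 0) :
    ∃ g : ((Fin d → ZMod 2) × (Fin d → ZMod 2)) →ₗ[ZMod 2] ((Fin d → ZMod 2) × (Fin d → ZMod 2)),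
      (∀ x y, symp (g x) (g y) = symp x y) ∧ g w = w' := by
  have key : ∃ z, symp w z = 1 ∧ symp w' z = 1 := by
    obtain ⟨z₁, h₁⟩ := exists_symp_one w hw
    obtain ⟨z₂, h₂⟩ := exists_symp_one w' hw'
    rcases zmod2_cases (symp w' z₁) with h | h
    · rcases zmod2_cases (symp w z₂) with h' | h'
      · refine ⟨z₁ + z₂, ?_, ?_⟩
        · rw [symp_add_right, h₁, h', add_zero]
        · rw [symp_add_right, h₂, h, zero_add]
      · exact ⟨z₂, h', h₂⟩
    · exact ⟨z₁, h₁, h⟩
  obtain ⟨z, h₁, h₂⟩ := key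
  refine ⟨(spTransv (z + w')) ∘ₗ (spTransv (w + z)), ?_, ?_⟩
  · intro x y
    rw [LinearMap.comp_apply, LinearMap.comp_apply, symp_spTransv, symp_spTransv]
  · rw [LinearMap.comp_apply, spTransv_move w z h₁, spTransv_move z w']
    rw [symp_swap, h₂]; decide

theorem exists_common_one {d : ℕ} (hd : 0 < d) (q : ℕ) (hq : q ≤ d)
    (S : Finset ((Fin d → ZMod 2) × (Fin d → ZMod 2) → ZMod 2)) (hS : S.card ≤ q)
    (h : ∀ θ ∈ S, ∀ x y, θ (x + y) = θ x + θ y + symp x y) :
    ∃ w : (Fin d → ZMod 2) × (Fin d → ZMod 2), w ≠ 0 ∧ ∀ θ ∈ S, θ w = 1 := by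
  rcases S.eq_empty_or_nonempty with hS0 | ⟨θ₁, hθ₁⟩
  · refine ⟨(Pi.single ⟨0, hd⟩ 1, 0), ?_, ?_⟩
    · intro hc
      have := congrFun (congrArg Prod.fst hc) ⟨0, hd⟩
      simp at this
    · intro θ hθ
      rw [hS0] at hθ
      exact absurd hθ (Finset.notMem_empty _)
  have hzero : ∀ θ ∈ S, θ 0 = 0 := by
    intro θ hθ
    have h1 := h θ hθ 0 0
    rw [symp_self, add_zero, add_zero] at h1
    have h2 : θ 0 + θ 0 = 0 := CharTwo.add_self_eq_zero _
    rw [h2] at h1
    exact h1
  by_contra hcon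
  push Not at hcon
  -- the linear map of differences
  let V := (Fin d → ZMod 2) × (Fin d → ZMod 2)
  let T := S.erase θ₁
  let L : V →+ (T → ZMod 2) :=
    { toFun := fun x θ => θ.1 x - θ₁ x
      map_zero' := by
        funext θ
        have hθ : θ.1 ∈ S := Finset.mem_of_mem_erase θ.2
        simp [hzero _ hθ, hzero _ hθ₁]
      map_add' := by
        intro x y
        funext θ
        have hθ : θ.1 ∈ S := Finset.mem_of_mem_erase θ.2
        simp only [Pi.add_apply]
        rw [h _ hθ, h _ hθ₁]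
        ring }
  let Ll : V →ₗ[ZMod 2] (T → ZMod 2) := L.toZModLinearMap 2
  let W : Submodule (ZMod 2) V := LinearMap.ker Ll
  have hmemW : ∀ x, x ∈ W → ∀ θ ∈ S, θ x = θ₁ x := by
    intro x hx θ hθ
    by_cases hθe : θ = θ₁
    · rw [hθe]
    · have hx' : Ll x = 0 := hx
      have := congrFun hx' ⟨θ, Finset.mem_erase.mpr ⟨hθe, hθ⟩⟩
      exact sub_eq_zero.mp this
  have hWzero : ∀ x ∈ W, θ₁ x = 0 := by
    intro x hx
    rcases zmod2_cases (θ₁ x) with h0 | h1
    · exact h0
    · have hx0 : x ≠ 0 := by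
        rintro rfl
        rw [hzero _ hθ₁] at h1
        exact zero_ne_one h1
      obtain ⟨θ, hθ, hne⟩ := hcon x hx0
      exact absurd ((hmemW x hx θ hθ).trans h1) hne
  have hiso : ∀ x ∈ W, ∀ y ∈ W, symp x y = 0 := by
    intro x hx y hy
    have h1 := h θ₁ hθ₁ x y
    rw [hWzero _ (W.add_mem hx hy), hWzero x hx, hWzero y hy, zero_add, zero_add] at h1
    exact h1.symm
  let B : LinearMap.BilinForm (ZMod 2) V :=
    LinearMap.mk₂ (ZMod 2) (fun x y => symp x y) symp_add_left symp_smul_left symp_add_right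
      symp_smul_right
  have hker : LinearMap.ker B = ⊥ := by
    rw [LinearMap.ker_eq_bot']
    intro x hx
    apply symp_nondeg
    intro y
    exact LinearMap.congr_fun hx y
  have h1 := LinearMap.BilinForm.finrank_add_finrank_orthogonal' (B := B) W
  rw [hker, inf_bot_eq, finrank_bot, add_zero] at h1
  have h2 : W ≤ B.orthogonal W := by
    intro x hx y hy
    exact hiso y hy x hx
  have h3 : Module.finrank (ZMod 2) W ≤ Module.finrank (ZMod 2) (B.orthogonal W) :=
    Submodule.finrank_mono h2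
  have hV : Module.finrank (ZMod 2) V = d + d := by
    simp [V]
  have h4 := LinearMap.finrank_range_add_finrank_ker Ll
  have h5 : Module.finrank (ZMod 2) (LinearMap.range Ll) ≤ Module.finrank (ZMod 2) (T → ZMod 2) :=
    Submodule.finrank_le _
  have h6 : Module.finrank (ZMod 2) (T → ZMod 2) = T.card := by
    simp
  have h7 : T.card = S.card - 1 := Finset.card_erase_of_mem hθ₁
  have h8 : 1 ≤ S.card := Finset.card_pos.mpr ⟨θ₁, hθ₁⟩
  change Module.finrank (ZMod 2) (LinearMap.range Ll) + Module.finrank (ZMod 2) W = _ at h4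
  omega

end Pltc
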