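import Mathlib
import Pool.Agent.Lib.Pltc.FamAffine
import Pool.Agent.Lib.Pltc.QuadChart
import Pool.Agent.Lib.Pltc.SpTrans
import Pool.Agent.Lib.Pltc.ChartDual
import Pool.Agent.Lib.Pltc.Cover

/-!
Module Pltc.FamQuad: the bound for groups containing `Sp(2D, 2)` on quadratic forms of one type.
-/

set_option autoImplicit false
open Classical

namespace Pltc

open P61e83e

/-- the number of quadratic forms of one type is at most `4^D` -/
lemma quad_card_le {n D : ℕ} (t : ZMod 2)
    (e : Fin n ≃ {θ : (Fin D → ZMod 2) × (Fin D → ZMod 2) → ZMod 2 // IsQuad t θ}) :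
    n ≤ 4 ^ D := by
  let ι : Fin n → (Fin D → ZMod 2) × (Fin D → ZMod 2) := fun k =>
    (fun i => (e k).1 (Pi.single i 1, 0), fun i => (e k).1 (0, Pi.single i 1))
  have hι : Function.Injective ι := by
    intro k k' h
    apply e.injective
    apply Subtype.ext
    rw [eq_qf (e k).1 (e k).2.1, eq_qf (e k').1 (e k').2.1]
    have h1 := congrArg Prod.fst h
    have h2 := congrArg Prod.snd h
    simp only [ι] at h1 h2
    rw [h1, h2]
  have h := Fintype.card_le_of_injective ι hι
  rw [Fintype.card_fin, Fintype.card_prod, Fintype.card_fun, ZMod.card, Fintype.card_fin] at h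
  calc n ≤ 2 ^ D * 2 ^ D := h
    _ = 4 ^ D := by rw [← mul_pow]; norm_num

lemma finrank_le_len {F : Type} [Field F] {n : ℕ} (C : Submodule F (Fin n → F)) :
    Module.finrank F C ≤ n := by
  have h := Submodule.finrank_le C
  rwa [Module.finrank_fin_fun] at h

lemma pres_one {F : Type} [Field F] {n : ℕ} (C : Submodule F (Fin n → F)) :
    Pres C (1 : Equiv.Perm (Fin n)) := fun _ hf => hf

lemma trans_of_doubly {F : Type} [Field F] {n : ℕ} (C : Submodule F (Fin n → F))
    (h : DoublyTrans C) (x y : Fin n) : ∃ π : Equiv.Perm (Fin n), Pres C π ∧ π x = y := by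
  by_cases hxy : x = y
  · exact ⟨1, pres_one C, hxy⟩
  · obtain ⟨π, h1, h2, -⟩ := h x y y x hxy (Ne.symm hxy)
    exact ⟨π, h1, h2⟩

theorem famQuad (F : Type) [Field F] [Fintype F] (q : ℕ) (ε : ℝ) (hε : 0 < ε) :
    ∃ c : ℝ, 0 ≤ c ∧ ∀ (n : ℕ) (C : Submodule F (Fin n → F)) (u : Fin n → F),
      u ≠ 0 → wt u ≤ q → Dual C u → DoublyTrans C →
      (∀ f ∈ C, f ≠ 0 → 3 * ε * n ≤ (wt f : ℝ)) → QuadSp C →
      (Module.finrank F C : ℝ) ≤ c * (Real.log n + 1) ^ (4 * q) := by
  obtain ⟨c₀, hc₀, hbound⟩ := sinv_bound F q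
  obtain ⟨k, hk⟩ := exists_pow_lt_of_lt_one (show (0 : ℝ) < 3 * ε by positivity)
    (show (1 - 1 / ((3 : ℕ) : ℝ)) < 1 by norm_num)
  refine ⟨4 ^ (max q 1) + k * c₀, by positivity, ?_⟩
  rintro n C u hu0 hq hu hdt hdist ⟨D, t, e, hsym⟩
  have hlog : 0 ≤ Real.log n := Real.log_natCast_nonneg n
  have hpow : (1 : ℝ) ≤ (Real.log n + 1) ^ (4 * q) := one_le_pow₀ (by linarith)
  by_cases hD : D ≤ max q 1
  · have h1 : (Module.finrank F C : ℝ) ≤ 4 ^ (max q 1) := by
      have h2 : Module.finrank F C ≤ 4 ^ (max q 1) :=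
        (finrank_le_len C).trans ((quad_card_le t e).trans
          (Nat.pow_le_pow_right (by norm_num) hD))
      exact_mod_cast h2
    calc (Module.finrank F C : ℝ) ≤ 4 ^ (max q 1) := h1
      _ ≤ 4 ^ (max q 1) + k * c₀ := by
          have : 0 ≤ (k : ℝ) * c₀ := by positivity
          linarith
      _ = (4 ^ (max q 1) + k * c₀) * 1 := by ring
      _ ≤ _ := by
          apply mul_le_mul_of_nonneg_left hpow
          positivity
  push Not at hD
  obtain ⟨d, rfl⟩ : ∃ d, D = d + 1 := ⟨D - 1, by omega⟩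
  have hd : 0 < d := by
    have := le_max_right q 1
    omega
  have hqd : q ≤ d + 1 := by
    have := le_max_left q 1
    omega
  obtain ⟨j, hj, hn, hcov, htr, hlin⟩ := quad_chart C d t e hsym
  -- the dual word
  set S : Finset ((Fin (d + 1) → ZMod 2) × (Fin (d + 1) → ZMod 2) → ZMod 2) :=
    (Finset.univ.filter fun x => u x ≠ 0).image (fun i => (e i).1) with hS
  have hScard : S.card ≤ q := Finset.card_image_le.trans hq
  have hSq : ∀ θ ∈ S, ∀ x y, θ (x + y) = θ x + θ y + symp x y := by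
    intro θ hθ
    rw [hS, Finset.mem_image] at hθ
    obtain ⟨i, -, rfl⟩ := hθ
    exact (e i).2.1
  obtain ⟨w, hw0, hw⟩ := exists_common_one (Nat.succ_pos d) q hqd S hScard hSq
  have hs0 : ((Pi.single 0 1, 0) : (Fin (d + 1) → ZMod 2) × (Fin (d + 1) → ZMod 2)) ≠ 0 := by
    intro hc
    have := congrFun (congrArg Prod.fst hc) 0
    simp at this
  obtain ⟨g, hg, hgw⟩ := sp_transitive _ w hs0 hw0
  obtain ⟨π, hπ, hπe⟩ := hsym g hg
  have hsupp : ∀ i, u i ≠ 0 → ∃ y, j y = π i := by
    intro i hi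
    apply hcov
    rw [hπe, hgw]
    apply hw
    rw [hS, Finset.mem_image]
    exact ⟨i, by simpa using hi, rfl⟩
  obtain ⟨hu'', hwt''⟩ := dual_comp C π.symm hπ.symm u hu
  set u'' : Fin n → F := fun i => u (π.symm i) with hu''def
  set v : (Fin d → ZMod 2) × (Fin d → ZMod 2) → F := fun y => u'' (j y) with hv
  have hu''supp : ∀ i, u'' i ≠ 0 → ∃ y, j y = i := by
    intro i hi
    obtain ⟨y, hy⟩ := hsupp (π.symm i) hi
    exact ⟨y, by rw [hy, Equiv.apply_symm_apply]⟩
  have hv0 : v ≠ 0 := by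
    intro hc
    apply hu0
    funext i
    by_contra hi
    obtain ⟨y, hy⟩ := hsupp i hi
    have h1 := congrFun hc y
    simp only [hv, hu''def, hy, Equiv.symm_apply_apply, Pi.zero_apply] at h1
    exact hi h1
  have hvwt : wt v ≤ q := by
    have h1 : wt v ≤ wt u'' := by
      unfold wt
      apply Finset.card_le_card_of_injOn j
      · intro y hy
        simpa [hv] using hy
      · exact hj.injOn
    exact h1.trans (hwt''.le.trans hq)
  have hvdual : Dual (pull j C) v := by
    intro f' hf'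
    rw [mem_pull] at hf'
    obtain ⟨f, hf, rfl⟩ := hf'
    have h1 := hu'' f hf
    rw [← h1]
    apply Fintype.sum_of_injective j hj
    · intro i hi
      have : u'' i = 0 := by
        by_contra hne
        exact hi (hu''supp i hne)
      rw [this, zero_mul]
    · intro y
      rfl
  have htr' : ∀ f ∈ pull j C, ∀ b : (Fin d → ZMod 2) × (Fin d → ZMod 2),
      (fun x => f (x + b)) ∈ pull j C := by
    intro f' hf' b
    rw [mem_pull] at hf' ⊢
    obtain ⟨f, hf, rfl⟩ := hf'
    obtain ⟨ρ, hρ, hρj⟩ := htr b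
    refine ⟨fun i => f (ρ i), hρ f hf, ?_⟩
    funext y
    simp only [hρj]
  have hlin' : ∀ g : ((Fin d → ZMod 2) × (Fin d → ZMod 2)) →ₗ[ZMod 2]
      ((Fin d → ZMod 2) × (Fin d → ZMod 2)),
      (∀ x y, symp (g x) (g y) = symp x y) → ∀ f ∈ pull j C, (fun x => f (g x)) ∈ pull j C := by
    intro g hg f' hf'
    rw [mem_pull] at hf' ⊢
    obtain ⟨f, hf, rfl⟩ := hf'
    obtain ⟨ρ, hρ, hρj⟩ := hlin g hg
    refine ⟨fun i => f (ρ i), hρ f hf, ?_⟩
    funext y
    simp only [hρj]
  obtain ⟨L, iL, iLf, φ, hφ⟩ := sinv_of_sp d hd (pull j C) htr' hlin'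
  obtain ⟨hp1, hp2, hp3⟩ := pull_equiv φ (pull j C) v hvdual
  have hv0' : (fun y => v (φ y)) ≠ 0 := by
    intro hc
    apply hv0
    funext x
    have := congrFun hc (φ.symm x)
    simpa using this
  have hb := hbound L L (pull φ (pull j C)) hφ (fun y => v (φ y)) hv0' (by rw [hp3]; exact hvwt) hp2
  rw [hp1] at hb
  have hcard : Fintype.card (L × L) ≤ n := by
    rw [Fintype.card_congr φ]
    have := Fintype.card_le_of_injective j hj
    rwa [Fintype.card_fin] at this
  have hcpos : 0 < Fintype.card (L × L) := Fintype.card_pos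
  have hlogle : Real.log (Fintype.card (L × L)) ≤ Real.log n := by
    apply Real.log_le_log
    · exact_mod_cast hcpos
    · exact_mod_cast hcard
  have hlog0 : 0 ≤ Real.log (Fintype.card (L × L)) := Real.log_natCast_nonneg _
  have hcb := cover_bound C (trans_of_doubly C hdt) j hj 3 (by norm_num) hn (3 * ε) hdist k hk
  calc (Module.finrank F C : ℝ) ≤ k * (Module.finrank F (pull j C) : ℝ) := by exact_mod_cast hcb
    _ ≤ k * (c₀ * (Real.log (Fintype.card (L × L)) + 1) ^ (2 * q)) :=
        mul_le_mul_of_nonneg_left hb (Nat.cast_nonneg k)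
    _ ≤ k * (c₀ * (Real.log n + 1) ^ (4 * q)) := by
        apply mul_le_mul_of_nonneg_left _ (Nat.cast_nonneg k)
        apply mul_le_mul_of_nonneg_left _ hc₀
        calc (Real.log (Fintype.card (L × L)) + 1) ^ (2 * q) ≤ (Real.log n + 1) ^ (2 * q) := by
              apply pow_le_pow_left₀ (by linarith)
              linarith
          _ ≤ (Real.log n + 1) ^ (4 * q) := by
              apply pow_le_pow_right₀ (by linarith)
              omega
    _ = (k * c₀) * (Real.log n + 1) ^ (4 * q) := by ring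
    _ ≤ (4 ^ (max q 1) + k * c₀) * (Real.log n + 1) ^ (4 * q) := by
        apply mul_le_mul_of_nonneg_right _ (by linarith)
        have : (0 : ℝ) ≤ 4 ^ (max q 1) := by positivity
        linarith

end Pltc
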