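import Pool.Agent.Lib.Pltc.FamSmall
import Pool.Agent.Lib.Pltc.FamAffine
import Pool.Agent.Lib.Pltc.FamProj
import Pool.Agent.Lib.Pltc.FamQuad
import Pool.Agent.Lib.Pltc.PGroup
import Pool.Agent.Lib.P61e83e.Tester

/-!
# Doubly transitive locally testable codes: the known families of doubly transitive groups

A doubly transitive code of relative distance at least `3 ε` which is a `(q, ε, s, 1)`-LTC and whose
automorphism group contains a doubly transitive group of one of the families in `Pltc.Covered` has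
dimension at most `c (log n + 1) ^ (4 q)`.
-/

set_option autoImplicit false
open Classical

namespace Pltc

open P61e83e

/-- the bound for the families in `Pltc.Covered` -/
theorem known_bound (F : Type) [Field F] [Fintype F] (q : ℕ) (ε s : ℝ) (hε : 0 < ε) (hs : 0 < s) :
    ∃ c : ℝ, ∀ (n : ℕ) (C : Submodule F (Fin n → F)),
      (∀ i j i' j' : Fin n, i ≠ j → i' ≠ j' → ∃ π : Equiv.Perm (Fin n),
          (∀ w ∈ C, (fun k => w (π k)) ∈ C) ∧ π i = i' ∧ π j = j') →
      Covered C →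
      (∀ c ∈ C, c ≠ 0 →
          3 * ε * (n : ℝ) ≤ ((Finset.univ.filter (fun i => c i ≠ 0)).card : ℝ)) →
      (∃ (m : ℕ) (Q : Fin m → List F → Fin n) (w : Fin m → ℝ),
        (∀ k, 0 ≤ w k) ∧ (∑ k, w k) = 1 ∧
        ∀ r : Fin n → F,
          (∀ c ∈ C, ε * (n : ℝ) ≤ ((Finset.univ.filter (fun i => r i ≠ c i)).card : ℝ)) →
          s ≤ ∑ k, (if (∃ L : ℕ → Fin n,
                (∀ t, t < q → L t = Q k ((List.range t).map (fun i => r (L i)))) ∧
                ¬ ∃ c ∈ C, ∀ t, t < q → c (L t) = r (L t))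
              then w k else 0)) →
      (Module.finrank F C : ℝ) ≤ c * (Real.log n + 1) ^ (4 * q) := by
  obtain ⟨c₁, h₁, hc₁⟩ := famSemi F q ε hε
  obtain ⟨c₂, h₂, hc₂⟩ := famSL F q
  obtain ⟨c₃, h₃, hc₃⟩ := famSp F q
  obtain ⟨c₄, h₄, hc₄⟩ := famProj F q ε hε
  obtain ⟨c₅, h₅, hc₅⟩ := famQuad F q ε hε
  have hε' : 0 < 1 / ε := by positivity
  refine ⟨1 + 1 / ε + c₁ + c₂ + c₃ + c₄ + c₅, fun n C hG hcov hdist htest => ?_⟩
  have hlog : 0 ≤ Real.log n := Real.log_natCast_nonneg n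
  have hpow : (1 : ℝ) ≤ (Real.log n + 1) ^ (4 * q) := one_le_pow₀ (by linarith)
  have hmono : ∀ c : ℝ, c ≤ 1 + 1 / ε + c₁ + c₂ + c₃ + c₄ + c₅ →
      (Module.finrank F C : ℝ) ≤ c * (Real.log n + 1) ^ (4 * q) →
      (Module.finrank F C : ℝ) ≤ (1 + 1 / ε + c₁ + c₂ + c₃ + c₄ + c₅) *
        (Real.log n + 1) ^ (4 * q) :=
    fun c hc h => h.trans (mul_le_mul_of_nonneg_right hc (by positivity))
  have hsmall : ∀ x : ℝ, x ≤ 1 + 1 / ε → (Module.finrank F C : ℝ) ≤ x →
      (Module.finrank F C : ℝ) ≤ (1 + 1 / ε + c₁ + c₂ + c₃ + c₄ + c₅) *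
        (Real.log n + 1) ^ (4 * q) := by
    intro x hx h
    calc (Module.finrank F C : ℝ) ≤ 1 + 1 / ε + c₁ + c₂ + c₃ + c₄ + c₅ := by linarith
      _ = (1 + 1 / ε + c₁ + c₂ + c₃ + c₄ + c₅) * 1 := (mul_one _).symm
      _ ≤ _ := mul_le_mul_of_nonneg_left hpow (by linarith)
  have hdimn : (Module.finrank F C : ℝ) ≤ n := by
    have := Submodule.finrank_le C
    rw [Module.finrank_fin_fun] at this
    exact_mod_cast this
  by_cases hC0 : C = ⊥
  · refine hsmall 0 (by linarith) ?_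
    rw [hC0, finrank_bot]
    simp
  by_cases hεn : ε * n < 1
  · refine hsmall (1 / ε) (by linarith) (hdimn.trans ?_)
    have : (n : ℝ) < 1 / ε := by rw [lt_div_iff₀ hε]; linarith
    linarith
  push Not at hεn
  obtain ⟨u, hu0, huq, hu⟩ := exists_dual C q ε s hs hC0 hεn hdist htest
  have hG' : DoublyTrans C := hG
  have hδ : ∀ f ∈ C, f ≠ 0 → 3 * ε * n ≤ (wt f : ℝ) := hdist
  -- words of bounded weight
  have hword : ((∃ w ∈ C, w ≠ 0 ∧ wt w ≤ 3) ∨ Module.finrank F C ≤ 1) →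
      (Module.finrank F C : ℝ) ≤ (1 + 1 / ε + c₁ + c₂ + c₃ + c₄ + c₅) *
        (Real.log n + 1) ^ (4 * q) := by
    rintro (⟨w, hw, hw0, hw3⟩ | h1)
    · refine hsmall (1 / ε) (by linarith) (hdimn.trans ?_)
      have h1 := hδ w hw hw0
      have h2 : (wt w : ℝ) ≤ 3 := by exact_mod_cast hw3
      rw [le_div_iff₀ hε]
      linarith
    · refine hsmall 1 (by linarith) (by exact_mod_cast h1)
  rcases hcov with h | h | h | h | h | h | h | h
  · exact hmono c₁ (by linarith) (hc₁ n C u hu0 huq hu hδ h)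
  · refine hword ((cross_dichotomy' C h).imp ?_ id)
    rintro ⟨w, hw, hw0, hw2⟩
    exact ⟨w, hw, hw0, by omega⟩
  · exact hmono c₂ (by linarith) (hc₂ n C u hu0 huq hu h)
  · exact hmono c₃ (by linarith) (hc₃ n C u hu0 huq hu h)
  · exact hmono c₄ (by linarith) (hc₄ n C u hu0 huq hu hG' hδ h)
  · exact hmono c₅ (by linarith) (hc₅ n C u hu0 huq hu hG' hδ h)
  · refine hword ((natural_dichotomy C hG' h).imp ?_ id)
    rintro ⟨w, hw, hw0, hw2⟩
    exact ⟨w, hw, hw0, by omega⟩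
  · exact hword (alternating_dichotomy C h)

end Pltc
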